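import Mathlib

/-! Groups with two abelian subgroups of index two, and the comparison of two recursions. -/

set_option autoImplicit false

namespace Pool.Agent.J4.H48.RQ

/-- Two different abelian subgroups of index two, with an involution `c` in the first one only and an
element `b` in the second one only. -/
structure Two {G : Type*} [Group G] (A B : Subgroup G) (c b : G) : Prop where
  iA : A.index = 2
  iB : B.index = 2
  cA : ∀ x ∈ A, ∀ y ∈ A, x * y = y * x
  cB : ∀ x ∈ B, ∀ y ∈ B, x * y = y * x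
  c_A : c ∈ A
  c_B : c ∉ B
  b_B : b ∈ B
  b_A : b ∉ A
  cc : c * c = 1

namespace Two

variable {G : Type*} [Group G] {A B : Subgroup G} {c b : G} (h : Two A B c b)

include h

lemma mA {x y : G} : x * y ∈ A ↔ (x ∈ A ↔ y ∈ A) := Subgroup.mul_mem_iff_of_index_two h.iA

lemma mB {x y : G} : x * y ∈ B ↔ (x ∈ B ↔ y ∈ B) := Subgroup.mul_mem_iff_of_index_two h.iB

lemma cinv : c⁻¹ = c := inv_eq_of_mul_eq_one_left h.cc

lemma cen {x : G} (hA : x ∈ A) (hB : x ∈ B) (y : G) : x * y = y * x := by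
  by_cases h1 : y ∈ A
  · exact h.cA x hA y h1
  by_cases h2 : y ∈ B
  · exact h.cB x hB y h2
  have h3 : c * y ∈ B := by
    rw [h.mB]
    exact ⟨fun h4 => absurd h4 h.c_B, fun h4 => absurd h4 h2⟩
  have h4 : y = c * (c * y) := by rw [← mul_assoc, h.cc, one_mul]
  rw [h4, ← mul_assoc, h.cA x hA c h.c_A, mul_assoc, h.cB x hB _ h3, ← mul_assoc]

lemma u_mem {u : G} (hu : u = c * b * c⁻¹ * b⁻¹) : u ∈ A ∧ u ∈ B := by
  have h1 : c⁻¹ ∈ A := inv_mem h.c_A
  have h2 : c⁻¹ ∉ B := fun h3 => h.c_B (by simpa using inv_mem h3)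
  have h3 : b⁻¹ ∈ B := inv_mem h.b_B
  have h4 : b⁻¹ ∉ A := fun h5 => h.b_A (by simpa using inv_mem h5)
  have hcA := h.c_A
  have hcB := h.c_B
  have hbA := h.b_A
  have hbB := h.b_B
  subst hu
  constructor
  · rw [h.mA, h.mA, h.mA]
    tauto
  · rw [h.mB, h.mB, h.mB]
    tauto

omit h in
lemma cb {u : G} (hu : u = c * b * c⁻¹ * b⁻¹) : c * b = u * b * c := by
  subst hu
  group

lemma uu {u : G} (hu : u = c * b * c⁻¹ * b⁻¹) : u * u = 1 := by
  have h1 := cb hu
  obtain ⟨hA, hB⟩ := h.u_mem hu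
  have h2 : c * (c * b) = u * u * b := by
    calc c * (c * b) = c * (u * b * c) := by rw [h1]
      _ = (c * u) * b * c := by group
      _ = (u * c) * b * c := by rw [h.cen hA hB]
      _ = u * (c * b) * c := by group
      _ = u * (u * b * c) * c := by rw [h1]
      _ = u * u * b * (c * c) := by group
      _ = u * u * b := by rw [h.cc, mul_one]
  rw [← mul_assoc, h.cc, one_mul] at h2
  have h3 : (1 : G) * b = u * u * b := by rw [one_mul]; exact h2
  exact (mul_right_cancel h3).symm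

lemma bc {u : G} (hu : u = c * b * c⁻¹ * b⁻¹) : b * c = u * c * b := by
  have h1 := cb hu
  calc b * c = (u * u) * b * c := by rw [h.uu hu, one_mul]
    _ = u * (u * b * c) := by group
    _ = u * (c * b) := by rw [h1]
    _ = u * c * b := by group

/-- Conjugation on `A`. -/
lemma conjA {u : G} (hu : u = c * b * c⁻¹ * b⁻¹) {x y : G} (hxA : x ∈ A) (hxB : x ∉ B)
    (hy : y ∉ A) : y * x * y⁻¹ = u * x := by
  obtain ⟨huA, huB⟩ := h.u_mem hu
  -- `x = z c`
  have hz : x * c ∈ A ∧ x * c ∈ B := by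
    refine ⟨mul_mem hxA h.c_A, ?_⟩
    rw [h.mB]
    exact ⟨fun h4 => absurd h4 hxB, fun h4 => absurd h4 h.c_B⟩
  have hx : x = (x * c) * c := by rw [mul_assoc, h.cc, mul_one]
  -- it suffices to treat `x = c`
  suffices hs : y * c = u * c * y by
    calc y * x * y⁻¹ = y * ((x * c) * c) * y⁻¹ := by rw [← hx]
      _ = (y * (x * c)) * c * y⁻¹ := by group
      _ = (x * c) * (y * c) * y⁻¹ := by rw [← h.cen hz.1 hz.2 y]; group
      _ = (x * c) * (u * c * y) * y⁻¹ := by rw [hs]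
      _ = ((x * c) * u) * c := by group
      _ = (u * (x * c)) * c := by rw [← h.cen huA huB]
      _ = u * ((x * c) * c) := by group
      _ = u * x := by rw [← hx]
  have hs : ∀ y, y ∈ B → y ∉ A → y * c = u * c * y := by
    intro y hyB hyA
    have hz2 : b⁻¹ * y ∈ A ∧ b⁻¹ * y ∈ B := by
      refine ⟨?_, mul_mem (inv_mem h.b_B) hyB⟩
      rw [h.mA]
      refine ⟨fun h4 => absurd (by simpa using inv_mem h4) h.b_A, fun h4 => absurd h4 hyA⟩
    have hy2 : y = b * (b⁻¹ * y) := by group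
    calc y * c = b * (b⁻¹ * y) * c := by rw [← hy2]
      _ = b * ((b⁻¹ * y) * c) := by group
      _ = b * (c * (b⁻¹ * y)) := by rw [h.cen hz2.1 hz2.2]
      _ = (b * c) * (b⁻¹ * y) := by group
      _ = (u * c * b) * (b⁻¹ * y) := by rw [h.bc hu]
      _ = u * c * y := by group
  by_cases hyB : y ∈ B
  · exact hs y hyB hy
  · have h1 : c * y ∈ B := by
      rw [h.mB]
      exact ⟨fun h4 => absurd h4 h.c_B, fun h4 => absurd h4 hyB⟩
    have h2 : c * y ∉ A := by
      rw [h.mA]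
      intro h4
      exact hy (h4.1 h.c_A)
    have h3 := hs _ h1 h2
    have h4 : y = c * (c * y) := by rw [← mul_assoc, h.cc, one_mul]
    calc y * c = (c * (c * y)) * c := by rw [← h4]
      _ = c * ((c * y) * c) := by group
      _ = c * (u * c * (c * y)) := by rw [h3]
      _ = (c * u) * (c * (c * y)) := by group
      _ = (u * c) * y := by rw [← h.cen huA huB, ← h4]

/-- Conjugation on `B`. -/
lemma conjB {u : G} (hu : u = c * b * c⁻¹ * b⁻¹) {x y : G} (hxB : x ∈ B) (hxA : x ∉ A)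
    (hy : y ∉ B) : y * x * y⁻¹ = u * x := by
  obtain ⟨huA, huB⟩ := h.u_mem hu
  by_cases hyA : y ∈ A
  · -- `x y⁻¹ x⁻¹ = u y⁻¹`
    have h1 := h.conjA hu (x := y) (y := x) hyA hy hxA
    have h2 : x * y = u * y * x := by
      calc x * y = (x * y * x⁻¹) * x := by group
        _ = u * y * x := by rw [h1]
    have h3 : u * (x * y) = y * x := by
      rw [h2, ← mul_assoc, ← mul_assoc, h.uu hu, one_mul]
    calc y * x * y⁻¹ = (u * (x * y)) * y⁻¹ := by rw [h3]
      _ = u * x := by group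
  · -- `y = c (c y)`, `c y ∈ B`
    have h1 : c * y ∈ B := by
      rw [h.mB]
      exact ⟨fun h4 => absurd h4 h.c_B, fun h4 => absurd h4 hy⟩
    have h4 : y = c * (c * y) := by rw [← mul_assoc, h.cc, one_mul]
    have h5 : (c * y) * x * (c * y)⁻¹ = x := by
      rw [h.cB _ h1 _ hxB]
      group
    have h6 := h.conjA hu (x := c) (y := x) h.c_A h.c_B hxA
    have h7 : x * c = u * c * x := by
      calc x * c = (x * c * x⁻¹) * x := by group
        _ = u * c * x := by rw [h6]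
    have h8 : c * x = u * (x * c) := by
      rw [h7, ← mul_assoc, ← mul_assoc, h.uu hu, one_mul]
    calc y * x * y⁻¹ = (c * (c * y)) * x * (c * (c * y))⁻¹ := by rw [← h4]
      _ = c * ((c * y) * x * (c * y)⁻¹) * c⁻¹ := by group
      _ = (c * x) * c⁻¹ := by rw [h5]
      _ = u * (x * c) * c⁻¹ := by rw [h8]
      _ = u * x := by group

/-- All commutators are powers of `u`. -/
lemma comm {u : G} (hu : u = c * b * c⁻¹ * b⁻¹) (x y : G) : x * y = y * x ∨ x * y = u * (y * x) := by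
  obtain ⟨huA, huB⟩ := h.u_mem hu
  -- conjugation by an arbitrary element
  have key : ∀ x y : G, x ∈ A ∨ x ∈ B → x * y = y * x ∨ x * y = u * (y * x) := by
    intro x y hx
    have fromConj : y * x * y⁻¹ = u * x → x * y = y * x ∨ x * y = u * (y * x) := by
      intro h1
      right
      have h2 : y * x = u * x * y := by
        calc y * x = (y * x * y⁻¹) * y := by group
          _ = u * x * y := by rw [h1]
      rw [h2, ← mul_assoc, ← mul_assoc, h.uu hu, one_mul]
    rcases hx with hx | hx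
    · by_cases hxB : x ∈ B
      · exact Or.inl (h.cen hx hxB y)
      · by_cases hy : y ∈ A
        · exact Or.inl (h.cA x hx y hy)
        · exact fromConj (h.conjA hu hx hxB hy)
    · by_cases hxA : x ∈ A
      · exact Or.inl (h.cen hxA hx y)
      · by_cases hy : y ∈ B
        · exact Or.inl (h.cB x hx y hy)
        · exact fromConj (h.conjB hu hx hxA hy)
  by_cases hx : x ∈ A ∨ x ∈ B
  · exact key x y hx
  · push Not at hx
    have h1 : c * x ∈ B := by
      rw [h.mB]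
      exact ⟨fun h4 => absurd h4 h.c_B, fun h4 => absurd h4 hx.2⟩
    have h4 : x = c * (c * x) := by rw [← mul_assoc, h.cc, one_mul]
    have k1 := key (c * x) y (Or.inr h1)
    have k2 := key c y (Or.inl h.c_A)
    have cu : c * u = u * c := (h.cen huA huB c).symm
    have e1 : x * y = c * ((c * x) * y) := by rw [← mul_assoc, ← mul_assoc, h.cc, one_mul]
    rcases k1 with k1 | k1 <;> rcases k2 with k2 | k2
    · left
      rw [e1, k1, ← mul_assoc, k2, mul_assoc, ← h4]
    · right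
      rw [e1, k1, ← mul_assoc, k2, mul_assoc, mul_assoc, ← h4]
    · right
      rw [e1, k1, ← mul_assoc, cu, mul_assoc, ← mul_assoc c, k2, mul_assoc, ← h4]
    · left
      have e2 : u * (u * (y * c) * (c * x)) = (u * u) * (y * (c * (c * x))) := by group
      rw [e1, k1, ← mul_assoc, cu, mul_assoc, ← mul_assoc c, k2, e2, h.uu hu, one_mul, ← h4]

end Two

open Classical in
/-- The recursion for the numbers of ideals of a quadratic field with given Artin symbol. -/
structure Rec {G : Type*} [Group G] (f : ℕ) (A : Subgroup G) (fr : ℕ → G) (a : G → ℕ → ℤ) :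
    Prop where
  one : ∀ x, a x 1 = if x = 1 then 1 else 0
  cop : ∀ x n, n ≠ 0 → ¬ n.Coprime f → a x n = 0
  split : ∀ p, p.Prime → ¬ p ∣ f → fr p ∈ A → ∃ s, s ∉ A ∧ ∀ x n, p ∣ n →
    a x n = a ((fr p)⁻¹ * x) (n / p) + a ((s * fr p * s⁻¹)⁻¹ * x) (n / p) -
      if p ∣ n / p then a ((fr p)⁻¹ * ((s * fr p * s⁻¹)⁻¹ * x)) (n / p / p) else 0
  inert : ∀ p, p.Prime → ¬ p ∣ f → fr p ∉ A → ∀ x n, p ∣ n →
    a x n = if p ^ 2 ∣ n then a ((fr p * fr p)⁻¹ * x) (n / p ^ 2) else 0

lemma exists_prime {f n : ℕ} (hn0 : n ≠ 0) (hn : n.Coprime f) (hn1 : n ≠ 1) :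
    ∃ p, p.Prime ∧ ¬ p ∣ f ∧ p ∣ n := by
  obtain ⟨p, hp, hpn⟩ := Nat.exists_prime_and_dvd hn1
  refine ⟨p, hp, fun h => ?_, hpn⟩
  exact hp.one_lt.ne' (Nat.dvd_one.1 (hn.gcd_eq_one ▸ Nat.dvd_gcd hpn h))

section

variable {G : Type*} [Group G] {A B : Subgroup G} {c b : G} {f : ℕ} {fr : ℕ → G}
  {a₁ a₂ : G → ℕ → ℤ}

/-- The numbers are invariant under conjugation. -/
theorem Rec.conj {A : Subgroup G} {a : G → ℕ → ℤ} (hr : Rec f A fr a) (iA : A.index = 2)
    (cA : ∀ x ∈ A, ∀ y ∈ A, x * y = y * x) (n : ℕ) :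
    n ≠ 0 → ∀ x y : G, a (y * x * y⁻¹) n = a x n := by
  induction n using Nat.strong_induction_on with
  | _ n ih =>
    intro hn0 x y
    by_cases hn : n.Coprime f
    swap
    · rw [hr.cop _ n hn0 hn, hr.cop _ n hn0 hn]
    by_cases hn1 : n = 1
    · subst hn1
      rw [hr.one, hr.one]
      congr 1
      apply propext
      constructor
      · intro h
        have h2 : x = y⁻¹ * (y * x * y⁻¹) * y := by group
        rw [h2, h]
        group
      · rintro rfl
        group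
    obtain ⟨p, hp, hpf, hpn⟩ := exists_prime hn0 hn hn1
    have hlt : n / p < n := Nat.div_lt_self (Nat.pos_of_ne_zero hn0) hp.one_lt
    have hnp : n / p ≠ 0 := by
      intro h
      rw [Nat.div_eq_zero_iff] at h
      rcases h with h | h
      · exact hp.ne_zero h
      · exact absurd (Nat.le_of_dvd (Nat.pos_of_ne_zero hn0) hpn) (by omega)
    by_cases hg : fr p ∈ A
    · obtain ⟨s, hs, hsp⟩ := hr.split p hp hpf hg
      rw [hsp _ n hpn, hsp x n hpn]
      set g := fr p with hgdef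
      set g' := s * g * s⁻¹ with hg'
      have hsi : s⁻¹ ∉ A := fun h => hs (by simpa using inv_mem h)
      have hg'A : g' ∈ A := by
        rw [hg', Subgroup.mul_mem_iff_of_index_two iA, Subgroup.mul_mem_iff_of_index_two iA]
        tauto
      have swap : ∀ w : G, w * (y * x * y⁻¹) = y * ((y⁻¹ * w * y) * x) * y⁻¹ := by
        intro w; group
      have e3 : ∀ m, m ≠ 0 → m < n → ∀ w : G, a (w * (y * x * y⁻¹)) m =
          a ((y⁻¹ * w * y) * x) m := by
        intro m hm0 hm w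
        rw [swap, ih m hm hm0]
      have hconj : (y⁻¹ * g⁻¹ * y = g⁻¹ ∧ y⁻¹ * g'⁻¹ * y = g'⁻¹) ∨
          (y⁻¹ * g⁻¹ * y = g'⁻¹ ∧ y⁻¹ * g'⁻¹ * y = g⁻¹) := by
        by_cases hy : y ∈ A
        · left
          constructor
          · rw [mul_assoc, cA _ (inv_mem hg) _ hy]; group
          · rw [mul_assoc, cA _ (inv_mem hg'A) _ hy]; group
        · right
          have hyi : y⁻¹ ∉ A := fun h => hy (by simpa using inv_mem h)
          have t1 : s⁻¹ * y⁻¹ ∈ A := by
            rw [Subgroup.mul_mem_iff_of_index_two iA]; tauto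
          have t2 : y⁻¹ * s ∈ A := by
            rw [Subgroup.mul_mem_iff_of_index_two iA]; tauto
          constructor
          · have e := cA _ t1 _ (inv_mem hg)
            calc y⁻¹ * g⁻¹ * y = s * ((s⁻¹ * y⁻¹) * g⁻¹) * y := by group
              _ = s * (g⁻¹ * (s⁻¹ * y⁻¹)) * y := by rw [e]
              _ = (s * g * s⁻¹)⁻¹ := by group
          · have e := cA _ t2 _ (inv_mem hg)
            calc y⁻¹ * (s * g * s⁻¹)⁻¹ * y = ((y⁻¹ * s) * g⁻¹) * s⁻¹ * y := by group
              _ = (g⁻¹ * (y⁻¹ * s)) * s⁻¹ * y := by rw [e]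
              _ = g⁻¹ := by group
      have hprod : g⁻¹ * g'⁻¹ = g'⁻¹ * g⁻¹ := cA _ (inv_mem hg) _ (inv_mem hg'A)
      have e4 : y⁻¹ * (g⁻¹ * g'⁻¹) * y = g⁻¹ * g'⁻¹ := by
        have e5 : y⁻¹ * (g⁻¹ * g'⁻¹) * y = (y⁻¹ * g⁻¹ * y) * (y⁻¹ * g'⁻¹ * y) := by group
        rw [e5]
        rcases hconj with ⟨h1, h2⟩ | ⟨h1, h2⟩
        · rw [h1, h2]
        · rw [h1, h2, hprod]
      rw [e3 _ hnp hlt, e3 _ hnp hlt]
      congr 1
      · rcases hconj with ⟨h1, h2⟩ | ⟨h1, h2⟩
        · rw [h1, h2]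
        · rw [h1, h2, add_comm]
      · split_ifs with hd
        · have hnpp : n / p / p ≠ 0 := by
            intro h
            rw [Nat.div_eq_zero_iff] at h
            rcases h with h | h
            · exact hp.ne_zero h
            · exact absurd (Nat.le_of_dvd (Nat.pos_of_ne_zero hnp) hd) (by omega)
          have hlt2 : n / p / p < n := lt_of_le_of_lt (Nat.div_le_self _ _) hlt
          rw [← mul_assoc, e3 _ hnpp hlt2, e4, mul_assoc]
        · rfl
    · rw [hr.inert p hp hpf hg _ n hpn, hr.inert p hp hpf hg x n hpn]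
      split_ifs with hd
      · have h2 : fr p * fr p ∈ A := by
          rw [Subgroup.mul_mem_iff_of_index_two iA]
        have hlt2 : n / p ^ 2 < n := Nat.div_lt_self (Nat.pos_of_ne_zero hn0)
          (Nat.one_lt_pow two_ne_zero hp.one_lt)
        have hn2 : n / p ^ 2 ≠ 0 := by
          intro h
          rw [Nat.div_eq_zero_iff] at h
          rcases h with h | h
          · exact (pow_pos hp.pos 2).ne' h
          · exact absurd (Nat.le_of_dvd (Nat.pos_of_ne_zero hn0) hd) (by omega)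
        have e1 : (fr p * fr p)⁻¹ * (y * x * y⁻¹) =
            y * ((y⁻¹ * (fr p * fr p)⁻¹ * y) * x) * y⁻¹ := by group
        have e2 : y⁻¹ * (fr p * fr p)⁻¹ * y = (fr p * fr p)⁻¹ := by
          by_cases hy : y ∈ A
          · rw [mul_assoc, cA _ (inv_mem h2) _ hy]; group
          · have h3 : (fr p)⁻¹ * y ∈ A := by
              rw [Subgroup.mul_mem_iff_of_index_two iA]
              have : (fr p)⁻¹ ∉ A := fun h => hg (by simpa using inv_mem h)
              tauto
            have e := cA _ (inv_mem h2) _ h3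
            calc y⁻¹ * (fr p * fr p)⁻¹ * y
                = y⁻¹ * (fr p * ((fr p * fr p)⁻¹ * ((fr p)⁻¹ * y))) := by group
              _ = y⁻¹ * (fr p * (((fr p)⁻¹ * y) * (fr p * fr p)⁻¹)) := by rw [e]
              _ = (fr p * fr p)⁻¹ := by group
        rw [e1, ih _ hlt2 hn2, e2]
      · rfl

lemma dvd_div_iff {p n : ℕ} (hp : p.Prime) (hpn : p ∣ n) : p ∣ n / p ↔ p ^ 2 ∣ n := by
  obtain ⟨m, rfl⟩ := hpn
  rw [Nat.mul_div_cancel_left _ hp.pos, pow_two, Nat.mul_dvd_mul_iff_left hp.pos]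

open Classical in
/-- The recursion for the odd parts. -/
theorem Rec.odd {A B : Subgroup G} {a : G → ℕ → ℤ} (hr : Rec f A fr a) (iA : A.index = 2)
    (cen : ∀ x ∈ A, x ∈ B → ∀ y, x * y = y * x) {u : G} (huA : u ∈ A) (huB : u ∈ B)
    (uu : u * u = 1) (conj : ∀ x ∈ A, x ∉ B → ∀ y ∉ A, y * x * y⁻¹ = u * x)
    (hz : ∀ x ∈ A, x ∉ B → ∀ m, m ≠ 0 → a x m = a (x * u) m)
    {p : ℕ} (hp : p.Prime) (hpf : ¬ p ∣ f) {n : ℕ} (hpn : p ∣ n) (hn0 : n ≠ 0) {z : G}
    (hzA : z ∈ A) (hzB : z ∈ B) :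
    a z n - a (z * u) n =
      if fr p ∈ A ∧ fr p ∈ B then
        2 * (a ((fr p)⁻¹ * z) (n / p) - a ((fr p)⁻¹ * z * u) (n / p)) -
          if p ^ 2 ∣ n then a ((fr p * fr p)⁻¹ * z) (n / p ^ 2) -
            a ((fr p * fr p)⁻¹ * z * u) (n / p ^ 2) else 0
      else
        if p ^ 2 ∣ n then a ((fr p * fr p)⁻¹ * z) (n / p ^ 2) -
            a ((fr p * fr p)⁻¹ * z * u) (n / p ^ 2) else 0 := by
  have hnp : n / p ≠ 0 := by
    intro h
    rw [Nat.div_eq_zero_iff] at h
    rcases h with h | h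
    · exact hp.ne_zero h
    · exact absurd (Nat.le_of_dvd (Nat.pos_of_ne_zero hn0) hpn) (by omega)
  have hdd : n / p / p = n / p ^ 2 := by rw [Nat.div_div_eq_div_mul, pow_two]
  set g := fr p with hgdef
  by_cases hg : g ∈ A
  · obtain ⟨s, hs, hsp⟩ := hr.split p hp hpf hg
    rw [hsp z n hpn, hsp (z * u) n hpn]
    simp only [dvd_div_iff hp hpn, hdd, ← hgdef]
    by_cases hgB : g ∈ B
    · rw [if_pos (show g ∈ A ∧ g ∈ B from ⟨hg, hgB⟩)]
      have h1 : s * g * s⁻¹ = g := by rw [← cen g hg hgB s]; group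
      have h2 : g⁻¹ * (g⁻¹ * z) = (g * g)⁻¹ * z := by group
      have h3 : g⁻¹ * (g⁻¹ * (z * u)) = (g * g)⁻¹ * z * u := by group
      have h4 : g⁻¹ * (z * u) = g⁻¹ * z * u := by group
      rw [h1, h2, h3, h4]
      split_ifs <;> ring
    · rw [if_neg (show ¬ (g ∈ A ∧ g ∈ B) from fun h => hgB h.2)]
      have h1 : s * g * s⁻¹ = u * g := conj g hg hgB s hs
      have hui : u⁻¹ = u := inv_eq_of_mul_eq_one_left uu
      have hgi : g⁻¹ ∈ A := inv_mem hg
      have hgiB : g⁻¹ ∉ B := fun h => hgB (by simpa using inv_mem h)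
      have hcz := cen z hzA hzB
      have hcu := cen u huA huB
      have h2 : g⁻¹ * z ∈ A ∧ g⁻¹ * z ∉ B := by
        refine ⟨mul_mem hgi hzA, fun h => hgiB ?_⟩
        have := mul_mem h (inv_mem hzB)
        simpa using this
      have h3 : g⁻¹ * (z * u) = g⁻¹ * z * u := by group
      have h4 : (u * g)⁻¹ * z = g⁻¹ * z * u := by
        rw [mul_inv_rev, hui, mul_assoc, hcu z, ← mul_assoc]
      have h5 : (u * g)⁻¹ * (z * u) = g⁻¹ * z := by
        rw [← mul_assoc, h4, mul_assoc, uu, mul_one]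
      have h6 : g⁻¹ * (g⁻¹ * z * u) = (g * g)⁻¹ * z * u := by group
      have h7 : g⁻¹ * (g⁻¹ * z) = (g * g)⁻¹ * z := by group
      have h8 := hz _ h2.1 h2.2 _ hnp
      rw [h1, h4, h5, h3, h7, h6, h8]
      split_ifs <;> ring
  · rw [if_neg (show ¬ (g ∈ A ∧ g ∈ B) from fun h => hg h.1), hr.inert p hp hpf hg z n hpn, hr.inert p hp hpf hg (z * u) n hpn]
    have h3 : (g * g)⁻¹ * (z * u) = (g * g)⁻¹ * z * u := by group
    simp only [← hgdef, h3]
    split_ifs <;> ring

/-- **The comparison of the odd parts.** -/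
theorem compare (h : Two A B c b) {u : G} (hu : u = c * b * c⁻¹ * b⁻¹) (r₁ : Rec f A fr a₁)
    (r₂ : Rec f B fr a₂) (n : ℕ) : n ≠ 0 → ∀ z ∈ A, z ∈ B →
    a₁ z n - a₁ (z * u) n = a₂ z n - a₂ (z * u) n := by
  obtain ⟨huA, huB⟩ := h.u_mem hu
  have z1 : ∀ x ∈ A, x ∉ B → ∀ m, m ≠ 0 → a₁ x m = a₁ (x * u) m := by
    intro x hxA hxB m hm
    have h1 := h.conjA hu hxA hxB h.b_A
    have h2 := r₁.conj h.iA h.cA m hm x b
    rw [h1, h.cen huA huB x] at h2
    exact h2.symm
  have z2 : ∀ x ∈ B, x ∉ A → ∀ m, m ≠ 0 → a₂ x m = a₂ (x * u) m := by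
    intro x hxB hxA m hm
    have h1 := h.conjB hu hxB hxA h.c_B
    have h2 := r₂.conj h.iB h.cB m hm x c
    rw [h1, h.cen huA huB x] at h2
    exact h2.symm
  induction n using Nat.strong_induction_on with
  | _ n ih =>
    intro hn0 z hzA hzB
    by_cases hn : n.Coprime f
    swap
    · rw [r₁.cop _ n hn0 hn, r₁.cop _ n hn0 hn, r₂.cop _ n hn0 hn, r₂.cop _ n hn0 hn]
    by_cases hn1 : n = 1
    · subst hn1
      rw [r₁.one, r₁.one, r₂.one, r₂.one]
    obtain ⟨p, hp, hpf, hpn⟩ := exists_prime hn0 hn hn1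
    have hlt : n / p < n := Nat.div_lt_self (Nat.pos_of_ne_zero hn0) hp.one_lt
    have hnp : n / p ≠ 0 := by
      intro h
      rw [Nat.div_eq_zero_iff] at h
      rcases h with h | h
      · exact hp.ne_zero h
      · exact absurd (Nat.le_of_dvd (Nat.pos_of_ne_zero hn0) hpn) (by omega)
    have hlt2 : n / p ^ 2 < n := Nat.div_lt_self (Nat.pos_of_ne_zero hn0)
          (Nat.one_lt_pow two_ne_zero hp.one_lt)
    have hn2 : p ^ 2 ∣ n → n / p ^ 2 ≠ 0 := by
      intro hd h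
      rw [Nat.div_eq_zero_iff] at h
      rcases h with h | h
      · exact (pow_pos hp.pos 2).ne' h
      · exact absurd (Nat.le_of_dvd (Nat.pos_of_ne_zero hn0) hd) (by omega)
    have e1 := r₁.odd h.iA (fun x hx hx2 y => h.cen hx hx2 y) huA huB (h.uu hu)
      (fun x hx hx2 y hy => h.conjA hu hx hx2 hy) z1 hp hpf hpn hn0 hzA hzB
    have e2 := r₂.odd h.iB (fun x hx hx2 y => h.cen hx2 hx y) huB huA (h.uu hu)
      (fun x hx hx2 y hy => h.conjB hu hx hx2 hy) z2 hp hpf hpn hn0 hzB hzA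
    have hggA : fr p * fr p ∈ A := by rw [h.mA]
    have hggB : fr p * fr p ∈ B := by rw [h.mB]
    have k2 : p ^ 2 ∣ n → a₁ ((fr p * fr p)⁻¹ * z) (n / p ^ 2) -
        a₁ ((fr p * fr p)⁻¹ * z * u) (n / p ^ 2) = a₂ ((fr p * fr p)⁻¹ * z) (n / p ^ 2) -
        a₂ ((fr p * fr p)⁻¹ * z * u) (n / p ^ 2) := fun hd =>
      ih _ hlt2 (hn2 hd) _ (mul_mem (inv_mem hggA) hzA) (mul_mem (inv_mem hggB) hzB)
    rw [e1, e2]
    by_cases hg : fr p ∈ A ∧ fr p ∈ B
    · rw [if_pos hg, if_pos (show fr p ∈ B ∧ fr p ∈ A from ⟨hg.2, hg.1⟩),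
        ih _ hlt hnp _ (mul_mem (inv_mem hg.1) hzA) (mul_mem (inv_mem hg.2) hzB)]
      split_ifs with hd
      · rw [k2 hd]
      · rfl
    · rw [if_neg hg, if_neg (show ¬ (fr p ∈ B ∧ fr p ∈ A) from fun h => hg ⟨h.2, h.1⟩)]
      split_ifs with hd
      · rw [k2 hd]
      · rfl

end

end Pool.Agent.J4.H48.RQ
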