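import Pool.Agent.J4.H48.RQ.Quad
import Pool.Agent.J4.H48.RQ.Grp

/-! The comparison of the numbers of ideals of two quadratic fields. -/

set_option autoImplicit false
set_option linter.style.haveILetI false
set_option linter.unusedSectionVars false

namespace Pool.Agent.J4.H48.RQ
open NumberField Module IntermediateField Pool.Agent.K4H33.SK

/-- The subgroup of the Galois group of `N` of the automorphisms which fix `K`. -/
noncomputable def sg (N : IntermediateField ℚ Qbar) [Normal ℚ N] (K : IntermediateField ℚ Qbar) :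
    Subgroup (N ≃ₐ[ℚ] N) := K.fixingSubgroup.map (rr N)

section

variable {N K : IntermediateField ℚ Qbar} [Normal ℚ N]

lemma mem_sg (hKN : K ≤ N) {σ : GQ} : rr N σ ∈ sg N K ↔ Fixes K σ := by
  constructor
  · rintro ⟨τ, hτ, h⟩
    intro x hx
    rw [← (rr_eq.1 h) x (hKN hx)]
    exact fixes_iff.2 hτ x hx
  · intro h
    exact ⟨σ, fixes_iff.1 h, rfl⟩

lemma sg_index (hK : finrank ℚ K = 2) (hKN : K ≤ N) {a : GQ} (ha : ¬ Fixes K a) :
    (sg N K).index = 2 := by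
  rw [Subgroup.index_eq_two_iff]
  refine ⟨rr N a, fun x => ?_⟩
  obtain ⟨σ, rfl⟩ := rr_surj N x
  rw [← map_mul, mem_sg hKN, mem_sg hKN]
  by_cases h : Fixes K σ
  · right
    refine ⟨h, fun h2 => ha ?_⟩
    have h3 := h.inv.mul h2
    rwa [inv_mul_cancel_left] at h3
  · left
    exact ⟨quad hK h ha, h⟩

lemma sg_comm (hab : ∀ σ τ : GQ, Fixes K σ → Fixes K τ → ∀ x ∈ N, σ (τ x) = τ (σ x)) :
    ∀ x ∈ sg N K, ∀ y ∈ sg N K, x * y = y * x := by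
  rintro _ ⟨σ, hσ, rfl⟩ _ ⟨τ, hτ, rfl⟩
  rw [← map_mul, ← map_mul, rr_eq]
  exact hab σ τ (fixes_iff.2 hσ) (fixes_iff.2 hτ)

end

/-- The numbers of ideals with given Artin symbol on a normal field. -/
noncomputable def cN (F N : IntermediateField ℚ Qbar) [NumberField F] [Normal ℚ N]
    (𝔪 : Ideal (𝓞 F)) (art : Ideal (𝓞 F) → GQ) (x : N ≃ₐ[ℚ] N) (n : ℕ) : ℤ :=
  (cnt F N 𝔪 art (Function.surjInv (rr_surj N) x) n : ℤ)

lemma cN_rr {F N : IntermediateField ℚ Qbar} [NumberField F] [Normal ℚ N]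
    {𝔪 : Ideal (𝓞 F)} {art : Ideal (𝓞 F) → GQ} (σ : GQ) (n : ℕ) :
    cN F N 𝔪 art (rr N σ) n = cnt F N 𝔪 art σ n := by
  unfold cN
  congr 1
  refine cnt_congr F N 𝔪 art (rr_eq.1 ?_) n
  exact Function.surjInv_eq (rr_surj N) _

section

variable {F N M : IntermediateField ℚ Qbar} [NumberField F] [NumberField M] {f : ℕ}
  {art : Ideal (𝓞 F) → GQ}

/-- A prime above `p` of the ring of all algebraic integers. -/
lemma exists_above (p : ℕ) (hp : p.Prime) : ∃ 𝔓 : Ideal (𝓞 Qbar), 𝔓.IsPrime ∧ (p : 𝓞 Qbar) ∈ 𝔓 := by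
  haveI : Algebra.IsIntegral ℤ (𝓞 Qbar) := inferInstance
  haveI : (Ideal.span {(p : ℤ)}).IsPrime := by
    rw [Ideal.span_singleton_prime (by exact_mod_cast hp.ne_zero)]
    exact Nat.prime_iff_prime_int.1 hp
  obtain ⟨⟨𝔓, h𝔓, hl⟩⟩ := Ideal.nonempty_primesOver (S := 𝓞 Qbar) (Ideal.span {(p : ℤ)})
  refine ⟨𝔓, h𝔓, ?_⟩
  have h1 : (p : ℤ) ∈ 𝔓.under ℤ := by
    rw [← hl.over]
    exact Ideal.mem_span_singleton_self _
  rw [Ideal.under_def, Ideal.mem_comap] at h1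
  simpa using h1

/-- A choice of primes and of Frobenius automorphisms. -/
lemma exists_frobs (hM : Normal ℚ M) : ∃ (𝔓 : ℕ → Ideal (𝓞 Qbar)) (g : ℕ → GQ), ∀ p : ℕ, p.Prime →
    (𝔓 p).IsPrime ∧ (p : 𝓞 Qbar) ∈ 𝔓 p ∧ Fr M (𝔓 p) p (g p) := by
  have h : ∀ p : ℕ, ∃ (𝔓 : Ideal (𝓞 Qbar)) (g : GQ), p.Prime →
      𝔓.IsPrime ∧ (p : 𝓞 Qbar) ∈ 𝔓 ∧ Fr M 𝔓 p g := by
    intro p
    by_cases hp : p.Prime
    · obtain ⟨𝔓, h1, h2⟩ := exists_above p hp
      obtain ⟨g, hg⟩ := exists_fr hM hp h1 h2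
      exact ⟨𝔓, g, fun _ => ⟨h1, h2, hg⟩⟩
    · exact ⟨⊥, 1, fun h => absurd h hp⟩
  choose 𝔓 g h using h
  exact ⟨𝔓, g, h⟩

lemma art_top (hart : IsArtin F M (Ideal.span {(f : 𝓞 F)}) art) : ∀ x ∈ M, art ⊤ x = x := by
  intro x hx
  have hc : IsCoprime (⊤ : Ideal (𝓞 F)) (Ideal.span {(f : 𝓞 F)}) := by
    rw [← Ideal.one_eq_top]
    exact isCoprime_one_left
  have h2 := hart.mul ⊤ ⊤ hc hc x hx
  rw [Ideal.top_mul] at h2
  exact ((art ⊤).injective h2).symm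

lemma cnt_one (hart : IsArtin F M (Ideal.span {(f : 𝓞 F)}) art) {L : IntermediateField ℚ Qbar}
    (hLM : L ≤ M) (σ : GQ) [Decidable (∀ x ∈ L, σ x = x)] :
    cnt F L (Ideal.span {(f : 𝓞 F)}) art σ 1 = if (∀ x ∈ L, σ x = x) then 1 else 0 := by
  have hc : IsCoprime (⊤ : Ideal (𝓞 F)) (Ideal.span {(f : 𝓞 F)}) := by
    rw [← Ideal.one_eq_top]
    exact isCoprime_one_left
  unfold cnt
  split_ifs with h
  · rw [Nat.card_eq_one_iff_unique]
    constructor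
    · constructor
      rintro ⟨𝔟, h1, -⟩ ⟨𝔠, h2, -⟩
      rw [Ideal.absNorm_eq_one_iff] at h1 h2
      subst h1 h2
      rfl
    · exact ⟨⟨⊤, Ideal.absNorm_top, hc, fun x hx => by
        rw [art_top hart x (hLM hx), h x hx]⟩⟩
  · rw [Nat.card_eq_zero]
    left
    rw [isEmpty_subtype]
    rintro 𝔟 ⟨h1, -, h3⟩
    apply h
    intro x hx
    rw [Ideal.absNorm_eq_one_iff] at h1
    subst h1
    rw [← h3 x hx, art_top hart x (hLM hx)]

lemma cnt_not_cop {L : IntermediateField ℚ Qbar} (σ : GQ) {n : ℕ} (hn : ¬ n.Coprime f) :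
    cnt F L (Ideal.span {(f : 𝓞 F)}) art σ n = 0 := by
  unfold cnt
  rw [Nat.card_eq_zero]
  left
  rw [isEmpty_subtype]
  rintro 𝔟 ⟨h1, h2, -⟩
  rw [coprime_norm, h1] at h2
  exact hn h2

/-- The numbers of ideals satisfy the recursion. -/
theorem rec_cN [Normal ℚ N] (hF : finrank ℚ F = 2) (hFN : F ≤ N) (hNM : N ≤ M) (hM : Normal ℚ M)
    (hU : Unram M f) (hart : IsArtin F M (Ideal.span {(f : 𝓞 F)}) art)
    {𝔓 : ℕ → Ideal (𝓞 Qbar)} {g : ℕ → GQ} (hg : ∀ p : ℕ, p.Prime →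
    (𝔓 p).IsPrime ∧ (p : 𝓞 Qbar) ∈ 𝔓 p ∧ Fr M (𝔓 p) p (g p)) :
    Rec f (sg N F) (fun p => rr N (g p)) (cN F N (Ideal.span {(f : 𝓞 F)}) art) := by
  classical
  refine ⟨fun x => ?_, fun x n _ hn => ?_, fun p hp hpf hgA => ?_, fun p hp hpf hgA x n hpn => ?_⟩
  · obtain ⟨σ, rfl⟩ := rr_surj N x
    rw [cN_rr, cnt_one hart hNM, Nat.cast_ite, Nat.cast_one, Nat.cast_zero]
    congr 1
    apply propext
    rw [← map_one (rr N), rr_eq]
    rfl
  · obtain ⟨σ, rfl⟩ := rr_surj N x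
    rw [cN_rr, cnt_not_cop σ hn, Nat.cast_zero]
  · obtain ⟨h1, h2, h3⟩ := hg p hp
    simp only [mem_sg hFN] at hgA
    obtain ⟨s, hs, hsp⟩ := rec_split hF (hFN.trans hNM) hM hU hart hp hpf h1 h2 h3 hNM hgA
    refine ⟨rr N s, ?_, fun x n hpn => ?_⟩
    · rw [mem_sg hFN]
      exact hs
    · obtain ⟨σ, rfl⟩ := rr_surj N x
      simp only [← map_inv (rr N), ← map_mul (rr N), cN_rr]
      exact hsp σ hpn
  · obtain ⟨h1, h2, h3⟩ := hg p hp
    simp only [mem_sg hFN] at hgA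
    obtain ⟨σ, rfl⟩ := rr_surj N x
    simp only [← map_inv (rr N), ← map_mul (rr N), cN_rr]
    rw [rec_inert hF (hFN.trans hNM) hM hU hart hp hpf h1 h2 h3 hNM hgA σ hpn]
    split_ifs <;> rfl

end

/-- The fields: `K` real quadratic, `k` imaginary quadratic, `N` normal and abelian over `K` and
over `k`. -/
structure Cls (ι : Qbar →+* ℂ) (K k N : IntermediateField ℚ Qbar) : Prop where
  deg_K : finrank ℚ K = 2
  deg_k : finrank ℚ k = 2
  real_K : ∀ x ∈ K, (ι x).im = 0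
  not_real_k : ∃ x ∈ k, (ι x).im ≠ 0
  normal : Normal ℚ N
  K_le : K ≤ N
  k_le : k ≤ N
  ab_K : ∀ σ τ : GQ, Fixes K σ → Fixes K τ → ∀ x ∈ N, σ (τ x) = τ (σ x)
  ab_k : ∀ σ τ : GQ, Fixes k σ → Fixes k τ → ∀ x ∈ N, σ (τ x) = τ (σ x)

section

variable {ι : Qbar →+* ℂ} {K k N M : IntermediateField ℚ Qbar} (hC : Cls ι K k N)

include hC

lemma Cls.conj_data {c : GQ} (hc : ∀ x, ι (c x) = (starRingEnd ℂ) (ι x)) :
    Fixes K c ∧ ¬ Fixes k c ∧ c * c = 1 := by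
  refine ⟨fun x hx => ?_, fun h => ?_, ?_⟩
  · apply ι.injective
    rw [hc]
    exact Complex.conj_eq_iff_im.2 (hC.real_K x hx)
  · obtain ⟨x, hx, hx2⟩ := hC.not_real_k
    apply hx2
    have h1 := hc x
    rw [h x hx] at h1
    exact Complex.conj_eq_iff_im.1 h1.symm
  · ext x
    apply ι.injective
    rw [AlgEquiv.mul_apply, hc, hc, Complex.conj_conj, AlgEquiv.one_apply]

lemma Cls.exists_b : ∃ b : GQ, Fixes k b ∧ ¬ Fixes K b := by
  by_contra h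
  push Not at h
  have h1 : K ≤ k := by
    intro x hx
    exact mem_of_fixed k fun σ hσ => h σ hσ x hx
  haveI : FiniteDimensional ℚ k := FiniteDimensional.of_finrank_pos (by rw [hC.deg_k]; norm_num)
  have h2 : K = k := IntermediateField.eq_of_le_of_finrank_eq h1 (by rw [hC.deg_K, hC.deg_k])
  obtain ⟨x, hx, hx2⟩ := hC.not_real_k
  exact hx2 (hC.real_K x (h2 ▸ hx))

lemma Cls.two [Normal ℚ N] {c b : GQ} (hc : ∀ x, ι (c x) = (starRingEnd ℂ) (ι x))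
    (hbk : Fixes k b) (hbK : ¬ Fixes K b) : Two (sg N K) (sg N k) (rr N c) (rr N b) := by
  obtain ⟨h1, h2, h3⟩ := hC.conj_data hc
  exact ⟨sg_index hC.deg_K hC.K_le hbK, sg_index hC.deg_k hC.k_le h2, sg_comm hC.ab_K,
    sg_comm hC.ab_k, (mem_sg hC.K_le).2 h1, fun h => h2 ((mem_sg hC.k_le).1 h),
    (mem_sg hC.k_le).2 hbk, fun h => hbK ((mem_sg hC.K_le).1 h), by rw [← map_mul, h3, map_one]⟩

end

end Pool.Agent.J4.H48.RQ
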