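import Pool.Agent.J4.H48.RQ.Conn

/-! The numbers of ideals for the real subfield. -/

set_option autoImplicit false
set_option linter.style.haveILetI false
set_option linter.unusedSectionVars false

namespace Pool.Agent.J4.H48.RQ
open NumberField Module IntermediateField Pool.Agent.K4H33.SK

/-- The number of ideals for a subfield of relative degree two. -/
lemma cnt_pair {F L L' : IntermediateField ℚ Qbar} [NumberField F] {𝔪 : Ideal (𝓞 F)}
    {art : Ideal (𝓞 F) → GQ} (hLL : L ≤ L') {h : GQ} (hL : Fixes L h) (hL' : ¬ Fixes L' h)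
    (hall : ∀ t : GQ, Fixes L t → (∀ x ∈ L', t x = x) ∨ (∀ x ∈ L', t x = h x)) (σ : GQ) (n : ℕ) :
    cnt F L 𝔪 art σ n = cnt F L' 𝔪 art σ n + cnt F L' 𝔪 art (σ * h) n := by
  classical
  have hfin : {𝔟 : Ideal (𝓞 F) | Ideal.absNorm 𝔟 = n}.Finite := Ideal.finite_setOfPred_absNorm_eq n
  set A : Set (Ideal (𝓞 F)) :=
    {𝔟 | Ideal.absNorm 𝔟 = n ∧ IsCoprime 𝔟 𝔪 ∧ ∀ x ∈ L, art 𝔟 x = σ x} with hA
  set A1 : Set (Ideal (𝓞 F)) :=
    {𝔟 | Ideal.absNorm 𝔟 = n ∧ IsCoprime 𝔟 𝔪 ∧ ∀ x ∈ L', art 𝔟 x = σ x} with hA1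
  set A2 : Set (Ideal (𝓞 F)) :=
    {𝔟 | Ideal.absNorm 𝔟 = n ∧ IsCoprime 𝔟 𝔪 ∧ ∀ x ∈ L', art 𝔟 x = (σ * h) x} with hA2
  have h1 : A = A1 ∪ A2 := by
    ext 𝔟
    constructor
    · rintro ⟨h1, h2, h3⟩
      have h4 : Fixes L (σ⁻¹ * art 𝔟) := agree_iff.1 h3
      rcases hall _ h4 with h5 | h5
      · left
        exact ⟨h1, h2, agree_iff.2 h5⟩
      · right
        refine ⟨h1, h2, fun x hx => ?_⟩
        rw [AlgEquiv.mul_apply, ← h5 x hx, AlgEquiv.mul_apply, AlgEquiv.aut_inv,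
          AlgEquiv.apply_symm_apply]
    · rintro (⟨h1, h2, h3⟩ | ⟨h1, h2, h3⟩)
      · exact ⟨h1, h2, fun x hx => h3 x (hLL hx)⟩
      · exact ⟨h1, h2, fun x hx => by rw [h3 x (hLL hx), AlgEquiv.mul_apply, hL x hx]⟩
  have h2 : Disjoint A1 A2 := by
    rw [Set.disjoint_left]
    rintro 𝔟 ⟨-, -, h3⟩ ⟨-, -, h4⟩
    apply hL'
    intro x hx
    have h5 := h4 x hx
    rw [h3 x hx, AlgEquiv.mul_apply] at h5
    exact (σ.injective h5).symm
  have hA1fin : A1.Finite := hfin.subset fun 𝔟 h => h.1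
  have hA2fin : A2.Finite := hfin.subset fun 𝔟 h => h.1
  have e0 : cnt F L 𝔪 art σ n = A.ncard := rfl
  have e1 : cnt F L' 𝔪 art σ n = A1.ncard := rfl
  have e2 : cnt F L' 𝔪 art (σ * h) n = A2.ncard := rfl
  rw [e0, e1, e2, h1, Set.ncard_union_eq h2 hA1fin hA2fin]

/-- The subgroup generated by two commuting involutions. -/
lemma closure_two {G : Type*} [Group G] {c u : G} (hcc : c * c = 1) (huu : u * u = 1)
    (hcu : c * u = u * c) {g : G} (hg : g ∈ Subgroup.closure {c, u}) :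
    g = 1 ∨ g = c ∨ g = u ∨ g = c * u := by
  have hci : c⁻¹ = c := inv_eq_of_mul_eq_one_left hcc
  have hui : u⁻¹ = u := inv_eq_of_mul_eq_one_left huu
  have hp : ∀ {x : G}, x * x = 1 → ∀ i : ℕ, x ^ i = 1 ∨ x ^ i = x := by
    intro x hx i
    induction i with
    | zero => left; exact pow_zero x
    | succ i ih =>
      rw [pow_succ]
      rcases ih with ih | ih
      · right; rw [ih, one_mul]
      · left; rw [ih, hx]
  have four : (∃ i j : ℕ, g = c ^ i * u ^ j) → g = 1 ∨ g = c ∨ g = u ∨ g = c * u := by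
    rintro ⟨i, j, rfl⟩
    rcases hp hcc i with h1 | h1 <;> rcases hp huu j with h2 | h2 <;> simp [h1, h2]
  apply four
  clear four
  induction hg using Subgroup.closure_induction with
  | mem x hx =>
    rcases hx with rfl | rfl
    · exact ⟨1, 0, by simp⟩
    · exact ⟨0, 1, by simp⟩
  | one => exact ⟨0, 0, by simp⟩
  | mul x y _ _ hx hy =>
    obtain ⟨i, j, rfl⟩ := hx
    obtain ⟨k, l, rfl⟩ := hy
    have h1 : Commute (u ^ j) (c ^ k) := (Commute.pow_pow (show Commute c u from hcu) k j).symm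
    refine ⟨i + k, j + l, ?_⟩
    rw [pow_add, pow_add, mul_assoc, ← mul_assoc (u ^ j), h1.eq, mul_assoc, mul_assoc]
  | inv x _ hx =>
    obtain ⟨i, j, rfl⟩ := hx
    have h1 : Commute (u ^ j) (c ^ i) := (Commute.pow_pow (show Commute c u from hcu) i j).symm
    exact ⟨i, j, by rw [mul_inv_rev, ← inv_pow, ← inv_pow, hci, hui, h1.eq]⟩

lemma mem_closure {N : IntermediateField ℚ Qbar} [NumberField N] [Normal ℚ N]
    {S : Set (N ≃ₐ[ℚ] N)} {t : GQ} (h : ∀ x : N, (∀ s ∈ S, s x = x) → t x = x) :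
    rr N t ∈ Subgroup.closure S := by
  rw [← IntermediateField.fixingSubgroup_fixedField (Subgroup.closure S),
    IntermediateField.mem_fixingSubgroup_iff]
  intro x hx
  rw [IntermediateField.mem_fixedField_iff] at hx
  apply Subtype.ext
  rw [rr_apply]
  exact h x fun s hs => hx s (Subgroup.subset_closure hs)

section

variable {ι : Qbar →+* ℂ} {K k N H L₀ M : IntermediateField ℚ Qbar} {c b u : GQ}

lemma im_iff (hc : ∀ x, ι (c x) = (starRingEnd ℂ) (ι x)) (x : Qbar) :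
    (ι x).im = 0 ↔ c x = x := by
  rw [← Complex.conj_eq_iff_im, ← hc]
  exact ι.injective.eq_iff

/-- Automorphisms which fix the real subfield. -/
lemma fix_H [NumberField N] [Normal ℚ N] (hc : ∀ x, ι (c x) = (starRingEnd ℂ) (ι x))
    (hcc : c * c = 1) (hH : ∀ x, x ∈ H ↔ x ∈ N ∧ (ι x).im = 0) {t : GQ} (ht : Fixes H t) :
    (∀ x ∈ N, t x = x) ∨ (∀ x ∈ N, t x = c x) := by
  have h1 : rr N t ∈ Subgroup.closure {rr N c, 1} := by
    refine mem_closure fun x hx => ht _ ((hH _).2 ⟨x.2, (im_iff hc _).2 ?_⟩)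
    have h2 := hx (rr N c) (Set.mem_insert _ _)
    rw [← rr_apply, h2]
  have h2 := closure_two (c := rr N c) (u := 1) (by rw [← map_mul, hcc, map_one]) (one_mul 1)
    (by rw [mul_one, one_mul]) h1
  rw [mul_one, ← map_one (rr N), rr_eq, rr_eq] at h2
  rcases h2 with h2 | h2 | h2 | h2
  · exact Or.inl h2
  · exact Or.inr h2
  · exact Or.inl h2
  · exact Or.inr h2

/-- Automorphisms which fix the real abelian part. -/
lemma fix_L [NumberField N] [Normal ℚ N] (hc : ∀ x, ι (c x) = (starRingEnd ℂ) (ι x))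
    (hcc : c * c = 1) (huu : ∀ x ∈ N, u (u x) = x) (hcu : ∀ x ∈ N, c (u x) = u (c x))
    (hH : ∀ x, x ∈ H ↔ x ∈ N ∧ (ι x).im = 0)
    (hL : ∀ x, x ∈ L₀ ↔ x ∈ N ∧ c x = x ∧ u x = x) {t : GQ} (ht : Fixes L₀ t) :
    (∀ x ∈ H, t x = x) ∨ (∀ x ∈ H, t x = u x) := by
  have h1 : rr N t ∈ Subgroup.closure {rr N c, rr N u} := by
    refine mem_closure fun x hx => ht _ ((hL _).2 ⟨x.2, ?_, ?_⟩)
    · have h2 := hx (rr N c) (Set.mem_insert _ _)
      rw [← rr_apply, h2]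
    · have h2 := hx (rr N u) (Set.mem_insert_of_mem _ rfl)
      rw [← rr_apply, h2]
  have h2 := closure_two (c := rr N c) (u := rr N u) (by rw [← map_mul, hcc, map_one])
    (by rw [← map_mul, ← map_one (rr N), rr_eq]; exact huu)
    (by rw [← map_mul, ← map_mul, rr_eq]; exact hcu) h1
  rw [← map_one (rr N), ← map_mul, rr_eq, rr_eq, rr_eq, rr_eq] at h2
  have hHc : ∀ x ∈ H, x ∈ N ∧ c x = x := fun x hx => by
    rw [hH, im_iff hc] at hx
    exact hx
  rcases h2 with h2 | h2 | h2 | h2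
  · exact Or.inl fun x hx => h2 x (hHc x hx).1
  · exact Or.inl fun x hx => by rw [h2 x (hHc x hx).1, (hHc x hx).2]
  · exact Or.inr fun x hx => h2 x (hHc x hx).1
  · exact Or.inr fun x hx => by
      rw [h2 x (hHc x hx).1, AlgEquiv.mul_apply, hcu x (hHc x hx).1, (hHc x hx).2]

lemma exists_L (N : IntermediateField ℚ Qbar) (c u : GQ) :
    ∃ L₀ : IntermediateField ℚ Qbar, ∀ x, x ∈ L₀ ↔ x ∈ N ∧ c x = x ∧ u x = x := by
  refine ⟨N ⊓ fixedField (Subgroup.closure {c, u}), fun x => ?_⟩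
  rw [IntermediateField.mem_inf, mem_fixedField_iff]
  refine and_congr_right fun _ => ⟨fun h => ⟨h c (Subgroup.subset_closure (Set.mem_insert _ _)),
    h u (Subgroup.subset_closure (Set.mem_insert_of_mem _ rfl))⟩, fun h s hs => ?_⟩
  have h1 : Subgroup.closure {c, u} ≤ MulAction.stabilizer GQ x := by
    rw [Subgroup.closure_le]
    rintro s (rfl | rfl)
    · exact h.1
    · exact h.2
  exact h1 hs

/-- The data derived from the fields. -/
lemma Cls.u_data [Normal ℚ N] (hC : Cls ι K k N) (hc : ∀ x, ι (c x) = (starRingEnd ℂ) (ι x))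
    (hbk : Fixes k b) (hbK : ¬ Fixes K b) (hu : u = c * b * c⁻¹ * b⁻¹) :
    Fixes K u ∧ Fixes k u ∧ (∀ x ∈ N, u (u x) = x) ∧ (∀ g : GQ, ∀ x ∈ N, u (g x) = g (u x)) ∧
      (∀ σ τ : GQ, ∀ x ∈ N, u x = x → σ (τ x) = τ (σ x)) := by
  have hT := hC.two hc hbk hbK
  have hu' : rr N u = rr N c * rr N b * (rr N c)⁻¹ * (rr N b)⁻¹ := by
    rw [hu, map_mul, map_mul, map_mul, map_inv, map_inv]
  obtain ⟨huA, huB⟩ := hT.u_mem hu'
  have hcen : ∀ g : GQ, ∀ x ∈ N, u (g x) = g (u x) := by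
    intro g
    have h1 : rr N (u * g) = rr N (g * u) := by
      rw [map_mul, map_mul]
      exact hT.cen huA huB _
    exact rr_eq.1 h1
  refine ⟨(mem_sg hC.K_le).1 huA, (mem_sg hC.k_le).1 huB, ?_, hcen, ?_⟩
  · have h1 : rr N (u * u) = rr N 1 := by rw [map_mul, hT.uu hu', map_one]
    exact rr_eq.1 h1
  · intro σ τ x hx hux
    rcases hT.comm hu' (rr N σ) (rr N τ) with h | h
    · rw [← map_mul, ← map_mul, rr_eq] at h
      exact h x hx
    · rw [← map_mul, ← map_mul, ← map_mul, rr_eq] at h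
      have h1 : σ (τ x) = u (τ (σ x)) := h x hx
      have h2 := hcen τ (σ x) (normal_mem hC.normal σ hx)
      have h3 := hcen σ x hx
      rw [h1, h2, h3, hux]

open Classical in
/-- **The numbers of ideals for the real subfield.** -/
theorem two_cnt [NumberField K] [NumberField k] [NumberField N] [NumberField M] [Normal ℚ N]
    {f : ℕ} {artK : Ideal (𝓞 K) → GQ} {art : Ideal (𝓞 k) → GQ}
    (hC : Cls ι K k N) (hc : ∀ x, ι (c x) = (starRingEnd ℂ) (ι x))
    (hbk : Fixes k b) (hbK : ¬ Fixes K b) (hu : u = c * b * c⁻¹ * b⁻¹) (hNM : N ≤ M)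
    (hM : Normal ℚ M) (hU : Unram M f) (hartK : IsArtin K M (Ideal.span {(f : 𝓞 K)}) artK)
    (hart : IsArtin k M (Ideal.span {(f : 𝓞 k)}) art)
    (hH : ∀ x, x ∈ H ↔ x ∈ N ∧ (ι x).im = 0)
    (hL : ∀ x, x ∈ L₀ ↔ x ∈ N ∧ c x = x ∧ u x = x) {σ σ' : GQ} (hσ : Fixes K σ)
    (hσ' : Fixes k σ') (hσσ : σ' = σ ∨ σ' = σ * c) {n : ℕ} (hn : n ≠ 0) :
    (2 * cnt K H (Ideal.span {(f : 𝓞 K)}) artK σ n : ℤ) =
      (if Fixes N u then 2 else 1) * cnt K L₀ (Ideal.span {(f : 𝓞 K)}) artK σ n +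
      (cnt k N (Ideal.span {(f : 𝓞 k)}) art σ' n -
        cnt k N (Ideal.span {(f : 𝓞 k)}) art (σ' * u) n) := by
  obtain ⟨hcK, hck, hcc⟩ := hC.conj_data hc
  obtain ⟨huK, huk, huu, hcen, -⟩ := hC.u_data hc hbk hbK hu
  have hT := hC.two hc hbk hbK
  have hu' : rr N u = rr N c * rr N b * (rr N c)⁻¹ * (rr N b)⁻¹ := by
    rw [hu, map_mul, map_mul, map_mul, map_inv, map_inv]
  obtain ⟨𝔓, g, hg⟩ := exists_frobs hM
  have r₁ := rec_cN hC.deg_K hC.K_le hNM hM hU hartK hg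
  have r₂ := rec_cN hC.deg_k hC.k_le hNM hM hU hart hg
  have hσ'K : Fixes K σ' := by
    rcases hσσ with rfl | rfl
    · exact hσ
    · exact hσ.mul hcK
  have hcmp := compare hT hu' r₁ r₂ n hn (rr N σ') ((mem_sg hC.K_le).2 hσ'K)
    ((mem_sg hC.k_le).2 hσ')
  rw [← map_mul, cN_rr, cN_rr, cN_rr, cN_rr] at hcmp
  -- the odd part vanishes on the other coset
  have z1 : cnt K N (Ideal.span {(f : 𝓞 K)}) artK (σ' * c) n =
      cnt K N (Ideal.span {(f : 𝓞 K)}) artK (σ' * c * u) n := by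
    have hx1 : Fixes K (σ' * c) := hσ'K.mul hcK
    have hx2 : ¬ Fixes k (σ' * c) := fun h => hck (by
      have := hσ'.inv.mul h
      rwa [inv_mul_cancel_left] at this)
    have h1 := hT.conjA hu' (x := rr N (σ' * c)) (y := rr N b) ((mem_sg hC.K_le).2 hx1)
      (fun h => hx2 ((mem_sg hC.k_le).1 h)) hT.b_A
    have h2 := r₁.conj hT.iA hT.cA n hn (rr N (σ' * c)) (rr N b)
    rw [h1, ← map_mul, cN_rr, cN_rr] at h2
    have h3 : (cnt K N (Ideal.span {(f : 𝓞 K)}) artK (u * (σ' * c)) n) =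
        cnt K N (Ideal.span {(f : 𝓞 K)}) artK (σ' * c * u) n :=
      cnt_congr K N _ artK (fun x hx => hcen (σ' * c) x hx) n
    rw [← h3]
    exact_mod_cast h2.symm
  have hHN : H ≤ N := fun x hx => ((hH x).1 hx).1
  have hHc : Fixes H c := fun x hx => (im_iff hc x).1 ((hH x).1 hx).2
  have hNc : ¬ Fixes N c := fun h => hck (h.mono hC.k_le)
  have pH := fun τ => cnt_pair (F := K) (𝔪 := Ideal.span {(f : 𝓞 K)}) (art := artK) hHN hHc hNc
    (fun t ht => fix_H hc hcc hH ht) τ n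
  -- in terms of `σ'`
  have e1 : cnt K H (Ideal.span {(f : 𝓞 K)}) artK σ n =
      cnt K N (Ideal.span {(f : 𝓞 K)}) artK σ' n +
        cnt K N (Ideal.span {(f : 𝓞 K)}) artK (σ' * c) n := by
    rw [pH]
    rcases hσσ with rfl | rfl
    · rfl
    · rw [mul_assoc σ c c, hcc, mul_one, add_comm]
  have e2 : cnt K H (Ideal.span {(f : 𝓞 K)}) artK (σ * u) n =
      cnt K N (Ideal.span {(f : 𝓞 K)}) artK (σ' * u) n +
        cnt K N (Ideal.span {(f : 𝓞 K)}) artK (σ' * c * u) n := by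
    rw [pH]
    have h1 : cnt K N (Ideal.span {(f : 𝓞 K)}) artK (σ * u * c) n =
        cnt K N (Ideal.span {(f : 𝓞 K)}) artK (σ * c * u) n :=
      cnt_congr K N _ artK (fun x hx => by
        show σ (u (c x)) = σ (c (u x))
        rw [hcen c x hx]) n
    rw [h1]
    rcases hσσ with rfl | rfl
    · rfl
    · rw [mul_assoc σ c c, hcc, mul_one, add_comm]
  have hLH : L₀ ≤ H := fun x hx => by
    rw [hL] at hx
    rw [hH, im_iff hc]
    exact ⟨hx.1, hx.2.1⟩
  have e3 : ((cnt K H (Ideal.span {(f : 𝓞 K)}) artK σ n : ℤ) +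
      cnt K H (Ideal.span {(f : 𝓞 K)}) artK (σ * u) n) =
      (if Fixes N u then 2 else 1) * cnt K L₀ (Ideal.span {(f : 𝓞 K)}) artK σ n := by
    split_ifs with hNu
    · have h1 : L₀ = H := by
        refine le_antisymm hLH fun x hx => ?_
        have h2 := (hH x).1 hx
        exact (hL x).2 ⟨h2.1, hHc x hx, hNu x h2.1⟩
      rw [h1, cnt_congr K H (Ideal.span {(f : 𝓞 K)}) artK (g := σ * u) (g' := σ) (fun x hx => by
        rw [AlgEquiv.mul_apply, hNu x (hHN hx)]) n]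
      ring
    · have hHu : ¬ Fixes H u := by
        intro h
        rcases fix_H hc hcc hH h with h1 | h1
        · exact hNu h1
        · apply hck
          intro x hx
          rw [← h1 x (hC.k_le hx)]
          exact huk x hx
      have hLu : Fixes L₀ u := fun x hx => ((hL x).1 hx).2.2
      rw [cnt_pair (F := K) (𝔪 := Ideal.span {(f : 𝓞 K)}) (art := artK) hLH hLu hHu
        (fun t ht => fix_L hc hcc huu (hcen c · · |>.symm) hH hL ht) σ n]
      push_cast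
      ring
  rw [← e3, e1, e2, ← hcmp, z1]
  push_cast
  ring

end

end Pool.Agent.J4.H48.RQ
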