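import Pool.Agent.J4.H48.RQ.Main

/-! The normal closure of a field which is abelian over two quadratic fields. -/

set_option autoImplicit false
set_option linter.style.haveILetI false

namespace Pool.Agent.J4.H48.RQ
open NumberField Module IntermediateField Pool.Agent.K4H33.SK
open scoped commutatorElement

/-- The maximal abelian extension. -/
noncomputable def Ab (F : IntermediateField ℚ Qbar) : IntermediateField ℚ Qbar :=
  fixedField ⁅F.fixingSubgroup, F.fixingSubgroup⁆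

lemma mem_Ab {F : IntermediateField ℚ Qbar} {x : Qbar} :
    x ∈ Ab F ↔ ∀ σ τ : GQ, Fixes F σ → Fixes F τ → σ (τ x) = τ (σ x) := by
  unfold Ab
  rw [mem_fixedField_iff]
  constructor
  · intro h σ τ hσ hτ
    have h1 := h ⁅τ⁻¹, σ⁻¹⁆
      (Subgroup.commutator_mem_commutator (fixes_iff.1 hτ.inv) (fixes_iff.1 hσ.inv))
    rw [commutatorElement_def, inv_inv, inv_inv] at h1
    have h2 : (σ * τ) ((τ⁻¹ * σ⁻¹ * τ * σ) x) = (σ * τ) x := by rw [h1]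
    have h3 : (σ * τ) * (τ⁻¹ * σ⁻¹ * τ * σ) = τ * σ := by group
    rw [← AlgEquiv.mul_apply, h3] at h2
    exact h2.symm
  · intro h
    have h1 : ⁅F.fixingSubgroup, F.fixingSubgroup⁆ ≤ MulAction.stabilizer GQ x := by
      rw [Subgroup.commutator_le]
      intro σ hσ τ hτ
      have h2 := h σ⁻¹ τ⁻¹ (fixes_iff.2 hσ).inv (fixes_iff.2 hτ).inv
      show ⁅σ, τ⁆ x = x
      have h3 : ⁅σ, τ⁆ x = (σ * τ) (σ⁻¹ (τ⁻¹ x)) := rfl
      rw [h3, h2]
      show (σ * τ * (τ⁻¹ * σ⁻¹)) x = x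
      have h4 : σ * τ * (τ⁻¹ * σ⁻¹) = 1 := by group
      rw [h4, AlgEquiv.one_apply]
    intro g hg
    exact h1 hg

lemma Ab_normal {F : IntermediateField ℚ Qbar} (hF : Normal ℚ F) : Normal ℚ (Ab F) := by
  rw [normal_conv, normal_iff_forall_map_le']
  intro g y hy
  obtain ⟨x, hx, rfl⟩ := hy
  have hx' : x ∈ Ab F := hx
  show g x ∈ Ab F
  rw [mem_Ab] at hx' ⊢
  intro σ τ hσ hτ
  have h := hx' (g⁻¹ * σ * g) (g⁻¹ * τ * g) (hσ.conj' hF g) (hτ.conj' hF g)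
  have h1 : σ (τ (g x)) = g ((g⁻¹ * σ * g) ((g⁻¹ * τ * g) x)) := by
    have h2 : g * ((g⁻¹ * σ * g) * (g⁻¹ * τ * g)) = σ * τ * g := by group
    show (σ * τ * g) x = (g * ((g⁻¹ * σ * g) * (g⁻¹ * τ * g))) x
    rw [h2]
  have h1' : τ (σ (g x)) = g ((g⁻¹ * τ * g) ((g⁻¹ * σ * g) x)) := by
    have h2 : g * ((g⁻¹ * τ * g) * (g⁻¹ * σ * g)) = τ * σ * g := by group
    show (τ * σ * g) x = (g * ((g⁻¹ * τ * g) * (g⁻¹ * σ * g))) x
    rw [h2]
  rw [h1, h1', h]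

lemma quad_comm {k : IntermediateField ℚ Qbar} (hk : finrank ℚ k = 2) (σ τ : GQ) :
    ∀ x ∈ k, σ (τ x) = τ (σ x) := by
  intro x hx
  have hn := quad_normal hk
  by_cases hσ : Fixes k σ
  · rw [hσ x hx, hσ _ (normal_mem hn τ hx)]
  · by_cases hτ : Fixes k τ
    · rw [hτ x hx, hτ _ (normal_mem hn σ hx)]
    · have h1 := quad hk hσ hτ x hx
      have h2 := quad hk hτ hσ x hx
      rw [AlgEquiv.mul_apply] at h1 h2
      rw [h1, h2]

/-- The normal closure inherits commutativity. -/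
lemma cls_of_closure {ι : Qbar →+* ℂ} {K k H N : IntermediateField ℚ Qbar}
    (hK : finrank ℚ K = 2) (hk : finrank ℚ k = 2) (himk : ∃ x ∈ k, (ι x).im ≠ 0) (hKH : K ≤ H)
    (hreal : ∀ x ∈ H, (ι x).im = 0)
    (hHK : ∀ σ τ : GQ, Fixes K σ → Fixes K τ → ∀ x ∈ H, σ (τ x) = τ (σ x))
    (hHk : ∀ σ τ : GQ, Fixes k σ → Fixes k τ → ∀ x ∈ H, σ (τ x) = τ (σ x))
    (hN : IsLeast {N' : IntermediateField ℚ Qbar | Normal ℚ N' ∧ H ⊔ k ≤ N'} N) :
    Cls ι K k N := by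
  have h1 : ∀ F : IntermediateField ℚ Qbar, finrank ℚ F = 2 →
      (∀ σ τ : GQ, Fixes F σ → Fixes F τ → ∀ x ∈ H, σ (τ x) = τ (σ x)) →
      ∀ σ τ : GQ, Fixes F σ → Fixes F τ → ∀ x ∈ N, σ (τ x) = τ (σ x) := by
    intro F hF hHF σ τ hσ hτ x hx
    have h2 : N ≤ Ab F := hN.2 ⟨Ab_normal (quad_normal hF), sup_le
      (fun x hx => mem_Ab.2 fun σ τ hσ hτ => hHF σ τ hσ hτ x hx)
      (fun x hx => mem_Ab.2 fun σ τ _ _ => quad_comm hk σ τ x hx)⟩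
    exact mem_Ab.1 (h2 hx) σ τ hσ hτ
  have hHN : H ⊔ k ≤ N := hN.1.2
  exact ⟨hK, hk, fun x hx => hreal x (hKH hx), himk, hN.1.1, hKH.trans (le_sup_left.trans hHN),
    le_sup_right.trans hHN, h1 K hK hHK, h1 k hk hHk⟩

end Pool.Agent.J4.H48.RQ
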