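import Pool.Agent.K4H33.SK.Stmt

/-! The statement layer: Stark units over real quadratic fields. -/

set_option autoImplicit false
set_option linter.style.haveILetI false

namespace Pool.Agent.J4.H48.RQ.Stmt
open NumberField Module IntermediateField
open Pool.Agent.K4H33.SK (Qbar GQ Fixes IsZeta AbelianRoot IsTorsionOrder)
open Pool.Agent.K4H33.SK.Stmt (Sub Ideals principal cnt IsArtin StarkImQuad PrimesOver)

/-- The automorphisms fixing `F` commute on `L`: the field `L` is contained in an abelian extension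
of `F`, and if `F ≤ L` this means that `L` is an abelian extension of `F`. -/
def AbelianOver (F L : Sub) : Prop :=
  ∀ σ τ : GQ, Fixes F σ → Fixes F τ → ∀ x ∈ L, σ (τ x) = τ (σ x)

/-- The prime numbers which do not divide `f` are unramified in `M`. -/
def UnramifiedOutside (M : Sub) (f : ℕ) : Prop :=
  ∀ p : ℕ, p.Prime → ¬ p ∣ f → ∀ Q : Ideals M, Q.IsPrime → (p : 𝓞 M) ∈ Q → (p : 𝓞 M) ∉ Q ^ 2

/-- The fields: `K` is a real quadratic field and `H` an abelian extension of `K`, real for the
embedding `ι`, which is contained in an abelian extension of the imaginary quadratic field `k`; and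
`N` is the normal closure of `H ⊔ k` over `ℚ`. -/
structure Fields (ι : Qbar →+* ℂ) (K k H N : Sub) : Prop where
  deg_K : finrank ℚ K = 2
  deg_k : finrank ℚ k = 2
  imaginary_k : ∃ x ∈ k, (ι x).im ≠ 0
  K_le : K ≤ H
  real_H : ∀ x ∈ H, (ι x).im = 0
  abelian_K : AbelianOver K H
  abelian_k : AbelianOver k H
  closure : IsLeast {N' : Sub | Normal ℚ N' ∧ H ⊔ k ≤ N'} N

/-- The level: `f` is divisible by all prime numbers which ramify in `N`, and the largest subfield of
`N` which is abelian over `ℚ` (the elements on which all automorphisms of `Qbar` commute) is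
contained in the `f`-th cyclotomic field. -/
structure Level (N : Sub) (f : ℕ) (ζ : Qbar) : Prop where
  two_le : 2 ≤ f
  prim : IsPrimitiveRoot ζ f
  unram : UnramifiedOutside (N ⊔ ℚ⟮ζ⟯) f
  abelian : ∀ x ∈ N, (∀ σ τ : GQ, σ (τ x) = τ (σ x)) → x ∈ ℚ⟮ζ⟯

/-- The Artin symbols of `K` and of `k`, for `N ⊔ ℚ(ζ)` and ideals prime to `f`. -/
structure Symbols (K k N : Sub) [NumberField K] [NumberField k] (f : ℕ) (ζ : Qbar)
    (art : Ideals k → GQ) (artK : Ideals K → GQ) : Prop where
  art_k : IsArtin k (N ⊔ ℚ⟮ζ⟯) (principal k f) art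
  art_K : IsArtin K (N ⊔ ℚ⟮ζ⟯) (principal K f) artK

/-- The limit formula at the real place given by `ι`: the Dirichlet series with coefficients `c σ`
continue to functions `Z σ` with `log |σ ε|_v = - W * (Z σ)'(0)`. -/
def LimitReal (ι : Qbar →+* ℂ) (F : Sub) (W : ℕ) (c : GQ → ℕ → ℕ) (Z : GQ → ℂ → ℂ)
    (ε : Qbar) : Prop :=
  ∀ σ : GQ, Fixes F σ → IsZeta (c σ) (Z σ) ∧ Z σ 0 = 0 ∧
    (Real.log ‖ι (σ ε)‖ : ℂ) = -(W : ℂ) * deriv (Z σ) 0

/-- The rank one abelian Stark conjecture, in Tate's refined form, for an abelian extension `H` of a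
number field `K`, the real place `v` of `K` given by `ι`, which splits completely in `H`, and the set
`S` of places consisting of the infinite places and the primes dividing `𝔣`: there is a unit `ε` of
`H`, of absolute value one at all infinite places which do not lie above `v`, satisfying the limit
formula for `S`, whose `W`-th roots generate an abelian extension of `K`, where `W` is the number
of roots of unity of `H`. -/
def StarkReal (ι : Qbar →+* ℂ) (K H : Sub) [NumberField K] (𝔣 : Ideals K)
    (art : Ideals K → GQ) (W : ℕ) : Prop :=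
  ∃ (Z : GQ → ℂ → ℂ) (ε : Qbar), ε ∈ H ∧ ε ≠ 0 ∧ LimitReal ι K W (cnt K H 𝔣 art) Z ε ∧
    IsIntegral ℤ ε ∧ IsIntegral ℤ ε⁻¹ ∧
    (∀ w : Qbar →+* ℂ, (∃ x ∈ K, w x ≠ ι x) → ‖w ε‖ = 1) ∧ AbelianRoot K W ε

end Pool.Agent.J4.H48.RQ.Stmt
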