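import Pool.Agent.J4.H48.RQ.Fin
import Pool.Agent.J4.H48.RQ.Closure
import Pool.Agent.J4.H48.RQ.Stmt

/-! Stark units over real quadratic fields: the general statement. -/

set_option autoImplicit false
set_option linter.style.haveILetI false

namespace Pool.Agent.J4.H48.RQ.Stmt
open NumberField Module IntermediateField
open Pool.Agent.K4H33.SK (Qbar GQ Fixes IsZeta AbelianRoot IsTorsionOrder)
open Pool.Agent.K4H33.SK.Stmt (Sub Ideals principal cnt IsArtin StarkImQuad PrimesOver)

theorem stark_real_general (ι : Qbar →+* ℂ) (K k H N : Sub) [NumberField K] [NumberField k]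
    [NumberField N] (hF : Fields ι K k H N) (f : ℕ) (ζ : Qbar) (hf : Level N f ζ)
    (art : Ideals k → GQ) (artK : Ideals K → GQ) (hart : Symbols K k N f ζ art artK) (W' : ℕ)
    (hW' : IsTorsionOrder N W') (hS : StarkImQuad ι k N (principal k f) art W') (𝔣 : Ideals K)
    (h𝔣 : PrimesOver K f 𝔣) : IsTorsionOrder H 2 ∧ StarkReal ι K H 𝔣 artK 2 := by
  refine ⟨torsion_two ι H hF.real_H, ?_⟩
  obtain ⟨c, hc⟩ := Pool.Agent.K4H33.SK.exists_conj ι
  obtain ⟨R, hR⟩ := exists_L N c 1
  have hR' : ∀ x, x ∈ R ↔ x ∈ N ∧ (ι x).im = 0 := fun x => by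
    rw [hR, im_iff hc]
    exact ⟨fun h => ⟨h.1, h.2.1⟩, fun h => ⟨h.1, h.2, rfl⟩⟩
  have hC : Cls ι K k N := cls_of_closure hF.deg_K hF.deg_k hF.imaginary_k hF.K_le hF.real_H
    hF.abelian_K hF.abelian_k hF.closure
  have hHN : H ≤ N := le_sup_left.trans hF.closure.1.2
  have h1 := stark_real ι K k N R hC f hf.two_le ζ hf.prim hf.unram hf.abelian hR' artK
    hart.art_K.down art hart.art_k.down W' hW'.1 hS
  have hRN : R ≤ N := fun x hx => ((hR' x).1 hx).1
  have hHR : H ≤ R := fun x hx => (hR' x).2 ⟨hHN hx, hF.real_H x hx⟩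
  haveI : NumberField R := by
    haveI : FiniteDimensional ℚ R := FiniteDimensional.of_injective
      (IntermediateField.inclusion hRN).toLinearMap (IntermediateField.inclusion hRN).injective
    exact ⟨⟩
  have h2 := starkReal_sub hF.K_le hHR h1
  exact starkReal_primesOver hart.art_K.down (hHN.trans le_sup_left) hF.K_le two_pos h2 𝔣
    h𝔣.1 h𝔣.2

end Pool.Agent.J4.H48.RQ.Stmt
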