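import Pool.Agent.J4.H48.RQ.Even

/-! The partial zeta functions of the real abelian part vanish to order two at zero. -/

set_option autoImplicit false
set_option linter.style.haveILetI false
set_option linter.unusedSectionVars false

namespace Pool.Agent.J4.H48.RQ
open NumberField Module IntermediateField Pool.Agent.K4H33.SK

section

variable {K M : IntermediateField ℚ Qbar} [NumberField K] [NumberField M] {f : ℕ} [NeZero f]
  {art : Ideal (𝓞 K) → GQ} {ζ : Qbar} (hζ : IsPrimitiveRoot ζ f)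

open Classical in
/-- The continuation of the partial zeta function of the class of `σ`. -/
noncomputable def EE (K L₀ : IntermediateField ℚ Qbar) (σ : GQ) (s : ℂ) : ℂ :=
  ∑ᶠ y : QQ hζ L₀, (zq (pp hζ L₀) (qq hζ L₀ σ * y⁻¹) s * zq (pp hζ L₀) y s) *
    (sgn (K := K) hζ y : ℂ)

variable {L₀ : IntermediateField ℚ Qbar}

lemma EE_eq [Fintype (QQ hζ L₀)] (σ : GQ) (s : ℂ) : EE hζ K L₀ σ s =
    ∑ y : QQ hζ L₀, (zq (pp hζ L₀) (qq hζ L₀ σ * y⁻¹) s * zq (pp hζ L₀) y s) *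
      (sgn (K := K) hζ y : ℂ) := finsum_eq_sum_of_fintype _

/-- The coefficients. -/
lemma EE_coeff [Fintype (QQ hζ L₀)] (hK : finrank ℚ K = 2) (hKL : K ≤ L₀) (hL : L₀ ≤ ℚ⟮ζ⟯)
    (hM : Normal ℚ M) (hU : Unram M f) (hKM : K ≤ M) (hζM : ζ ∈ M) (hf : 2 ≤ f)
    (hart : IsArtin K M (Ideal.span {(f : 𝓞 K)}) art) {σ : GQ} (hσ : Fixes K σ) {n : ℕ}
    (hn0 : n ≠ 0) :
    (cnt K L₀ (Ideal.span {(f : 𝓞 K)}) art σ n : ℂ) = ∑ y : QQ hζ L₀,
      (∑ i ∈ n.divisorsAntidiagonal, ind (pp hζ L₀) (qq hζ L₀ σ * y⁻¹) i.1 *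
        ind (pp hζ L₀) y i.2) * (sgn (K := K) hζ y : ℂ) := by
  classical
  have hsup : K ⊔ L₀ = L₀ := sup_eq_right.2 hKL
  have key : ∀ e d : ℕ, ∑ y : QQ hζ L₀, ind (pp hζ L₀) (qq hζ L₀ σ * y⁻¹) (e : ZMod f) *
      ind (pp hζ L₀) y (d : ZMod f) * (sgn (K := K) hζ y : ℂ) =
      ind (pp hζ L₀) (qq hζ L₀ σ) ((e * d : ℕ) : ZMod f) * (chi hζ K L₀ d : ℂ) := by
    intro e d
    by_cases hd : d.Coprime f
    · set u : (ZMod f)ˣ := ZMod.unitOfCoprime d hd with hu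
      have hu' : (d : ZMod f) = u := (ZMod.coe_unitOfCoprime d hd).symm
      have hchi : chi hζ K L₀ d = sgn (K := K) hζ (pp hζ L₀ u) := by
        unfold chi
        rw [dif_pos hd]
      by_cases he : e.Coprime f
      · set v : (ZMod f)ˣ := ZMod.unitOfCoprime e he with hv
        have hv' : (e : ZMod f) = v := (ZMod.coe_unitOfCoprime e he).symm
        rw [Finset.sum_eq_single (pp hζ L₀ u)]
        · have h2 : ((e * d : ℕ) : ZMod f) = ((v * u : (ZMod f)ˣ) : ZMod f) := by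
            rw [Nat.cast_mul, hu', hv', Units.val_mul]
          rw [h2, hu', hv', ind_unit, ind_unit, ind_unit, if_pos rfl, map_mul, hchi, mul_one]
          simp only [← eq_mul_inv_iff_mul_eq]
        · intro y _ hy2
          rw [hu', ind_unit _ y, if_neg (fun h => hy2 h.symm)]
          ring
        · intro h
          exact absurd (Finset.mem_univ _) h
      · have h1 : ∀ x, ind (pp hζ L₀) x (e : ZMod f) = 0 := fun x =>
          ind_not _ _ (fun h => he ((ZMod.isUnit_iff_coprime _ _).1 h))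
        have h2 : ∀ x, ind (pp hζ L₀) x ((e * d : ℕ) : ZMod f) = 0 := fun x =>
          ind_not _ _ (fun h => he (Nat.Coprime.coprime_dvd_left (Dvd.intro d rfl)
            ((ZMod.isUnit_iff_coprime _ _).1 h)))
        rw [h2, zero_mul]
        refine Finset.sum_eq_zero fun y _ => ?_
        rw [h1]
        ring
    · have h1 : ∀ x, ind (pp hζ L₀) x (d : ZMod f) = 0 := fun x =>
        ind_not _ _ (fun h => hd ((ZMod.isUnit_iff_coprime _ _).1 h))
      have h2 : chi hζ K L₀ d = 0 := by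
        unfold chi
        rw [dif_neg hd]
      rw [h2, Int.cast_zero, mul_zero]
      refine Finset.sum_eq_zero fun y _ => ?_
      rw [h1]
      ring
  simp only [Finset.sum_mul]
  rw [Finset.sum_comm]
  have h1 : ∑ i ∈ n.divisorsAntidiagonal, ∑ y : QQ hζ L₀,
      ind (pp hζ L₀) (qq hζ L₀ σ * y⁻¹) (i.1 : ZMod f) * ind (pp hζ L₀) y (i.2 : ZMod f) *
        (sgn (K := K) hζ y : ℂ) =
      ∑ i ∈ n.divisorsAntidiagonal, ind (pp hζ L₀) (qq hζ L₀ σ) (n : ZMod f) *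
        (chi hζ K L₀ i.2 : ℂ) := by
    refine Finset.sum_congr rfl fun i hi => ?_
    rw [Nat.mem_divisorsAntidiagonal] at hi
    rw [key, hi.1]
  rw [h1, ← Finset.mul_sum]
  have h2 := cnt_sup hart hf hζ hζM le_rfl hL K σ n
  rw [hsup] at h2
  rw [h2]
  by_cases hn : n.Coprime f
  · congr 1
    have h3 := cnt_ideals hζ hK hKL hL hM hU hKM hζM hart n hn0 hn
    have h4 : cnt K K (Ideal.span {(f : 𝓞 K)}) art σ n =
        cnt K K (Ideal.span {(f : 𝓞 K)}) art 1 n :=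
      cnt_congr K K _ art (g := σ) (g' := 1) (fun x hx => hσ x hx) n
    rw [h4, Nat.sum_divisorsAntidiagonal' (f := fun _ d => (chi hζ K L₀ d : ℂ))]
    exact_mod_cast h3
  · rw [ind_not _ _ (fun h => hn ((ZMod.isUnit_iff_coprime _ _).1 h)), zero_mul, zero_mul]

theorem EE_isZeta (hK : finrank ℚ K = 2) (hKL : K ≤ L₀) (hL : L₀ ≤ ℚ⟮ζ⟯)
    (hM : Normal ℚ M) (hU : Unram M f) (hKM : K ≤ M) (hζM : ζ ∈ M) (hf : 2 ≤ f)
    (hart : IsArtin K M (Ideal.span {(f : 𝓞 K)}) art) {σ : GQ} (hσ : Fixes K σ) :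
    IsZeta (cnt K L₀ (Ideal.span {(f : 𝓞 K)}) art σ) (EE hζ K L₀ σ) := by
  classical
  haveI : Fintype (QQ hζ L₀) := Fintype.ofFinite _
  constructor
  · have h : EE hζ K L₀ σ = fun s => ∑ y : QQ hζ L₀,
        (zq (pp hζ L₀) (qq hζ L₀ σ * y⁻¹) s * zq (pp hζ L₀) y s) * (sgn (K := K) hζ y : ℂ) :=
      funext fun s => EE_eq hζ σ s
    rw [h]
    refine DifferentiableOn.fun_sum fun y _ => ?_
    refine DifferentiableOn.mul_const ?_ _
    exact DifferentiableOn.mul (fun s hs => (zq_diff _ _ hs).differentiableWithinAt)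
      (fun s hs => (zq_diff _ _ hs).differentiableWithinAt)
  · intro s hs
    have h3 : ∀ y ∈ (Finset.univ : Finset (QQ hζ L₀)), LSeriesHasSum
        ((sgn (K := K) hζ y : ℂ) • LSeries.convolution
        (fun n : ℕ => ind (pp hζ L₀) (qq hζ L₀ σ * y⁻¹) (n : ZMod f))
        (fun n : ℕ => ind (pp hζ L₀) y (n : ZMod f))) s
        ((sgn (K := K) hζ y : ℂ) * (zq (pp hζ L₀) (qq hζ L₀ σ * y⁻¹) s * zq (pp hζ L₀) y s)) :=
      fun y _ => ((zq_hasSum _ _ hs).convolution (zq_hasSum _ _ hs)).smul _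
    have h4 := LSeriesHasSum.sum h3
    rw [EE_eq]
    simp only [mul_comm _ (sgn (K := K) hζ _ : ℂ)]
    refine (LSeriesHasSum_congr s _ (fun {n} hn => ?_)).1 h4
    rw [EE_coeff hζ hK hKL hL hM hU hKM hζM hf hart hσ hn, Finset.sum_apply]
    refine Finset.sum_congr rfl fun y _ => ?_
    rw [Pi.smul_apply, smul_eq_mul, LSeries.convolution_def, mul_comm]

lemma theta_zero {c : GQ} (hc : hζ.autToPow ℚ c = -1) (hcL : Fixes L₀ c) (hL : L₀ ≤ ℚ⟮ζ⟯)
    (hf : 2 ≤ f) (x : QQ hζ L₀) : theta (pp hζ L₀) x = 0 := by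
  have h1 : pp hζ L₀ (-1) = 1 := by
    rw [← hc, ← qq_apply, ← map_one (qq hζ L₀), qq_eq_iff hζ hL]
    exact hcL
  have h2 := theta_neg (pp hζ L₀) hf x
  rw [h1, one_mul] at h2
  linarith

theorem EE_zero {c : GQ} (hc : hζ.autToPow ℚ c = -1) (hcL : Fixes L₀ c) (hL : L₀ ≤ ℚ⟮ζ⟯)
    (hf : 2 ≤ f) (σ : GQ) : EE hζ K L₀ σ 0 = 0 ∧ deriv (EE hζ K L₀ σ) 0 = 0 := by
  classical
  haveI : Fintype (QQ hζ L₀) := Fintype.ofFinite _
  have h0 : ∀ x, zq (pp hζ L₀) x 0 = 0 := fun x => by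
    rw [zq_zero _ hf, theta_zero hζ hc hcL hL hf, Rat.cast_zero]
  have h : EE hζ K L₀ σ = fun s => ∑ y : QQ hζ L₀,
        (zq (pp hζ L₀) (qq hζ L₀ σ * y⁻¹) s * zq (pp hζ L₀) y s) * (sgn (K := K) hζ y : ℂ) :=
      funext fun s => EE_eq hζ σ s
  constructor
  · rw [EE_eq]
    refine Finset.sum_eq_zero fun y _ => ?_
    rw [h0, zero_mul, zero_mul]
  · rw [h]
    have h5 : HasDerivAt (fun s => ∑ y : QQ hζ L₀,
        (zq (pp hζ L₀) (qq hζ L₀ σ * y⁻¹) s * zq (pp hζ L₀) y s) * (sgn (K := K) hζ y : ℂ))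
        (∑ y : QQ hζ L₀, (deriv (zq (pp hζ L₀) (qq hζ L₀ σ * y⁻¹)) 0 * zq (pp hζ L₀) y 0 +
          zq (pp hζ L₀) (qq hζ L₀ σ * y⁻¹) 0 * deriv (zq (pp hζ L₀) y) 0) *
          (sgn (K := K) hζ y : ℂ)) 0 := by
      have h6 := HasDerivAt.fun_sum (u := (Finset.univ : Finset (QQ hζ L₀)))
        (A := fun y s => (zq (pp hζ L₀) (qq hζ L₀ σ * y⁻¹) s * zq (pp hζ L₀) y s) *
          (sgn (K := K) hζ y : ℂ)) (x := (0 : ℂ))
        (fun y _ => (((zq_diff (pp hζ L₀) (qq hζ L₀ σ * y⁻¹) (s := 0) (by simp)).hasDerivAt).mul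
          ((zq_diff (pp hζ L₀) y (s := 0) (by simp)).hasDerivAt)).mul_const _)
      exact h6
    rw [h5.deriv]
    refine Finset.sum_eq_zero fun y _ => ?_
    rw [h0, h0, mul_zero, zero_mul, add_zero, zero_mul]

end

end Pool.Agent.J4.H48.RQ
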