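import Pool.Agent.J4.H48.RQ.Conn

/-! The units. -/

set_option autoImplicit false
set_option linter.style.haveILetI false
set_option linter.unusedSectionVars false

namespace Pool.Agent.J4.H48.RQ
open NumberField Module IntermediateField Pool.Agent.K4H33.SK

/-- Automorphisms commute on roots of unity. -/
lemma root_comm {ξ : Qbar} {n : ℕ} (hn : 0 < n) (hξ : ξ ^ n = 1) (σ τ : GQ) :
    σ (τ ξ) = τ (σ ξ) := by
  obtain ⟨i, -, hi⟩ := exists_pow hn σ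
  obtain ⟨j, -, hj⟩ := exists_pow hn τ
  rw [hi ξ hξ, hj ξ hξ, map_pow, map_pow, hi ξ hξ, hj ξ hξ, ← pow_mul, ← pow_mul, mul_comm]

lemma root_commutator {ξ : Qbar} {n : ℕ} (hn : 0 < n) (hξ : ξ ^ n = 1) (c b : GQ) :
    (c * b * c⁻¹ * b⁻¹) ξ = ξ := by
  have h1 : c⁻¹ (b⁻¹ ξ) = b⁻¹ (c⁻¹ ξ) := root_comm hn hξ c⁻¹ b⁻¹
  have h2 : (c * b * c⁻¹ * b⁻¹) ξ = c (b (c⁻¹ (b⁻¹ ξ))) := rfl
  rw [h2, h1]
  have h3 : c (b (b⁻¹ (c⁻¹ ξ))) = (c * (b * b⁻¹) * c⁻¹) ξ := rfl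
  rw [h3, mul_inv_cancel, mul_one, mul_inv_cancel, AlgEquiv.one_apply]

lemma norm_pos' (ι : Qbar →+* ℂ) {x : Qbar} (hx : x ≠ 0) : 0 < ‖ι x‖ := by
  rw [norm_pos_iff, Ne, map_eq_zero]
  exact hx

lemma ne_zero_ap {x : Qbar} (hx : x ≠ 0) (g : GQ) : g x ≠ 0 := by simpa using hx

lemma norm_conj {ι : Qbar →+* ℂ} {c : GQ} (hc : ∀ x, ι (c x) = (starRingEnd ℂ) (ι x)) (x : Qbar) :
    ‖ι (c x)‖ = ‖ι x‖ := by
  rw [hc, Complex.norm_conj]

/-- The unit `κ = λ / u λ`, where `λ` is a `W`-th root of `ε`. -/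
lemma exists_kappa_u {ι : Qbar →+* ℂ} {k L : IntermediateField ℚ Qbar}
    (hkL : k ≤ L) {W : ℕ} (hW : 0 < W) {C : GQ → ℕ → ℕ}
    {Z : GQ → ℂ → ℂ} {ε : Qbar} (hε : ε ∈ L) (hε0 : ε ≠ 0) (hlim : LimitFormula ι k W C Z ε)
    (hint : ∀ σ : GQ, Fixes k σ → IsIntegral ℤ (σ ε / ε)) (hab : AbelianRoot k W ε) {u : GQ}
    (huk : Fixes k u) (hroot : ∀ ξ : Qbar, ξ ^ W = 1 → u ξ = ξ) :
    ∃ κ : Qbar, κ ∈ L ∧ κ ≠ 0 ∧ IsIntegral ℤ κ ∧ IsIntegral ℤ κ⁻¹ ∧
      ∀ g : GQ, Fixes k g → Real.log (‖ι (g κ)‖ ^ 2) =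
        -((deriv (Z g) 0).re - (deriv (Z (g * u)) 0).re) := by
  obtain ⟨lam, hlam⟩ := IsAlgClosed.exists_pow_nat_eq ε hW
  have hlam0 : lam ≠ 0 := by
    rintro rfl
    rw [zero_pow hW.ne'] at hlam
    exact hε0 hlam.symm
  set κ : Qbar := lam / u lam with hκ
  have hal0 : u lam ≠ 0 := by simpa using hlam0
  have hκ0 : κ ≠ 0 := div_ne_zero hlam0 hal0
  have hκW : κ ^ W = ε / u ε := by rw [hκ, div_pow, ← map_pow, hlam]
  -- membership
  have hκL : κ ∈ L := by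
    apply mem_of_fixed
    intro σ hσ
    have hσk : Fixes k σ := hσ.mono hkL
    set ξ : Qbar := σ lam / lam with hξ
    have hξW : ξ ^ W = 1 := by
      rw [hξ, div_pow, ← map_pow, hlam, hσ ε hε, div_self hε0]
    have h1 : σ lam = ξ * lam := by rw [hξ, div_mul_cancel₀ _ hlam0]
    have h2 : σ (u lam) = ξ * u lam := by
      rw [hab lam hlam σ u hσk huk, h1, map_mul, hroot ξ hξW]
    have hξ0 : ξ ≠ 0 := by
      rintro h
      rw [h, zero_pow hW.ne'] at hξW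
      exact zero_ne_one hξW
    rw [hκ, map_div₀, h1, h2, mul_div_mul_left _ _ hξ0]
  -- integrality
  have huε0 : u ε ≠ 0 := by simpa using hε0
  have hκi : IsIntegral ℤ κ := by
    refine IsIntegral.of_pow hW ?_
    rw [hκW]
    have h1 : ε / u ε = u (u⁻¹ ε / ε) := by
      rw [map_div₀]
      congr 1
      rw [← AlgEquiv.mul_apply, mul_inv_cancel, AlgEquiv.one_apply]
    rw [h1]
    exact (hint u⁻¹ huk.inv).map ((u : GQ) : Qbar →+* Qbar).toIntAlgHom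
  have hκi' : IsIntegral ℤ κ⁻¹ := by
    refine IsIntegral.of_pow hW ?_
    rw [inv_pow, hκW, inv_div]
    exact hint u huk
  -- the logarithms
  refine ⟨κ, hκL, hκ0, hκi, hκi', fun g hg => ?_⟩
  have h1 := (hlim g hg).2.2
  have h2 := (hlim (g * u) (hg.mul huk)).2.2
  have hn1 : ‖ι (g ε)‖ ^ 2 ≠ 0 := (pow_pos (norm_pos' ι (ne_zero_ap hε0 g)) 2).ne'
  have hn2 : ‖ι ((g * u) ε)‖ ^ 2 ≠ 0 := (pow_pos (norm_pos' ι (ne_zero_ap hε0 _)) 2).ne'
  have h3 : (W : ℝ) * Real.log (‖ι (g κ)‖ ^ 2) =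
      Real.log (‖ι (g ε)‖ ^ 2) - Real.log (‖ι ((g * u) ε)‖ ^ 2) := by
    rw [← Real.log_pow, ← Real.log_div hn1 hn2, ← pow_mul, mul_comm 2 W, pow_mul, ← norm_pow,
      ← map_pow, ← map_pow, hκW, map_div₀, map_div₀, norm_div, div_pow]
    rfl
  have h1' := congrArg Complex.re h1
  have h2' := congrArg Complex.re h2
  rw [Complex.ofReal_re] at h1' h2'
  have e : ∀ z : ℂ, (-(W : ℂ) * z).re = -(W : ℝ) * z.re := by
    intro z
    simp [Complex.mul_re]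
  rw [e] at h1' h2'
  have hW' : (W : ℝ) ≠ 0 := Nat.cast_ne_zero.2 hW.ne'
  apply mul_left_cancel₀ hW'
  rw [h3, h1', h2']
  ring

/-- An embedding of `N` extends. -/
lemma exists_ext (ι : Qbar →+* ℂ) {N : IntermediateField ℚ Qbar} (φ : N →+* ℂ) :
    ∃ g : GQ, ∀ x : N, φ x = ι (g x) := by
  letI : Algebra N ℂ := φ.toAlgebra
  haveI : Algebra.IsAlgebraic N Qbar := Algebra.IsAlgebraic.tower_top (K := ℚ) N
  let w : Qbar →ₐ[N] ℂ := IsAlgClosed.lift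
  obtain ⟨σ, hσ⟩ := exists_lift ι w.toRingHom
  refine ⟨σ, fun x => ?_⟩
  rw [← hσ]
  exact (w.commutes x).symm

/-- Kronecker's theorem. -/
lemma root_of_unity (ι : Qbar →+* ℂ) {N : IntermediateField ℚ Qbar} [NumberField N] {x : Qbar}
    (hx : x ∈ N) (hi : IsIntegral ℤ x) (h : ∀ g : GQ, ‖ι (g x)‖ = 1) : ∃ m : ℕ, 0 < m ∧ x ^ m = 1 := by
  have h1 : IsIntegral ℤ (⟨x, hx⟩ : N) := by
    have h2 : IsIntegral ℤ (algebraMap N Qbar ⟨x, hx⟩) := hi
    exact (isIntegral_algebraMap_iff (algebraMap N Qbar).injective).1 h2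
  obtain ⟨m, hm, h2⟩ := NumberField.Embeddings.pow_eq_one_of_norm_eq_one N ℂ h1 (fun φ => by
    obtain ⟨g, hg⟩ := exists_ext ι φ
    rw [hg]
    exact h g)
  exact ⟨m, hm, congrArg Subtype.val h2⟩

section

variable {ι : Qbar →+* ℂ} {K k N : IntermediateField ℚ Qbar} [NumberField N]

/-- The unit `η = κ c(κ)`. -/
theorem exists_eta (hC : Cls ι K k N) {c b u : GQ}
    (hc : ∀ x, ι (c x) = (starRingEnd ℂ) (ι x)) (hbk : Fixes k b) (hbK : ¬ Fixes K b)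
    (hu : u = c * b * c⁻¹ * b⁻¹) {W : ℕ} (hW : 0 < W) {C : GQ → ℕ → ℕ} {Z : GQ → ℂ → ℂ} {ε : Qbar}
    (hε : ε ∈ N) (hε0 : ε ≠ 0) (hlim : LimitFormula ι k W C Z ε)
    (hint : ∀ σ : GQ, Fixes k σ → IsIntegral ℤ (σ ε / ε)) (hab : AbelianRoot k W ε)
    (hcong : ∀ g g' : GQ, (∀ x ∈ N, g x = g' x) → ∀ n, C g n = C g' n)
    (hconj : ∀ g y : GQ, ∀ n, n ≠ 0 → C (y * g * y⁻¹) n = C g n) :
    ∃ η : Qbar, η ∈ N ∧ c η = η ∧ η ≠ 0 ∧ IsIntegral ℤ η ∧ IsIntegral ℤ η⁻¹ ∧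
      (∀ g : GQ, Fixes K g → Fixes k g → Real.log ‖ι (g η)‖ =
        -((deriv (Z g) 0).re - (deriv (Z (g * u)) 0).re)) ∧
      (∀ g : GQ, ¬ Fixes K g → ‖ι (g η)‖ = 1) ∧ AbelianRoot K 2 η := by
  haveI := hC.normal
  obtain ⟨hcK, hck, hcc⟩ := hC.conj_data hc
  have hT := hC.two hc hbk hbK
  have hu' : rr N u = rr N c * rr N b * (rr N c)⁻¹ * (rr N b)⁻¹ := by
    rw [hu, map_mul, map_mul, map_mul, map_inv, map_inv]
  obtain ⟨huA, huB⟩ := hT.u_mem hu'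
  have huK : Fixes K u := (mem_sg hC.K_le).1 huA
  have huk : Fixes k u := (mem_sg hC.k_le).1 huB
  have hroot : ∀ ξ : Qbar, ξ ^ W = 1 → u ξ = ξ := fun ξ hξ => by
    rw [hu]
    exact root_commutator hW hξ c b
  obtain ⟨κ, hκN, hκ0, hκi, hκi', hlog⟩ :=
    exists_kappa_u hC.k_le hW hε hε0 hlim hint hab huk hroot
  have hkn := quad_normal hC.deg_k
  have hcinv : c⁻¹ = c := inv_eq_of_mul_eq_one_left hcc
  -- derivatives of conjugate classes
  have hD : ∀ g g' : GQ, Fixes k g → Fixes k g' → (∀ n, n ≠ 0 → C g n = C g' n) →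
      (deriv (Z g) 0).re = (deriv (Z g') 0).re := by
    intro g g' hg hg' h
    rw [(isZeta_deriv (hlim g hg).1 (hlim g' hg').1 h).1]
  have huu : ∀ x ∈ N, (u * u) x = x := by
    have h1 : rr N (u * u) = rr N 1 := by rw [map_mul, hT.uu hu', map_one]
    exact rr_eq.1 h1
  have hucen : ∀ g : GQ, ∀ x ∈ N, (u * g) x = (g * u) x := by
    intro g
    rw [← rr_eq, map_mul, map_mul]
    exact hT.cen huA huB _
  have eqlog : ∀ x y : Qbar, x ≠ 0 → y ≠ 0 → Real.log (‖ι x‖ ^ 2) = Real.log (‖ι y‖ ^ 2) →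
      ‖ι x‖ = ‖ι y‖ := by
    intro x y hx hy h
    have h1 := Real.log_injOn_pos (Set.mem_Ioi.2 (pow_pos (norm_pos' ι hx) 2))
      (Set.mem_Ioi.2 (pow_pos (norm_pos' ι hy) 2)) h
    exact (pow_left_inj₀ (norm_nonneg _) (norm_nonneg _) two_ne_zero).1 h1
  -- the conjugate of `κ` has the same absolute values
  have hnc : ∀ g : GQ, Fixes k g → ‖ι (g (c κ))‖ = ‖ι (g κ)‖ := by
    intro g hg
    have hg' : Fixes k (c⁻¹ * g * c) := hg.conj' hkn c
    have h1 : g (c κ) = c ((c⁻¹ * g * c) κ) := by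
      rw [← AlgEquiv.mul_apply c]
      have : c * (c⁻¹ * g * c) = g * c := by group
      rw [this]
      rfl
    rw [h1, norm_conj hc]
    refine eqlog _ _ (ne_zero_ap hκ0 _) (ne_zero_ap hκ0 _) ?_
    rw [hlog _ hg', hlog _ hg]
    have e1 : (deriv (Z (c⁻¹ * g * c)) 0).re = (deriv (Z g) 0).re := by
      refine hD _ _ hg' hg fun n hn => ?_
      have := hconj g c⁻¹ n hn
      rwa [inv_inv] at this
    have e2 : (deriv (Z (c⁻¹ * g * c * u)) 0).re = (deriv (Z (g * u)) 0).re := by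
      refine hD _ _ (hg'.mul huk) (hg.mul huk) fun n hn => ?_
      have h2 := hconj (g * u) c⁻¹ n hn
      rw [inv_inv] at h2
      rw [← h2]
      refine hcong _ _ (fun x hx => ?_) n
      have h3 := hucen c x hx
      have h4 : (c⁻¹ * g * c * u) x = (c⁻¹ * g) ((c * u) x) := rfl
      have h5 : (c⁻¹ * (g * u) * c) x = (c⁻¹ * g) ((u * c) x) := rfl
      rw [h4, h5, h3]
    rw [e1, e2]
  -- absolute value one
  have hone : ∀ g : GQ, Fixes k g → ¬ Fixes K g → ‖ι (g κ)‖ = 1 := by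
    intro g hgk hgK
    have e1 : (deriv (Z (g * u)) 0).re = (deriv (Z g) 0).re := by
      refine hD _ _ (hgk.mul huk) hgk fun n hn => ?_
      rw [← hconj g c n hn]
      refine hcong _ _ (fun x hx => ?_) n
      have h1 : rr N (g * u) = rr N (c * g * c⁻¹) := by
        have h2 := hT.conjB hu' (x := rr N g) (y := rr N c) ((mem_sg hC.k_le).2 hgk)
          (fun h => hgK ((mem_sg hC.K_le).1 h)) (fun h => hck ((mem_sg hC.k_le).1 h))
        rw [map_mul, map_mul, map_mul, map_inv, h2]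
        exact (hT.cen huA huB _).symm
      exact rr_eq.1 h1 x hx
    have h2 := hlog g hgk
    rw [e1, sub_self, neg_zero] at h2
    have h3 := norm_pos' ι (ne_zero_ap hκ0 g)
    have h4 : ‖ι (g κ)‖ ^ 2 = 1 := by
      have h5 : Real.log (‖ι (g κ)‖ ^ 2) = Real.log 1 := by rw [h2, Real.log_one]
      exact Real.log_injOn_pos (Set.mem_Ioi.2 (pow_pos h3 2)) (Set.mem_Ioi.2 one_pos) h5
    exact (pow_eq_one_iff_of_nonneg h3.le two_ne_zero).1 h4
  -- a root of unity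
  have hcκ0 : c κ ≠ 0 := ne_zero_ap hκ0 c
  have hcκi : IsIntegral ℤ (c κ) := hκi.map ((c : GQ) : Qbar →+* Qbar).toIntAlgHom
  have hcκi' : IsIntegral ℤ (c κ)⁻¹ := by
    rw [← map_inv₀]
    exact hκi'.map ((c : GQ) : Qbar →+* Qbar).toIntAlgHom
  have hcκN : c κ ∈ N := normal_mem hC.normal c hκN
  obtain ⟨m, hm, hξm⟩ := root_of_unity ι (N := N) (x := c κ / κ) (div_mem hcκN hκN)
    (by rw [div_eq_mul_inv]; exact hcκi.mul hκi') (fun g => by
      by_cases hg : Fixes k g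
      · rw [map_div₀, map_div₀, norm_div, hnc g hg]
        exact div_self (norm_pos' ι (ne_zero_ap hκ0 g)).ne'
      · have h1 : Fixes k (c⁻¹ * g) := by
          rw [hcinv]
          exact quad hC.deg_k hck hg
        have h2 : ∀ x, ι (g x) = (starRingEnd ℂ) (ι ((c⁻¹ * g) x)) := by
          intro x
          rw [← hc, ← AlgEquiv.mul_apply c, mul_inv_cancel_left]
        rw [h2, Complex.norm_conj, map_div₀, map_div₀, norm_div, hnc _ h1]
        exact div_self (norm_pos' ι (ne_zero_ap hκ0 _)).ne')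
  set ξ : Qbar := c κ / κ with hξ
  have hcκ : c κ = ξ * κ := by rw [hξ, div_mul_cancel₀ _ hκ0]
  refine ⟨κ * c κ, mul_mem hκN hcκN, ?_, mul_ne_zero hκ0 hcκ0, hκi.mul hcκi, ?_, ?_, ?_, ?_⟩
  · rw [map_mul, ← AlgEquiv.mul_apply c c, hcc, AlgEquiv.one_apply, mul_comm]
  · rw [mul_inv]
    exact hκi'.mul hcκi'
  · intro g _ hgk
    rw [map_mul, map_mul, norm_mul, hnc g hgk, ← pow_two]
    exact hlog g hgk
  · have key : ∀ g : GQ, Fixes k g → ¬ Fixes K g → ‖ι (g (κ * c κ))‖ = 1 := by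
      intro g hgk hgK
      rw [map_mul, map_mul, norm_mul, hnc g hgk, hone g hgk hgK, one_mul]
    intro g hgK
    by_cases hgk : Fixes k g
    · exact key g hgk hgK
    · have h1 : Fixes k (c⁻¹ * g) := by
        rw [hcinv]
        exact quad hC.deg_k hck hgk
      have h2 : ¬ Fixes K (c⁻¹ * g) := by
        intro h
        have h3 := hcK.mul h
        rw [mul_inv_cancel_left] at h3
        exact hgK h3
      have h3 : ι (g (κ * c κ)) = (starRingEnd ℂ) (ι ((c⁻¹ * g) (κ * c κ))) := by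
        rw [← hc, ← AlgEquiv.mul_apply c, mul_inv_cancel_left]
      rw [h3, Complex.norm_conj]
      exact key _ h1 h2
  · intro lam hlam σ τ hσ hτ
    have h1 : (lam / κ) ^ (2 * m) = 1 := by
      rw [pow_mul, div_pow, hlam, hcκ]
      have h2 : κ * (ξ * κ) / κ ^ 2 = ξ := by field_simp
      rw [h2, hξm]
    have h2 : lam = (lam / κ) * κ := by rw [div_mul_cancel₀ _ hκ0]
    have h3 := root_comm (by positivity) h1 σ τ
    rw [h2, map_mul, map_mul, map_mul, map_mul, h3, hC.ab_K σ τ hσ hτ κ hκN]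

end

end Pool.Agent.J4.H48.RQ
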