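import Pool.Agent.J4.H48.RQ.Conn

/-! The partial zeta functions of the real abelian part. -/

set_option autoImplicit false
set_option linter.style.haveILetI false
set_option linter.unusedSectionVars false

namespace Pool.Agent.J4.H48.RQ
open NumberField Module IntermediateField Pool.Agent.K4H33.SK

/-- A Frobenius automorphism acts on the roots of unity by the `p`-th power. -/
lemma fr_zeta {M : IntermediateField ℚ Qbar} {𝔓 : Ideal (𝓞 Qbar)} {p f : ℕ} {g : GQ}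
    (hp : p.Prime) (hpf : ¬ p ∣ f) (h𝔓 : 𝔓.IsPrime) (h𝔓p : (p : 𝓞 Qbar) ∈ 𝔓) (hg : Fr M 𝔓 p g)
    {ζ : Qbar} (hf : 0 < f) (hζ : IsPrimitiveRoot ζ f) (hζM : ζ ∈ M) : g ζ = ζ ^ p := by
  have hint : IsIntegral ℤ ζ := hζ.isIntegral hf
  let z : 𝓞 Qbar := ⟨ζ, hint⟩
  have h1 := hg z (ap g z) hζM rfl
  by_contra hne
  have hz : z ^ f = 1 := by
    apply RingOfIntegers.ext
    show ζ ^ f = 1
    exact hζ.pow_eq_one
  have hy : (ap g z) ^ f = 1 := by
    apply RingOfIntegers.ext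
    show (g ζ) ^ f = 1
    rw [← map_pow, hζ.pow_eq_one, map_one]
  have h2 : (f : 𝓞 Qbar) ∈ 𝔓 := by
    refine mem_of_roots hf hy (z := z ^ p) ?_ ?_ h1
    · rw [← pow_mul, mul_comm, pow_mul, hz, one_pow]
    · intro h
      apply hne
      exact congrArg (fun t : 𝓞 Qbar => (t : Qbar)) h
  apply h𝔓.ne_top
  rw [Ideal.eq_top_iff_one]
  obtain ⟨u, v, huv⟩ := Nat.isCoprime_iff_coprime.2 ((Nat.Prime.coprime_iff_not_dvd hp).2 hpf)
  have h3 : ((u * (p : ℤ) + v * (f : ℤ) : ℤ) : 𝓞 Qbar) = 1 := by rw [huv, Int.cast_one]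
  rw [← h3]
  push_cast
  exact 𝔓.add_mem (𝔓.mul_mem_left _ h𝔓p) (𝔓.mul_mem_left _ h2)

/-- Sums over divisors. -/
lemma sum_divisors_prime {n p : ℕ} (hp : p.Prime) (hn : n ≠ 0) (hpn : p ∣ n) (χ : ℕ → ℤ) :
    ∑ d ∈ n.divisors, χ d = ∑ d ∈ (n / p).divisors, χ d + ∑ d ∈ (n / p).divisors, χ (p * d) -
      if p ∣ n / p then ∑ d ∈ (n / p / p).divisors, χ (p * d) else 0 := by
  classical
  obtain ⟨m, rfl⟩ := hpn
  rw [Nat.mul_div_cancel_left _ hp.pos]
  have hm : m ≠ 0 := fun h => hn (by rw [h, mul_zero])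
  set s := m.divisors with hs
  set t := m.divisors.image (fun d => p * d) with ht
  have hinj : Function.Injective (fun d : ℕ => p * d) := fun a b h =>
    Nat.eq_of_mul_eq_mul_left hp.pos h
  have h1 : (p * m).divisors = s ∪ t := by
    ext d
    simp only [hs, ht, Finset.mem_union, Finset.mem_image, Nat.mem_divisors]
    constructor
    · rintro ⟨h1, -⟩
      by_cases hd : p ∣ d
      · obtain ⟨e, rfl⟩ := hd
        right
        exact ⟨e, ⟨(Nat.mul_dvd_mul_iff_left hp.pos).1 h1, hm⟩, rfl⟩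
      · left
        exact ⟨((Nat.Prime.coprime_iff_not_dvd hp).2 hd).symm.dvd_of_dvd_mul_left h1, hm⟩
    · rintro (⟨h1, -⟩ | ⟨e, ⟨h1, -⟩, rfl⟩)
      · exact ⟨h1.mul_left p, hn⟩
      · exact ⟨Nat.mul_dvd_mul_left p h1, hn⟩
  have h2 : ∑ d ∈ s ∩ t, χ d = if p ∣ m then ∑ d ∈ (m / p).divisors, χ (p * d) else 0 := by
    split_ifs with h
    · obtain ⟨r, rfl⟩ := h
      rw [Nat.mul_div_cancel_left _ hp.pos]
      have hr : r ≠ 0 := fun h => hm (by rw [h, mul_zero])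
      have h3 : s ∩ t = r.divisors.image (fun d => p * d) := by
        ext d
        simp only [hs, ht, Finset.mem_inter, Finset.mem_image, Nat.mem_divisors]
        constructor
        · rintro ⟨⟨h4, -⟩, ⟨e, ⟨h5, -⟩, rfl⟩⟩
          exact ⟨e, ⟨(Nat.mul_dvd_mul_iff_left hp.pos).1 h4, hr⟩, rfl⟩
        · rintro ⟨e, ⟨h5, -⟩, rfl⟩
          exact ⟨⟨Nat.mul_dvd_mul_left p h5, hm⟩, ⟨e, ⟨h5.mul_left p, hm⟩, rfl⟩⟩
      rw [h3, Finset.sum_image (fun a _ b _ h => hinj h)]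
    · have h3 : s ∩ t = ∅ := by
        rw [Finset.eq_empty_iff_forall_notMem]
        intro d hd
        simp only [hs, ht, Finset.mem_inter, Finset.mem_image, Nat.mem_divisors] at hd
        obtain ⟨⟨h4, -⟩, ⟨e, -, rfl⟩⟩ := hd
        exact h ((dvd_mul_right p e).trans h4)
      rw [h3, Finset.sum_empty]
  have h3 := Finset.sum_union_inter (s₁ := s) (s₂ := t) (f := χ)
  rw [← h1, h2, ht, Finset.sum_image (fun a _ b _ h => hinj h)] at h3
  rw [← h3]
  ring

section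

variable {K M L₀ : IntermediateField ℚ Qbar} [NumberField K] [NumberField M] {f : ℕ} [NeZero f]
  {art : Ideal (𝓞 K) → GQ} {ζ : Qbar} (hζ : IsPrimitiveRoot ζ f)

/-- The classes of the automorphisms which fix `K`. -/
noncomputable def KQ (K L₀ : IntermediateField ℚ Qbar) : Subgroup (QQ hζ L₀) :=
  K.fixingSubgroup.map (qq hζ L₀)

lemma mem_KQ (hKL : K ≤ L₀) (hL : L₀ ≤ ℚ⟮ζ⟯) {σ : GQ} : qq hζ L₀ σ ∈ KQ hζ K L₀ ↔ Fixes K σ := by
  constructor
  · rintro ⟨τ, hτ, h⟩ x hx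
    rw [← (qq_eq_iff hζ hL).1 h x (hKL hx)]
    exact fixes_iff.2 hτ x hx
  · intro h
    exact ⟨σ, fixes_iff.1 h, rfl⟩

/-- Every class is the class of an automorphism. -/
lemma qq_surj : Function.Surjective (qq hζ L₀) := by
  intro x
  obtain ⟨v, rfl⟩ := pp_surj hζ x
  -- an automorphism which raises `ζ` to the power `v`
  have h1 : IsPrimitiveRoot (ζ ^ (v : ZMod f).val) f :=
    (hζ.pow_iff_coprime (Nat.pos_of_ne_zero (NeZero.ne f)) _).2 (by
      have h2 := ZMod.val_coe_unit_coprime v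
      exact h2)
  have h2 : minpoly ℚ ζ = minpoly ℚ (ζ ^ (v : ZMod f).val) := by
    rw [← Polynomial.cyclotomic_eq_minpoly_rat hζ (Nat.pos_of_ne_zero (NeZero.ne f)),
      ← Polynomial.cyclotomic_eq_minpoly_rat h1 (Nat.pos_of_ne_zero (NeZero.ne f))]
  obtain ⟨σ, hσ⟩ := (Normal.minpoly_eq_iff_mem_orbit (F := ℚ) (E := Qbar)).1 h2.symm
  refine ⟨σ, ?_⟩
  have h3 : σ ζ = ζ ^ (v : ZMod f).val := hσ
  rw [qq_apply, aut_eq hζ (by rw [ZMod.natCast_zmod_val]) h3]

open Classical in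
/-- The quadratic character of `K`. -/
noncomputable def sgn (x : QQ hζ L₀) : ℤ := if x ∈ KQ hζ K L₀ then 1 else -1

open Classical in
/-- The quadratic character of `K`, on natural numbers. -/
noncomputable def chi (K L₀ : IntermediateField ℚ Qbar) (d : ℕ) : ℤ :=
  if h : d.Coprime f then sgn (K := K) (L₀ := L₀) hζ (pp hζ L₀ (ZMod.unitOfCoprime d h)) else 0

variable (hK : finrank ℚ K = 2) (hKL : K ≤ L₀) (hL : L₀ ≤ ℚ⟮ζ⟯)

include hK hKL hL in
lemma sgn_mul (x y : QQ hζ L₀) : sgn (K := K) hζ (x * y) = sgn (K := K) hζ x * sgn (K := K) hζ y := by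
  classical
  obtain ⟨σ, rfl⟩ := qq_surj hζ x
  obtain ⟨τ, rfl⟩ := qq_surj hζ y
  unfold sgn
  rw [← map_mul]
  simp only [mem_KQ hζ hKL hL]
  by_cases h1 : Fixes K σ <;> by_cases h2 : Fixes K τ
  · simp [h1, h2, h1.mul h2]
  · have h3 : ¬ Fixes K (σ * τ) := fun h => h2 (by
      have := h1.inv.mul h
      rwa [inv_mul_cancel_left] at this)
    simp [h1, h2, h3]
  · have h3 : ¬ Fixes K (σ * τ) := fun h => h1 (by
      have := h.mul h2.inv
      rwa [mul_inv_cancel_right] at this)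
    simp [h1, h2, h3]
  · simp [h1, h2, quad hK h1 h2]

include hK hKL hL in
lemma chi_mul {p d : ℕ} (hp : p.Coprime f) (hd : d.Coprime f) :
    chi hζ K L₀ (p * d) = chi hζ K L₀ p * chi hζ K L₀ d := by
  unfold chi
  rw [dif_pos hp, dif_pos hd, dif_pos (hp.mul_left hd), ← sgn_mul hζ hK hKL hL, ← map_mul]
  congr 2
  ext
  rw [ZMod.coe_unitOfCoprime, Units.val_mul, ZMod.coe_unitOfCoprime, ZMod.coe_unitOfCoprime,
    Nat.cast_mul]

include hKL hL in
lemma chi_prime {p : ℕ} (hp : p.Coprime f) {g : GQ} (hg : g ζ = ζ ^ p) [Decidable (Fixes K g)] :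
    chi hζ K L₀ p = if Fixes K g then 1 else -1 := by
  classical
  unfold chi sgn
  have h1 : pp hζ L₀ (ZMod.unitOfCoprime p hp) = qq hζ L₀ g := by
    rw [qq_apply, aut_eq hζ (ZMod.coe_unitOfCoprime p hp).symm hg]
  rw [dif_pos hp, h1]
  simp only [mem_KQ hζ hKL hL]

include hK hKL hL in
/-- **The number of ideals of given norm of the quadratic field.** -/
theorem cnt_ideals (hM : Normal ℚ M) (hU : Unram M f) (hKM : K ≤ M) (hζM : ζ ∈ M)
    (hart : IsArtin K M (Ideal.span {(f : 𝓞 K)}) art) (n : ℕ) : n ≠ 0 → n.Coprime f →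
    (cnt K K (Ideal.span {(f : 𝓞 K)}) art 1 n : ℤ) = ∑ d ∈ n.divisors, chi hζ K L₀ d := by
  classical
  induction n using Nat.strong_induction_on with
  | _ n ih =>
    intro hn0 hn
    have hf0 : 0 < f := Nat.pos_of_ne_zero (NeZero.ne f)
    by_cases hn1 : n = 1
    · subst hn1
      rw [cnt_one hart hKM, if_pos (show ∀ x ∈ K, (1 : GQ) x = x from fun x _ => rfl),
        Nat.divisors_one, Finset.sum_singleton]
      have h1 := chi_prime (K := K) (L₀ := L₀) hζ hKL hL (p := 1) (Nat.coprime_one_left f) (g := 1)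
        (by rw [pow_one]; rfl)
      rw [if_pos (Fixes.one K)] at h1
      rw [h1, Nat.cast_one]
    obtain ⟨p, hp, hpf, hpn⟩ := exists_prime hn0 hn hn1
    have hlt : n / p < n := Nat.div_lt_self (Nat.pos_of_ne_zero hn0) hp.one_lt
    have hnp : n / p ≠ 0 := by
      intro h
      rw [Nat.div_eq_zero_iff] at h
      rcases h with h | h
      · exact hp.ne_zero h
      · exact absurd (Nat.le_of_dvd (Nat.pos_of_ne_zero hn0) hpn) (by omega)
    have hdd : n / p / p = n / p ^ 2 := by rw [Nat.div_div_eq_div_mul, pow_two]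
    have hc1 : (n / p).Coprime f := Nat.Coprime.coprime_dvd_left (Nat.div_dvd_of_dvd hpn) hn
    have hpc : p.Coprime f := (Nat.Prime.coprime_iff_not_dvd hp).2 hpf
    have ih1 := ih _ hlt hnp hc1
    have ih2 : p ∣ n / p → (cnt K K (Ideal.span {(f : 𝓞 K)}) art 1 (n / p / p) : ℤ) =
        ∑ d ∈ (n / p / p).divisors, chi hζ K L₀ d := by
      intro hd
      refine ih _ (lt_of_le_of_lt (Nat.div_le_self _ _) hlt) ?_
        (Nat.Coprime.coprime_dvd_left (Nat.div_dvd_of_dvd hd) hc1)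
      intro h
      rw [Nat.div_eq_zero_iff] at h
      rcases h with h | h
      · exact hp.ne_zero h
      · exact absurd (Nat.le_of_dvd (Nat.pos_of_ne_zero hnp) hd) (by omega)
    obtain ⟨𝔓, h𝔓, h𝔓p⟩ := exists_above p hp
    obtain ⟨g, hg⟩ := exists_fr hM hp h𝔓 h𝔓p
    have hgζ := fr_zeta hp hpf h𝔓 h𝔓p hg hf0 hζ hζM
    have hχp := chi_prime (K := K) (L₀ := L₀) hζ hKL hL hpc hgζ
    have hs : ∀ m : ℕ, m.Coprime f → ∑ d ∈ m.divisors, chi hζ K L₀ (p * d) =
        chi hζ K L₀ p * ∑ d ∈ m.divisors, chi hζ K L₀ d := by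
      intro m hm
      rw [Finset.mul_sum]
      refine Finset.sum_congr rfl fun d hd => ?_
      exact chi_mul hζ hK hKL hL hpc (Nat.Coprime.coprime_dvd_left (Nat.dvd_of_mem_divisors hd) hm)
    rw [sum_divisors_prime hp hn0 hpn, hs _ hc1]
    have hs2 : p ∣ n / p → ∑ d ∈ (n / p / p).divisors, chi hζ K L₀ (p * d) =
        chi hζ K L₀ p * ∑ d ∈ (n / p / p).divisors, chi hζ K L₀ d := fun hd =>
      hs _ (Nat.Coprime.coprime_dvd_left (Nat.div_dvd_of_dvd hd) hc1)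
    by_cases hgK : Fixes K g
    · rw [if_pos hgK] at hχp
      obtain ⟨s, hsK, hsp⟩ := rec_split hK hKM hM hU hart hp hpf h𝔓 h𝔓p hg hKM hgK
      rw [hsp 1 hpn]
      have hKn := quad_normal hK
      have hsg : Fixes K (s * g * s⁻¹) := hgK.conj hKn s
      have e1 : ∀ τ : GQ, Fixes K τ → ∀ m, cnt K K (Ideal.span {(f : 𝓞 K)}) art τ m =
          cnt K K (Ideal.span {(f : 𝓞 K)}) art 1 m := fun τ hτ m =>
          cnt_congr K K _ art (g := τ) (g' := 1) (fun x hx => hτ x hx) m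
      rw [e1 _ (hgK.inv.mul (Fixes.one K)), e1 _ (hsg.inv.mul (Fixes.one K)),
        e1 _ (hgK.inv.mul (hsg.inv.mul (Fixes.one K))), ih1, hχp, one_mul]
      congr 1
      split_ifs with hd
      · rw [ih2 hd, hs2 hd, hχp, one_mul]
      · rfl
    · rw [if_neg hgK] at hχp
      rw [rec_inert hK hKM hM hU hart hp hpf h𝔓 h𝔓p hg hKM hgK 1 hpn, hχp]
      have e1 : ∀ τ : GQ, Fixes K τ → ∀ m, cnt K K (Ideal.span {(f : 𝓞 K)}) art τ m =
          cnt K K (Ideal.span {(f : 𝓞 K)}) art 1 m := fun τ hτ m =>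
          cnt_congr K K _ art (g := τ) (g' := 1) (fun x hx => hτ x hx) m
      rw [e1 _ ((quad hK hgK hgK).inv.mul (Fixes.one K)), ← hdd]
      simp only [← dvd_div_iff hp hpn]
      split_ifs with hd
      · rw [ih2 hd, hs2 hd, hχp]
        ring
      · rw [Nat.cast_zero]
        ring

end

end Pool.Agent.J4.H48.RQ
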