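import Pool.Agent.J4.H48.RQ.Main

/-! Larger moduli and smaller fields. -/

set_option autoImplicit false
set_option linter.style.haveILetI false
set_option linter.unusedSectionVars false

namespace Pool.Agent.J4.H48.RQ
open NumberField Module IntermediateField Pool.Agent.K4H33.SK

lemma starkReal_modulus {ι : Qbar →+* ℂ} {K H : IntermediateField ℚ Qbar} [NumberField K]
    {𝔤 𝔤' : Ideal (𝓞 K)} {art : Ideal (𝓞 K) → GQ} {W : ℕ}
    (h : ∀ 𝔟 : Ideal (𝓞 K), IsCoprime 𝔟 𝔤 ↔ IsCoprime 𝔟 𝔤') (hS : StarkReal ι K H 𝔤 art W) :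
    StarkReal ι K H 𝔤' art W := by
  obtain ⟨Z, ε, h1, h2, h3, h4⟩ := hS
  refine ⟨Z, ε, h1, h2, ?_, h4⟩
  have h5 : cnt K H 𝔤' art = cnt K H 𝔤 art := by
    funext σ n
    exact (cnt_modulus art h σ n).symm
  rw [h5]
  exact h3

lemma limitReal_prime {ι : Qbar →+* ℂ} {F L M : IntermediateField ℚ Qbar} [NumberField F]
    {𝔪 𝔤 P : Ideal (𝓞 F)} {art : Ideal (𝓞 F) → GQ} (hart : IsArtin F M 𝔪 art) (hLM : L ≤ M)
    (hc : ∀ 𝔟 : Ideal (𝓞 F), IsCoprime 𝔟 𝔤 → IsCoprime 𝔟 𝔪) (hP : P.IsPrime) (hP0 : P ≠ ⊥)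
    (hPg : IsCoprime P 𝔤) {W : ℕ} (hW : 0 < W) {Z : GQ → ℂ → ℂ} {ε : Qbar} (hε : ε ≠ 0)
    (h : LimitReal ι F W (cnt F L 𝔤 art) Z ε) (hab : AbelianRoot F W ε) :
    LimitReal ι F W (cnt F L (𝔤 * P) art)
      (fun σ s => Z σ s - (Ideal.absNorm P : ℂ) ^ (-s) * Z ((art P)⁻¹ * σ) s)
      (ε / (art P)⁻¹ ε) := by
  intro σ hσ
  have hρ : Fixes F (art P)⁻¹ := Fixes.inv (hart.fix P (hc P hPg))
  set ρ : GQ := (art P)⁻¹ with hρdef
  have h1 := h σ hσ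
  have h2 := h (ρ * σ) (hρ.mul hσ)
  have hPn : Ideal.absNorm P ≠ 0 := by
    rw [Ne, Ideal.absNorm_eq_zero_iff]
    exact hP0
  have hPn' : (Ideal.absNorm P : ℂ) ≠ 0 := Nat.cast_ne_zero.2 hPn
  have hd : Differentiable ℂ (fun s : ℂ => (Ideal.absNorm P : ℂ) ^ (-s)) :=
    (differentiable_id.neg).const_cpow (Or.inl hPn')
  refine ⟨⟨?_, ?_⟩, ?_, ?_⟩
  · exact h1.1.1.sub (hd.differentiableOn.mul h2.1.1)
  · intro s hs
    have h3 := (h1.1.2 s hs).sub (hasSum_shift hPn (h2.1.2 s hs))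
    refine (LSeriesHasSum_congr s _ (fun {n} _ => ?_)).1 h3
    have h4 := cnt_prime hart hLM hc hP hP0 hPg σ n
    rw [Pi.sub_apply, h4]
    push_cast
    split_ifs <;> ring
  · simp only
    rw [h1.2.1, h2.2.1]
    ring
  · have hn : ({1}ᶜ : Set ℂ) ∈ nhds (0 : ℂ) := isOpen_compl_singleton.mem_nhds (by simp)
    have d1 := (h1.1.1.differentiableAt hn).hasDerivAt
    have d2 := (h2.1.1.differentiableAt hn).hasDerivAt
    have d3 := (hd 0).hasDerivAt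
    have h5 := (d1.sub (d3.mul d2)).deriv
    have h6 : deriv (fun s => Z σ s - (Ideal.absNorm P : ℂ) ^ (-s) * Z (ρ * σ) s) 0 =
        deriv (Z σ) 0 - deriv (Z (ρ * σ)) 0 := by
      refine Eq.trans h5 ?_
      rw [h2.2.1, mul_zero, zero_add, neg_zero, Complex.cpow_zero, one_mul]
    rw [h6]
    have hn1 : ‖ι (σ ε)‖ ≠ 0 := (norm_pos' ι (ne_zero_ap hε σ)).ne'
    have hn2 : ‖ι ((ρ * σ) ε)‖ ≠ 0 := (norm_pos' ι (ne_zero_ap hε (ρ * σ))).ne'
    have h7 : Real.log ‖ι (σ (ε / ρ ε))‖ =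
        Real.log ‖ι (σ ε)‖ - Real.log ‖ι ((ρ * σ) ε)‖ := by
      rw [← Real.log_div hn1 hn2, map_div₀, map_div₀, norm_div,
        comm_of_root hW hab hσ hρ]
      rfl
    rw [h7]
    push_cast
    have e1 := h1.2.2
    have e2 := h2.2.2
    rw [e1, e2]
    ring

lemma starkReal_prime {ι : Qbar →+* ℂ} {K H M : IntermediateField ℚ Qbar} [NumberField K]
    {𝔪 𝔤 P : Ideal (𝓞 K)} {art : Ideal (𝓞 K) → GQ} (hart : IsArtin K M 𝔪 art) (hLM : H ≤ M)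
    (hKH : K ≤ H) (hc : ∀ 𝔟 : Ideal (𝓞 K), IsCoprime 𝔟 𝔤 → IsCoprime 𝔟 𝔪) (hP : P.IsPrime)
    (hP0 : P ≠ ⊥) (hPg : IsCoprime P 𝔤) {W : ℕ} (hW : 0 < W) (hS : StarkReal ι K H 𝔤 art W) :
    StarkReal ι K H (𝔤 * P) art W := by
  obtain ⟨Z, ε, h1, h2, h3, h4, h5, h6, h7⟩ := hS
  have hρ : Fixes K (art P)⁻¹ := Fixes.inv (hart.fix P (hc P hPg))
  have hl := limitReal_prime hart hLM hc hP hP0 hPg hW h2 h3 h7
  set ρ : GQ := (art P)⁻¹ with hρdef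
  have hρ0 : ρ ε ≠ 0 := by simpa using h2
  have hρH : ρ ε ∈ H := by
    apply mem_of_fixed
    intro σ hσ
    rw [comm_of_root hW h7 (hσ.mono hKH) hρ, hσ ε h1]
  refine ⟨_, ε / ρ ε, H.div_mem h1 hρH, div_ne_zero h2 hρ0, hl, ?_, ?_, ?_,
    abelianRoot_div hW h2 h7 hρ⟩
  · rw [div_eq_mul_inv, ← map_inv₀]
    exact h4.mul (h5.map (ρ : Qbar →+* Qbar).toIntAlgHom)
  · rw [inv_div, div_eq_mul_inv]
    exact (h4.map (ρ : Qbar →+* Qbar).toIntAlgHom).mul h5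
  · rintro w ⟨x, hx, hwx⟩
    have h8 : ‖(w.comp (ρ : Qbar →+* Qbar)) ε‖ = 1 := by
      refine h6 _ ⟨x, hx, ?_⟩
      have h9 : (w.comp (ρ : Qbar →+* Qbar)) x = w x := congrArg w (hρ x hx)
      rw [h9]
      exact hwx
    have h9 : (w.comp (ρ : Qbar →+* Qbar)) ε = w (ρ ε) := rfl
    rw [h9] at h8
    rw [map_div₀, norm_div, h6 w ⟨x, hx, hwx⟩, h8, div_one]

lemma starkReal_mul {ι : Qbar →+* ℂ} {K H M : IntermediateField ℚ Qbar} [NumberField K]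
    {𝔪 : Ideal (𝓞 K)} {art : Ideal (𝓞 K) → GQ} (hart : IsArtin K M 𝔪 art) (hLM : H ≤ M)
    (hKH : K ≤ H) {W : ℕ} (hW : 0 < W) (hS : StarkReal ι K H 𝔪 art W) (𝔟 : Ideal (𝓞 K)) :
    𝔟 ≠ 0 → StarkReal ι K H (𝔪 * 𝔟) art W := by
  induction 𝔟 using UniqueFactorizationMonoid.induction_on_prime with
  | h₁ => exact fun h => absurd rfl h
  | h₂ 𝔟 hu =>
    intro _
    have h1 : 𝔟 = 1 := by
      rw [Ideal.isUnit_iff] at hu
      rw [hu, Ideal.one_eq_top]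
    rw [h1, mul_one]
    exact hS
  | h₃ 𝔟 P h0 hp ih =>
    intro _
    have ih := ih h0
    have hP : P.IsPrime := Ideal.isPrime_of_prime hp
    have hP0 : P ≠ ⊥ := hp.ne_zero
    have e : 𝔪 * (P * 𝔟) = 𝔪 * 𝔟 * P := by rw [mul_comm P, mul_assoc]
    rw [e]
    by_cases hPg : IsCoprime P (𝔪 * 𝔟)
    · exact starkReal_prime hart hLM hKH (fun 𝔠 h => (IsCoprime.mul_right_iff.1 h).1) hP hP0 hPg
        hW ih
    · refine starkReal_modulus (fun 𝔠 => ?_) ih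
      rw [IsCoprime.mul_right_iff (x := 𝔠) (y := 𝔪 * 𝔟) (z := P)]
      refine ⟨fun h => ⟨h, ?_⟩, fun h => h.1⟩
      rw [isCoprime_comm, isCoprime_prime_iff hP hP0, not_not] at hPg
      rw [Ideal.isCoprime_iff_exists] at h ⊢
      obtain ⟨i, hi, j, hj, hij⟩ := h
      exact ⟨i, hi, j, hPg hj, hij⟩

/-- Larger sets of places. -/
lemma starkReal_primesOver {ι : Qbar →+* ℂ} {K H M : IntermediateField ℚ Qbar} [NumberField K]
    {f : ℕ} {art : Ideal (𝓞 K) → GQ} (hart : IsArtin K M (Ideal.span {(f : 𝓞 K)}) art)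
    (hLM : H ≤ M) (hKH : K ≤ H) {W : ℕ} (hW : 0 < W)
    (hS : StarkReal ι K H (Ideal.span {(f : 𝓞 K)}) art W) (𝔣 : Ideal (𝓞 K)) (h𝔣0 : 𝔣 ≠ ⊥)
    (h𝔣 : ∀ P : Ideal (𝓞 K), P.IsPrime → (f : 𝓞 K) ∈ P → 𝔣 ≤ P) :
    StarkReal ι K H 𝔣 art W := by
  have h2 := starkReal_mul hart hLM hKH hW hS 𝔣 h𝔣0
  refine starkReal_modulus (fun 𝔟 => ?_) h2
  rw [IsCoprime.mul_right_iff]
  refine ⟨fun h => h.2, fun h => ⟨?_, h⟩⟩
  rw [Ideal.isCoprime_iff_sup_eq]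
  by_contra hne
  obtain ⟨P, hP, hle⟩ := Ideal.exists_le_maximal _ hne
  have hf' : (f : 𝓞 K) ∈ P := hle ((le_sup_right : _ ≤ 𝔟 ⊔ Ideal.span {(f : 𝓞 K)})
    (Ideal.mem_span_singleton_self _))
  apply hP.ne_top
  rw [Ideal.eq_top_iff_one]
  obtain ⟨i, hi, j, hj, hij⟩ := Ideal.isCoprime_iff_exists.1 h
  rw [← hij]
  exact P.add_mem (hle ((le_sup_left : 𝔟 ≤ 𝔟 ⊔ _) hi)) (h𝔣 P hP.isPrime hf' hj)

/-! ### Subextensions -/

/-- Representatives of the automorphisms which fix `H'`, up to those which fix `H`. -/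
lemma exists_reps (H H' : IntermediateField ℚ Qbar) [NumberField H] :
    ∃ (S : Type) (_ : Fintype S) (g : S → GQ), (∀ s, Fixes H' (g s)) ∧
      ∀ t : GQ, Fixes H' t → ∃! s, ∀ x ∈ H, t x = g s x := by
  classical
  haveI : FiniteDimensional ℚ H := inferInstance
  let S : Type := {φ : H →ₐ[ℚ] Qbar // ∃ t : GQ, Fixes H' t ∧ ∀ x : H, φ x = t x}
  haveI : Finite (H →ₐ[ℚ] Qbar) := inferInstance
  haveI : Finite S := Subtype.finite
  refine ⟨S, Fintype.ofFinite S, fun s => s.2.choose, fun s => s.2.choose_spec.1, fun t ht => ?_⟩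
  refine ⟨⟨(t : Qbar →ₐ[ℚ] Qbar).comp H.val, t, ht, fun x => rfl⟩, fun x hx => ?_, fun s hs => ?_⟩
  · have h := (Exists.choose_spec (p := fun t' : GQ => Fixes H' t' ∧
      ∀ x : H, ((t : Qbar →ₐ[ℚ] Qbar).comp H.val) x = t' x) ⟨t, ht, fun x => rfl⟩).2 ⟨x, hx⟩
    exact h
  · apply Subtype.ext
    ext x
    rw [s.2.choose_spec.2 x]
    exact (hs x x.2).symm

/-- The number of ideals for a subfield. -/
lemma cnt_sum {F L L' : IntermediateField ℚ Qbar} [NumberField F] {𝔪 : Ideal (𝓞 F)}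
    {art : Ideal (𝓞 F) → GQ} (hLL : L' ≤ L) {S : Type} [Fintype S] {g : S → GQ}
    (hg : ∀ s, Fixes L' (g s)) (hall : ∀ t : GQ, Fixes L' t → ∃! s, ∀ x ∈ L, t x = g s x)
    (σ : GQ) (n : ℕ) :
    cnt F L' 𝔪 art σ n = ∑ s, cnt F L 𝔪 art (σ * g s) n := by
  classical
  have hfin : {𝔟 : Ideal (𝓞 F) | Ideal.absNorm 𝔟 = n}.Finite := Ideal.finite_setOfPred_absNorm_eq n
  have h1 : {𝔟 : Ideal (𝓞 F) | Ideal.absNorm 𝔟 = n ∧ IsCoprime 𝔟 𝔪 ∧ ∀ x ∈ L', art 𝔟 x = σ x} =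
      ⋃ s, {𝔟 : Ideal (𝓞 F) | Ideal.absNorm 𝔟 = n ∧ IsCoprime 𝔟 𝔪 ∧
        ∀ x ∈ L, art 𝔟 x = (σ * g s) x} := by
    ext 𝔟
    rw [Set.mem_iUnion]
    constructor
    · rintro ⟨h1, h2, h3⟩
      obtain ⟨s, hs, -⟩ := hall _ (agree_iff.1 h3)
      refine ⟨s, h1, h2, fun x hx => ?_⟩
      rw [AlgEquiv.mul_apply, ← hs x hx, AlgEquiv.mul_apply, AlgEquiv.aut_inv,
        AlgEquiv.apply_symm_apply]
    · rintro ⟨s, h1, h2, h3⟩
      exact ⟨h1, h2, fun x hx => by rw [h3 x (hLL hx), AlgEquiv.mul_apply, hg s x hx]⟩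
  have e0 : cnt F L' 𝔪 art σ n =
    {𝔟 : Ideal (𝓞 F) | Ideal.absNorm 𝔟 = n ∧ IsCoprime 𝔟 𝔪 ∧ ∀ x ∈ L', art 𝔟 x = σ x}.ncard := rfl
  rw [e0, h1, Set.ncard_iUnion_of_finite]
  · rw [finsum_eq_sum_of_fintype]
    rfl
  · intro s
    exact hfin.subset fun 𝔟 h => h.1
  · intro s s' hss
    rw [Function.onFun, Set.disjoint_left]
    rintro 𝔟 ⟨-, -, h3⟩ ⟨-, -, h4⟩
    apply hss
    obtain ⟨r, hr, hr2⟩ := hall (g s) (hg s)
    rw [hr2 s fun x _ => rfl]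
    refine (hr2 s' fun x hx => ?_).symm
    apply σ.injective
    rw [← AlgEquiv.mul_apply, ← AlgEquiv.mul_apply, ← h3 x hx, h4 x hx]

/-- Descent to subfields. -/
theorem starkReal_sub {ι : Qbar →+* ℂ} {K H H' : IntermediateField ℚ Qbar} [NumberField K]
    [NumberField H] {𝔣 : Ideal (𝓞 K)} {art : Ideal (𝓞 K) → GQ} (hKH : K ≤ H') (hHH : H' ≤ H)
    (hS : StarkReal ι K H 𝔣 art 2) : StarkReal ι K H' 𝔣 art 2 := by
  classical
  obtain ⟨Z, ε, h1, h2, h3, h4, h5, h6, h7⟩ := hS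
  obtain ⟨S, _, g, hg, hall⟩ := exists_reps H H'
  have hgK : ∀ s, Fixes K (g s) := fun s => (hg s).mono hKH
  have hg0 : ∀ s, g s ε ≠ 0 := fun s => ne_zero_ap h2 (g s)
  refine ⟨fun σ s => ∑ i, Z (σ * g i) s, ∏ i, g i ε, ?_, Finset.prod_ne_zero_iff.2 fun s _ => hg0 s,
    fun σ hσ => ?_, ?_, ?_, fun w hw => ?_, ?_⟩
  · -- membership
    apply mem_of_fixed
    intro τ hτ
    rw [map_prod]
    -- `τ` permutes the representatives
    have hex : ∀ s, ∃ s', ∀ x ∈ H, (τ * g s) x = g s' x := fun s =>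
      (hall _ (hτ.mul (hg s))).exists
    choose e he using hex
    have hinj : Function.Injective e := by
      intro s s' hss
      have h8 : ∀ x ∈ H, g s x = g s' x := by
        intro x hx
        apply τ.injective
        rw [← AlgEquiv.mul_apply, ← AlgEquiv.mul_apply, he s x hx, he s' x hx, hss]
      obtain ⟨r, -, hr2⟩ := hall (g s) (hg s)
      rw [hr2 s fun x _ => rfl]
      exact (hr2 s' h8).symm
    have hbij : Function.Bijective e := (Finite.injective_iff_bijective).1 hinj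
    rw [← Function.Bijective.prod_comp hbij (fun s => g s ε)]
    exact Finset.prod_congr rfl fun s _ => he s ε h1
  · have hg' : ∀ s, Fixes K (σ * g s) := fun s => hσ.mul (hgK s)
    refine ⟨⟨?_, ?_⟩, ?_, ?_⟩
    · exact DifferentiableOn.fun_sum fun s _ => (h3 _ (hg' s)).1.1
    · intro s hs
      have h8 := LSeriesHasSum.sum (S := Finset.univ) (fun i _ => (h3 _ (hg' i)).1.2 s hs)
      refine (LSeriesHasSum_congr s _ (fun {n} _ => ?_)).1 h8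
      rw [cnt_sum hHH hg hall, Finset.sum_apply, Nat.cast_sum]
    · exact Finset.sum_eq_zero fun s _ => (h3 _ (hg' s)).2.1
    · have hn : ({1}ᶜ : Set ℂ) ∈ nhds (0 : ℂ) := isOpen_compl_singleton.mem_nhds (by simp)
      have h8 : deriv (fun s => ∑ i, Z (σ * g i) s) 0 = ∑ i, deriv (Z (σ * g i)) 0 := by
        have h9 := HasDerivAt.fun_sum (u := (Finset.univ : Finset S))
          (A := fun i s => Z (σ * g i) s) (x := (0 : ℂ))
          (fun i _ => ((h3 _ (hg' i)).1.1.differentiableAt hn).hasDerivAt)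
        exact h9.deriv
      rw [h8, map_prod, map_prod, norm_prod, Real.log_prod (fun i _ => ?_), Finset.mul_sum]
      · push_cast
        exact Finset.sum_congr rfl fun i _ => (h3 _ (hg' i)).2.2
      · exact (norm_pos' ι (ne_zero_ap (hg0 i) σ)).ne'
  · exact IsIntegral.prod _ fun s _ => h4.map ((g s : GQ) : Qbar →+* Qbar).toIntAlgHom
  · rw [← Finset.prod_inv_distrib]
    refine IsIntegral.prod _ fun s _ => ?_
    rw [← map_inv₀]
    exact h5.map ((g s : GQ) : Qbar →+* Qbar).toIntAlgHom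
  · rw [map_prod, norm_prod]
    refine Finset.prod_eq_one fun s _ => ?_
    obtain ⟨x, hx, hwx⟩ := hw
    refine h6 (w.comp ((g s : GQ) : Qbar →+* Qbar)) ⟨x, hx, ?_⟩
    have h9 : (w.comp ((g s : GQ) : Qbar →+* Qbar)) x = w x := congrArg w (hgK s x hx)
    rw [h9]
    exact hwx
  · intro lam hlam σ τ hσ hτ
    obtain ⟨μ, hμ⟩ := IsAlgClosed.exists_pow_nat_eq ε two_pos
    have h8 : ∀ s, σ (τ (g s μ)) = τ (σ (g s μ)) := by
      intro s
      have e1 : σ ((τ * g s) μ) = (τ * g s) (σ μ) := h7 μ hμ σ (τ * g s) hσ (hτ.mul (hgK s))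
      have e2 : σ (g s μ) = g s (σ μ) := h7 μ hμ σ (g s) hσ (hgK s)
      have e3 : σ (τ (g s μ)) = τ (g s (σ μ)) := e1
      rw [e3, e2]
    have h9 : (∏ s, g s μ) ^ 2 = lam ^ 2 := by
      rw [hlam, ← Finset.prod_pow]
      refine Finset.prod_congr rfl fun s _ => ?_
      rw [← map_pow, hμ]
    have h10 : σ (τ (∏ s, g s μ)) = τ (σ (∏ s, g s μ)) := by
      rw [map_prod, map_prod, map_prod, map_prod]
      exact Finset.prod_congr rfl fun s _ => h8 s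
    rcases sq_eq_sq_iff_eq_or_eq_neg.1 h9 with h11 | h11
    · rw [← h11]; exact h10
    · have h12 : lam = -∏ s, g s μ := by rw [h11, neg_neg]
      rw [h12]
      simp only [map_neg, h10]

end Pool.Agent.J4.H48.RQ
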