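import Pool.Agent.K4H33.SK.Final

/-! Frobenius automorphisms and Artin symbols over quadratic fields. -/

set_option autoImplicit false
set_option linter.style.haveILetI false

namespace Pool.Agent.J4.H48.RQ
open NumberField Module IntermediateField Pool.Agent.K4H33.SK

/-- The primes which do not divide `f` are unramified in `M`. -/
def Unram (M : IntermediateField ℚ Qbar) (f : ℕ) : Prop :=
  ∀ p : ℕ, p.Prime → ¬ p ∣ f → ∀ Q : Ideal (𝓞 M), Q.IsPrime → (p : 𝓞 M) ∈ Q → (p : 𝓞 M) ∉ Q ^ 2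

theorem inertia_trivial {M : IntermediateField ℚ Qbar} [NumberField M] (hM : Normal ℚ M) {f : ℕ}
    (hU : Unram M f) {p : ℕ} (hp : p.Prime) (hpf : ¬ p ∣ f) {Q : Ideal (𝓞 M)} (hQ : Q.IsPrime)
    (hpQ : (p : 𝓞 M) ∈ Q) (s : M ≃ₐ[ℚ] M) (hs : ∀ x : 𝓞 M, s • x - x ∈ Q) : s = 1 := by
  haveI := hM
  haveI := hQ
  haveI : IsGalois ℚ M := ⟨⟩
  haveI : IsGaloisGroup (M ≃ₐ[ℚ] M) ℤ (𝓞 M) :=
    IsGaloisGroup.of_isFractionRing (M ≃ₐ[ℚ] M) ℤ (𝓞 M) ℚ M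
  haveI : Q.LiesOver (Ideal.span {(p : ℤ)}) := by
    refine (Ideal.liesOver_span_iff Ideal.IsPrime.ne_top' (Nat.prime_iff_prime_int.1 hp)).mpr ?_
    simpa using hpQ
  haveI : (Ideal.span {(p : ℤ)}).IsPrime := by
    rw [Ideal.span_singleton_prime (by exact_mod_cast hp.ne_zero)]
    exact Nat.prime_iff_prime_int.1 hp
  have hp0 : Ideal.span {(p : ℤ)} ≠ ⊥ := by
    rw [Ne, Ideal.span_singleton_eq_bot]
    exact_mod_cast hp.ne_zero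
  haveI : (Ideal.span {(p : ℤ)}).IsMaximal := Ideal.IsPrime.isMaximal inferInstance hp0
  have hmap : Ideal.map (algebraMap ℤ (𝓞 M)) (Ideal.span {(p : ℤ)}) =
      Ideal.span {(p : 𝓞 M)} := by
    rw [Ideal.map_span, Set.image_singleton]
    simp
  have h1 : Ideal.ramificationIdx' (Ideal.span {(p : ℤ)}) Q = 1 := by
    by_contra h
    rw [← Ne, Ideal.ramificationIdx'_ne_one_iff, hmap, Ideal.span_singleton_le_iff_mem] at h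
    · exact hU p hp hpf Q hQ hpQ h
    · rw [hmap, Ideal.span_singleton_le_iff_mem]
      exact hpQ
  rw [Ideal.ramificationIdx'_eq_ramificationIdx _ _ hp0] at h1
  have h2 := Ideal.card_inertia_eq_ramificationIdxIn (G := M ≃ₐ[ℚ] M) (Ideal.span {(p : ℤ)}) Q
  rw [Ideal.ramificationIdxIn_eq_ramificationIdx (Ideal.span {(p : ℤ)}) Q (M ≃ₐ[ℚ] M), h1] at h2
  have h3 : s ∈ Q.inertia (M ≃ₐ[ℚ] M) := hs
  have h4 : Subsingleton (Q.inertia (M ≃ₐ[ℚ] M)) := (Nat.card_eq_one_iff_unique.1 h2).1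
  have h5 := h4.elim ⟨s, h3⟩ 1
  exact congrArg Subtype.val h5

/-- `h` acts on the integers of `M` modulo `𝔓` by the power with exponent `q`. -/
def Fr (M : IntermediateField ℚ Qbar) (𝔓 : Ideal (𝓞 Qbar)) (q : ℕ) (h : GQ) : Prop :=
  ∀ x y : 𝓞 Qbar, (x : Qbar) ∈ M → (y : Qbar) = h (x : Qbar) → y - x ^ q ∈ 𝔓

/-- The image of an algebraic integer under an automorphism. -/
noncomputable def ap (h : GQ) (x : 𝓞 Qbar) : 𝓞 Qbar :=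
  ⟨h (x : Qbar), x.2.map ((h : Qbar →+* Qbar).toIntAlgHom)⟩

@[simp] lemma coe_ap (h : GQ) (x : 𝓞 Qbar) : (ap h x : Qbar) = h (x : Qbar) := rfl

lemma normal_inv {M : IntermediateField ℚ Qbar} (hM : Normal ℚ M) (h : GQ) {x : Qbar}
    (hx : x ∈ M) : h⁻¹ x ∈ M := normal_mem hM _ hx

/-- Restriction to a normal field. -/
noncomputable abbrev rr (M : IntermediateField ℚ Qbar) [Normal ℚ M] : GQ →* (M ≃ₐ[ℚ] M) :=
  AlgEquiv.restrictNormalHom M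

lemma rr_apply (M : IntermediateField ℚ Qbar) [Normal ℚ M] (g : GQ) (x : M) :
    ((rr M g x : M) : Qbar) = g x := AlgEquiv.restrictNormal_commutes g M x

lemma rr_eq {M : IntermediateField ℚ Qbar} [Normal ℚ M] {g h : GQ} :
    rr M g = rr M h ↔ ∀ x ∈ M, g x = h x := by
  constructor
  · intro e x hx
    have h1 := rr_apply M g ⟨x, hx⟩
    have h2 := rr_apply M h ⟨x, hx⟩
    rw [e] at h1
    exact h1.symm.trans h2
  · intro e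
    ext x
    rw [rr_apply, rr_apply]
    exact e x x.2

lemma rr_surj (M : IntermediateField ℚ Qbar) [Normal ℚ M] : Function.Surjective (rr M) :=
  AlgEquiv.restrictNormalHom_surjective Qbar

section

variable {M : IntermediateField ℚ Qbar} [NumberField M] {f p : ℕ} {𝔓 : Ideal (𝓞 Qbar)}

omit [NumberField M] in
lemma smul_coe (s : M ≃ₐ[ℚ] M) (x : 𝓞 M) : (((s • x : 𝓞 M) : M) : Qbar) = (s (x : M) : M) := rfl

omit [NumberField M] in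
lemma alg_coe (x : 𝓞 M) : ((algebraMap (𝓞 M) (𝓞 Qbar) x : 𝓞 Qbar) : Qbar) = ((x : M) : Qbar) :=
  rfl

omit [NumberField M] in
/-- An algebraic integer in `M`. -/
lemma exists_int {x : 𝓞 Qbar} (hx : (x : Qbar) ∈ M) :
    ∃ z : 𝓞 M, algebraMap (𝓞 M) (𝓞 Qbar) z = x := by
  have h1 : IsIntegral ℤ (⟨(x : Qbar), hx⟩ : M) := by
    have h2 : IsIntegral ℤ (algebraMap M Qbar ⟨(x : Qbar), hx⟩) := x.2
    exact (isIntegral_algebraMap_iff (algebraMap M Qbar).injective).1 h2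
  exact ⟨⟨⟨(x : Qbar), hx⟩, h1⟩, RingOfIntegers.ext rfl⟩

omit [NumberField M] in
lemma mem_under {x : 𝓞 M} : x ∈ 𝔓.under (𝓞 M) ↔ algebraMap (𝓞 M) (𝓞 Qbar) x ∈ 𝔓 := Iff.rfl

lemma nat_mem_under (h𝔓p : (p : 𝓞 Qbar) ∈ 𝔓) : (p : 𝓞 M) ∈ 𝔓.under (𝓞 M) := by
  rw [mem_under, map_natCast]
  exact h𝔓p

theorem Fr.unique (hM : Normal ℚ M) (hU : Unram M f) (hp : p.Prime) (hpf : ¬ p ∣ f)
    (h𝔓 : 𝔓.IsPrime) (h𝔓p : (p : 𝓞 Qbar) ∈ 𝔓) {q : ℕ} {h h' : GQ} (hh : Fr M 𝔓 q h)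
    (hh' : Fr M 𝔓 q h') : ∀ x ∈ M, h x = h' x := by
  haveI := hM
  haveI := h𝔓
  have h1 : rr M (h * h'⁻¹) = 1 := by
    refine inertia_trivial hM hU hp hpf (Q := 𝔓.under (𝓞 M)) inferInstance
      (nat_mem_under h𝔓p) _ fun x => ?_
    rw [mem_under, map_sub]
    set X : 𝓞 Qbar := algebraMap (𝓞 M) (𝓞 Qbar) x with hX
    have hXM : (X : Qbar) ∈ M := (x : M).2
    set w : 𝓞 Qbar := ap h'⁻¹ X with hw
    have hwM : (w : Qbar) ∈ M := by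
      rw [hw, coe_ap]
      exact normal_mem hM _ hXM
    have e1 := hh w (ap h w) hwM rfl
    have e2 := hh' w X hwM (by
      rw [hw, coe_ap, ← AlgEquiv.mul_apply, mul_inv_cancel, AlgEquiv.one_apply])
    have e3 : algebraMap (𝓞 M) (𝓞 Qbar) (rr M (h * h'⁻¹) • x) = ap h w := by
      apply RingOfIntegers.ext
      rw [alg_coe, smul_coe, rr_apply]
      rfl
    rw [e3]
    have e4 := 𝔓.sub_mem e1 e2
    rwa [sub_sub_sub_cancel_right] at e4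
  have h2 := (rr_eq (M := M) (g := h * h'⁻¹) (h := 1)).1 (by rw [h1, map_one])
  intro x hx
  have h3 := h2 (h' x) (normal_mem hM h' hx)
  rw [AlgEquiv.mul_apply, ← AlgEquiv.mul_apply h'⁻¹, inv_mul_cancel, AlgEquiv.one_apply,
    AlgEquiv.one_apply] at h3
  exact h3

theorem exists_fr (hM : Normal ℚ M) (hp : p.Prime) (h𝔓 : 𝔓.IsPrime)
    (h𝔓p : (p : 𝓞 Qbar) ∈ 𝔓) : ∃ g : GQ, Fr M 𝔓 p g := by
  haveI := hM
  haveI := h𝔓
  haveI : IsGalois ℚ M := ⟨⟩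
  haveI : IsGaloisGroup (M ≃ₐ[ℚ] M) ℤ (𝓞 M) :=
    IsGaloisGroup.of_isFractionRing (M ≃ₐ[ℚ] M) ℤ (𝓞 M) ℚ M
  set Q : Ideal (𝓞 M) := 𝔓.under (𝓞 M) with hQ
  have hpQ : (p : 𝓞 M) ∈ Q := nat_mem_under h𝔓p
  have hQ0 : Q ≠ ⊥ := by
    intro h
    rw [h, Ideal.mem_bot, Nat.cast_eq_zero] at hpQ
    exact hp.ne_zero hpQ
  haveI : Finite (𝓞 M ⧸ Q) := Ideal.finiteQuotientOfFreeOfNeBot Q hQ0
  haveI : Q.LiesOver (Ideal.span {(p : ℤ)}) := by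
    refine (Ideal.liesOver_span_iff Ideal.IsPrime.ne_top' (Nat.prime_iff_prime_int.1 hp)).mpr ?_
    simpa using hpQ
  obtain ⟨s, hs⟩ := IsArithFrobAt.exists_of_isInvariant ℤ (M ≃ₐ[ℚ] M) Q
  obtain ⟨g, hg⟩ := rr_surj M s
  refine ⟨g, fun x y hx hy => ?_⟩
  obtain ⟨z, hz⟩ := exists_int hx
  have h1 := hs z
  rw [← Ideal.over_def Q (Ideal.span {(p : ℤ)})] at h1
  have h2 : Nat.card (ℤ ⧸ Ideal.span {(p : ℤ)}) = p := by
    rw [Nat.card_congr (Int.quotientSpanNatEquivZMod p).toEquiv, Nat.card_zmod]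
  rw [h2, hQ, mem_under, map_sub, map_pow, hz] at h1
  have h3 : y = algebraMap (𝓞 M) (𝓞 Qbar) (MulSemiringAction.toAlgHom ℤ (𝓞 M) s z) := by
    apply RingOfIntegers.ext
    rw [alg_coe, hy, ← hz, alg_coe]
    have h4 : ((MulSemiringAction.toAlgHom ℤ (𝓞 M) s z : 𝓞 M) : M) = s (z : M) := rfl
    rw [h4, ← hg, rr_apply]
  rw [h3]
  exact h1

/-- `s` maps `𝔓 ∩ M` to `𝔓' ∩ M`. -/
def Maps (M : IntermediateField ℚ Qbar) (𝔓 𝔓' : Ideal (𝓞 Qbar)) (s : GQ) : Prop :=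
  ∀ x : 𝓞 Qbar, (x : Qbar) ∈ M → x ∈ 𝔓 → ap s x ∈ 𝔓'

theorem exists_maps (hM : Normal ℚ M) (hp : p.Prime) {𝔓' : Ideal (𝓞 Qbar)}
    (h𝔓 : 𝔓.IsPrime) (h𝔓p : (p : 𝓞 Qbar) ∈ 𝔓) (h𝔓' : 𝔓'.IsPrime) (h𝔓p' : (p : 𝓞 Qbar) ∈ 𝔓') :
    ∃ s : GQ, Maps M 𝔓 𝔓' s := by
  haveI := hM
  haveI := h𝔓
  haveI := h𝔓'
  haveI : IsGalois ℚ M := ⟨⟩
  haveI : IsGaloisGroup (M ≃ₐ[ℚ] M) ℤ (𝓞 M) :=
    IsGaloisGroup.of_isFractionRing (M ≃ₐ[ℚ] M) ℤ (𝓞 M) ℚ M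
  have h1 : ∀ 𝔔 : Ideal (𝓞 Qbar), 𝔔.IsPrime → (p : 𝓞 Qbar) ∈ 𝔔 →
      (𝔔.under (𝓞 M)).under ℤ = Ideal.span {(p : ℤ)} := by
    intro 𝔔 h𝔔 h𝔔p
    haveI := h𝔔
    haveI : (𝔔.under (𝓞 M)).LiesOver (Ideal.span {(p : ℤ)}) := by
      refine (Ideal.liesOver_span_iff Ideal.IsPrime.ne_top'
        (Nat.prime_iff_prime_int.1 hp)).mpr ?_
      simpa using nat_mem_under (M := M) h𝔔p
    exact (Ideal.over_def (𝔔.under (𝓞 M)) (Ideal.span {(p : ℤ)})).symm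
  obtain ⟨s, hs⟩ := Algebra.IsInvariant.exists_smul_of_under_eq ℤ (𝓞 M) (M ≃ₐ[ℚ] M)
    (𝔓.under (𝓞 M)) (𝔓'.under (𝓞 M)) (by rw [h1 𝔓 h𝔓 h𝔓p, h1 𝔓' h𝔓' h𝔓p'])
  obtain ⟨g, hg⟩ := rr_surj M s
  refine ⟨g, fun x hx hx2 => ?_⟩
  obtain ⟨z, hz⟩ := exists_int hx
  have h2 : z ∈ 𝔓.under (𝓞 M) := by rw [mem_under, hz]; exact hx2
  have h3 : s • z ∈ 𝔓'.under (𝓞 M) := by
    rw [hs]
    exact Ideal.smul_mem_pointwise_smul s z _ h2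
  rw [mem_under] at h3
  have h4 : algebraMap (𝓞 M) (𝓞 Qbar) (s • z) = ap g x := by
    apply RingOfIntegers.ext
    rw [alg_coe, smul_coe, ← hg, rr_apply, coe_ap, ← hz]
    rfl
  rwa [h4] at h3

theorem Fr.conj (hM : Normal ℚ M) {𝔓' : Ideal (𝓞 Qbar)} {q : ℕ} {h s : GQ} (hh : Fr M 𝔓 q h)
    (hs : Maps M 𝔓 𝔓' s) : Fr M 𝔓' q (s * h * s⁻¹) := by
  intro x y hx hy
  set w : 𝓞 Qbar := ap s⁻¹ x with hw
  have hwM : (w : Qbar) ∈ M := by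
    rw [hw, coe_ap]
    exact normal_mem hM _ hx
  have h1 := hh w (ap h w) hwM rfl
  have h2 : ((ap h w - w ^ q : 𝓞 Qbar) : Qbar) ∈ M := by
    have h3 : ((ap h w - w ^ q : 𝓞 Qbar) : Qbar) = h (w : Qbar) - (w : Qbar) ^ q := rfl
    rw [h3]
    exact sub_mem (normal_mem hM _ hwM) (pow_mem hwM _)
  have h3 := hs _ h2 h1
  have h4 : ap s (ap h w - w ^ q) = y - x ^ q := by
    apply RingOfIntegers.ext
    have h5 : ((y - x ^ q : 𝓞 Qbar) : Qbar) = (y : Qbar) - (x : Qbar) ^ q := rfl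
    have h6 : ((ap h w - w ^ q : 𝓞 Qbar) : Qbar) = h (w : Qbar) - (w : Qbar) ^ q := rfl
    rw [coe_ap, h5, h6, hy, map_sub, map_pow, hw, coe_ap]
    have h7 : s (s⁻¹ (x : Qbar)) = (x : Qbar) := by
      rw [← AlgEquiv.mul_apply, mul_inv_cancel, AlgEquiv.one_apply]
    rw [h7]
    rfl
  rwa [h4] at h3

end

end Pool.Agent.J4.H48.RQ
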