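import Pool.Agent.J4.H48.RQ.Pair
import Pool.Agent.J4.H48.RQ.Eta
import Pool.Agent.J4.H48.RQ.EZ

/-! Stark units over real quadratic fields from elliptic units. -/

set_option autoImplicit false
set_option linter.style.haveILetI false
set_option linter.unusedSectionVars false

namespace Pool.Agent.J4.H48.RQ
open NumberField Module IntermediateField Pool.Agent.K4H33.SK

lemma normal_conv {N : IntermediateField ℚ Qbar} :
    Normal ℚ N ↔ @Normal ℚ N _ _ (IntermediateField.algebra' N) := by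
  have h : (IntermediateField.algebra' N : Algebra ℚ N) = DivisionRing.toRatAlgebra :=
    Subsingleton.elim _ _
  rw [h]

lemma normal_sup' {N N' : IntermediateField ℚ Qbar} (h : Normal ℚ N) (h' : Normal ℚ N') :
    Normal ℚ ↥(N ⊔ N') := by
  rw [normal_conv] at *
  exact IntermediateField.normal_sup ℚ Qbar N N'

/-- The limit formula at the real place `ι`. -/
def LimitReal (ι : Qbar →+* ℂ) (F : IntermediateField ℚ Qbar) (W : ℕ) (c : GQ → ℕ → ℕ)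
    (Z : GQ → ℂ → ℂ) (ε : Qbar) : Prop :=
  ∀ σ : GQ, Fixes F σ → IsZeta (c σ) (Z σ) ∧ Z σ 0 = 0 ∧
    (Real.log ‖ι (σ ε)‖ : ℂ) = -(W : ℂ) * deriv (Z σ) 0

/-- The rank one abelian Stark conjecture for `H / K` and the real place `ι`. -/
def StarkReal (ι : Qbar →+* ℂ) (K H : IntermediateField ℚ Qbar) [NumberField K]
    (𝔣 : Ideal (𝓞 K)) (art : Ideal (𝓞 K) → GQ) (W : ℕ) : Prop :=
  ∃ (Z : GQ → ℂ → ℂ) (ε : Qbar), ε ∈ H ∧ ε ≠ 0 ∧ LimitReal ι K W (cnt K H 𝔣 art) Z ε ∧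
    IsIntegral ℤ ε ∧ IsIntegral ℤ ε⁻¹ ∧
    (∀ w : Qbar →+* ℂ, (∃ x ∈ K, w x ≠ ι x) → ‖w ε‖ = 1) ∧ AbelianRoot K W ε

/-- **Stark units over real quadratic fields.** -/
theorem stark_real (ι : Qbar →+* ℂ) (K k N H : IntermediateField ℚ Qbar) [NumberField K]
    [NumberField k] [NumberField N] (hC : Cls ι K k N) (f : ℕ) (hf : 2 ≤ f) (ζ : Qbar)
    (hζ : IsPrimitiveRoot ζ f) (hU : Unram (N ⊔ ℚ⟮ζ⟯) f)
    (hkw : ∀ x ∈ N, (∀ σ τ : GQ, σ (τ x) = τ (σ x)) → x ∈ ℚ⟮ζ⟯)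
    (hH : ∀ x, x ∈ H ↔ x ∈ N ∧ (ι x).im = 0)
    (artK : Ideal (𝓞 K) → GQ) (hartK : IsArtin K (N ⊔ ℚ⟮ζ⟯) (Ideal.span {(f : 𝓞 K)}) artK)
    (art : Ideal (𝓞 k) → GQ) (hart : IsArtin k (N ⊔ ℚ⟮ζ⟯) (Ideal.span {(f : 𝓞 k)}) art)
    (W' : ℕ) (hW' : 0 < W') (hS : StarkImQuad ι k N (Ideal.span {(f : 𝓞 k)}) art W') :
    StarkReal ι K H (Ideal.span {(f : 𝓞 K)}) artK 2 := by
  classical
  haveI : NeZero f := ⟨by omega⟩
  haveI := hC.normal
  have hcyc : Normal ℚ ℚ⟮ζ⟯ := by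
    haveI : IsCyclotomicExtension {f} ℚ ℚ⟮ζ⟯ := hζ.intermediateField_adjoin_isCyclotomicExtension ℚ
    exact (IsCyclotomicExtension.isGalois {f} ℚ ℚ⟮ζ⟯).to_normal
  have hM : Normal ℚ ↥(N ⊔ ℚ⟮ζ⟯) := normal_sup' hC.normal hcyc
  haveI : NumberField ℚ⟮ζ⟯ := by
    haveI : FiniteDimensional ℚ ℚ⟮ζ⟯ :=
      IntermediateField.adjoin.finiteDimensional (hζ.isIntegral (by omega)).tower_top
    exact ⟨⟩
  haveI : NumberField ↥(N ⊔ ℚ⟮ζ⟯) := by
    haveI : FiniteDimensional ℚ ↥(N ⊔ ℚ⟮ζ⟯) := IntermediateField.finiteDimensional_sup N ℚ⟮ζ⟯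
    exact ⟨⟩
  have hNM : N ≤ N ⊔ ℚ⟮ζ⟯ := le_sup_left
  have hζM : ζ ∈ N ⊔ ℚ⟮ζ⟯ := (le_sup_right : ℚ⟮ζ⟯ ≤ N ⊔ ℚ⟮ζ⟯) (mem_adjoin_simple_self ℚ ζ)
  obtain ⟨c, hc⟩ := exists_conj ι
  obtain ⟨hcK, hck, hcc⟩ := hC.conj_data hc
  obtain ⟨b, hbk, hbK⟩ := hC.exists_b
  obtain ⟨u, hu⟩ : ∃ u, u = c * b * c⁻¹ * b⁻¹ := ⟨_, rfl⟩
  obtain ⟨huK, huk, huu, hcen, hab0⟩ := hC.u_data hc hbk hbK hu
  obtain ⟨L₀, hL₀⟩ := exists_L N c u
  have hKL : K ≤ L₀ := fun x hx => (hL₀ x).2 ⟨hC.K_le hx, hcK x hx, huK x hx⟩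
  have hLc : Fixes L₀ c := fun x hx => ((hL₀ x).1 hx).2.1
  have hL : L₀ ≤ ℚ⟮ζ⟯ := fun x hx => by
    obtain ⟨h1, h2, h3⟩ := (hL₀ x).1 hx
    exact hkw x h1 fun σ τ => hab0 σ τ x h1 h3
  obtain ⟨Z, ε, hε, hε0, hlim, hint, hab⟩ := hS
  -- invariance under conjugation
  have hcong : ∀ g g' : GQ, (∀ x ∈ N, g x = g' x) → ∀ n,
      cnt k N (Ideal.span {(f : 𝓞 k)}) art g n = cnt k N (Ideal.span {(f : 𝓞 k)}) art g' n :=
    fun g g' h n => cnt_congr k N _ art h n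
  obtain ⟨𝔓, fr, hfr⟩ := exists_frobs hM
  have r₂ := rec_cN hC.deg_k hC.k_le hNM hM hU hart hfr
  have hT := hC.two hc hbk hbK
  have hconj : ∀ g y : GQ, ∀ n, n ≠ 0 →
      cnt k N (Ideal.span {(f : 𝓞 k)}) art (y * g * y⁻¹) n =
        cnt k N (Ideal.span {(f : 𝓞 k)}) art g n := by
    intro g y n hn
    have h1 := r₂.conj hT.iB hT.cB n hn (rr N g) (rr N y)
    rw [← map_inv, ← map_mul, ← map_mul, cN_rr, cN_rr] at h1
    exact_mod_cast h1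
  obtain ⟨η, hηN, hcη, hη0, hηi, hηi', hlog, hone, hroot⟩ :=
    exists_eta hC hc hbk hbK hu hW' hε hε0 hlim hint hab hcong hconj
  -- the automorphism in both groups
  set pr : GQ → GQ := fun σ => if Fixes k σ then σ else σ * c with hpr
  have hpr1 : ∀ σ, Fixes k (pr σ) := by
    intro σ
    simp only [hpr]
    split_ifs with h
    · exact h
    · exact quad hC.deg_k h hck
  have hpr2 : ∀ σ, pr σ = σ ∨ pr σ = σ * c := by
    intro σ
    simp only [hpr]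
    split_ifs with h
    · exact Or.inl rfl
    · exact Or.inr rfl
  have hpr3 : ∀ σ, Fixes K σ → Fixes K (pr σ) := by
    intro σ hσ
    rcases hpr2 σ with h | h
    · rw [h]; exact hσ
    · rw [h]; exact hσ.mul hcK
  have hpr4 : ∀ σ, pr σ η = σ η := by
    intro σ
    rcases hpr2 σ with h | h
    · rw [h]
    · rw [h, AlgEquiv.mul_apply, hcη]
  set w : ℂ := if Fixes N u then 2 else 1 with hw
  have hre : ∀ g : GQ, Fixes k g → (((deriv (Z g) 0).re : ℝ) : ℂ) = deriv (Z g) 0 := by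
    intro g hg
    have h1 := (hlim g hg).2.2
    have hW0 : (W' : ℂ) ≠ 0 := Nat.cast_ne_zero.2 hW'.ne'
    have h2 : deriv (Z g) 0 = ((-(Real.log (‖ι (g ε)‖ ^ 2)) / W' : ℝ) : ℂ) := by
      push_cast
      rw [eq_div_iff hW0]
      rw [h1]
      ring
    rw [h2, Complex.ofReal_re]
  refine ⟨fun σ s => (1 / 2 : ℂ) * (w * EE hζ K L₀ σ s + (Z (pr σ) s - Z (pr σ * u) s)), η,
    (hH η).2 ⟨hηN, (im_iff hc η).2 hcη⟩, hη0, ?_, hηi, hηi', ?_, hroot⟩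
  · intro σ hσ
    have hg1 := hpr1 σ
    have hg2 : Fixes k (pr σ * u) := hg1.mul huk
    have hE := EE_isZeta (M := N ⊔ ℚ⟮ζ⟯) hζ hC.deg_K hKL hL hM hU (hC.K_le.trans hNM) hζM hf
      hartK hσ
    obtain ⟨hE0, hE1⟩ := EE_zero (K := K) hζ (aut_conj hζ hc) hLc hL hf σ
    have z1 := hlim _ hg1
    have z2 := hlim _ hg2
    have hn : ({1}ᶜ : Set ℂ) ∈ nhds (0 : ℂ) := isOpen_compl_singleton.mem_nhds (by simp)
    refine ⟨⟨?_, ?_⟩, ?_, ?_⟩
    · exact ((hE.1.const_mul w).add (z1.1.1.sub z2.1.1)).const_mul _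
    · intro s hs
      have h3 := (((hE.2 s hs).smul w).add ((z1.1.2 s hs).sub (z2.1.2 s hs))).smul (1 / 2 : ℂ)
      refine (LSeriesHasSum_congr s _ (fun {n} hn => ?_)).1 h3
      have h4 := two_cnt hC hc hbk hbK hu hNM hM hU hartK hart hH hL₀ hσ hg1 (hpr2 σ) hn
      have h5 : (2 * cnt K H (Ideal.span {(f : 𝓞 K)}) artK σ n : ℂ) =
        w * cnt K L₀ (Ideal.span {(f : 𝓞 K)}) artK σ n +
        (cnt k N (Ideal.span {(f : 𝓞 k)}) art (pr σ) n -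
          cnt k N (Ideal.span {(f : 𝓞 k)}) art (pr σ * u) n) := by
        have h6 := congrArg (fun z : ℤ => (z : ℂ)) h4
        push_cast at h6
        rw [hw]
        exact h6
      rw [Pi.smul_apply, Pi.add_apply, Pi.smul_apply, Pi.sub_apply, smul_eq_mul, smul_eq_mul,
        ← h5]
      ring
    · simp only
      rw [hE0, z1.2.1, z2.2.1]
      ring
    · have d0 := (hE.1.differentiableAt hn).hasDerivAt
      have d1 := (z1.1.1.differentiableAt hn).hasDerivAt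
      have d2 := (z2.1.1.differentiableAt hn).hasDerivAt
      have h5 := (((d0.const_mul w).add (d1.sub d2)).const_mul (1 / 2 : ℂ)).deriv
      have h6 : deriv (fun s => (1 / 2 : ℂ) *
          (w * EE hζ K L₀ σ s + (Z (pr σ) s - Z (pr σ * u) s))) 0 =
          1 / 2 * (w * deriv (EE hζ K L₀ σ) 0 + (deriv (Z (pr σ)) 0 - deriv (Z (pr σ * u)) 0)) := h5
      rw [h6, hE1, ← hpr4 σ, hlog _ (hpr3 σ hσ) hg1]
      push_cast
      rw [hre _ hg1, hre _ hg2]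
      ring
  · rintro v ⟨x, hx, hx2⟩
    obtain ⟨τ, hτ⟩ := exists_lift ι v
    rw [hτ]
    refine hone τ fun h => hx2 ?_
    rw [hτ, h x hx]

/-- The real subfield has two roots of unity. -/
lemma torsion_two (ι : Qbar →+* ℂ) (H : IntermediateField ℚ Qbar)
    (hH : ∀ x ∈ H, (ι x).im = 0) : IsTorsionOrder H 2 := by
  refine ⟨two_pos, fun ξ => ⟨?_, fun h => ?_⟩⟩
  · rintro ⟨h1, n, hn, h2⟩
    have h3 : ‖ι ξ‖ = 1 := by
      refine Complex.norm_eq_one_of_pow_eq_one (n := n) ?_ hn.ne'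
      rw [← map_pow, h2, map_one]
    apply ι.injective
    rw [map_pow, map_one]
    have h4 := Complex.conj_eq_iff_im.2 (hH ξ h1)
    have h5 := Complex.mul_conj (ι ξ)
    rw [h4, Complex.normSq_eq_norm_sq, h3] at h5
    rw [pow_two, h5]
    norm_num
  · refine ⟨?_, 2, two_pos, h⟩
    rcases sq_eq_one_iff.1 h with h1 | h1
    · rw [h1]; exact H.one_mem
    · rw [h1]; exact H.neg_mem H.one_mem

end Pool.Agent.J4.H48.RQ
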