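import Pool.Agent.J4.H48.RQ.Frob

/-! Primes in quadratic fields, their Artin symbols, and the recursion for the numbers of ideals. -/

set_option autoImplicit false
set_option linter.style.haveILetI false
set_option linter.unusedSectionVars false

namespace Pool.Agent.J4.H48.RQ
open NumberField Module IntermediateField Pool.Agent.K4H33.SK

lemma card_le_of_pow {k : Type*} [CommRing k] [IsDomain k] [Finite k] {p : ℕ} (hp : 1 < p)
    (h : ∀ x : k, x ^ p = x) : Nat.card k ≤ p := by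
  classical
  haveI : Fintype k := Fintype.ofFinite k
  have hdeg : (Polynomial.X ^ p - Polynomial.X : Polynomial k).natDegree = p := by
    rw [Polynomial.natDegree_sub_eq_left_of_natDegree_lt]
    · exact Polynomial.natDegree_X_pow p
    · rw [Polynomial.natDegree_X_pow, Polynomial.natDegree_X]
      exact hp
  have hq0 : (Polynomial.X ^ p - Polynomial.X : Polynomial k) ≠ 0 := by
    intro h0
    rw [h0, Polynomial.natDegree_zero] at hdeg
    omega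
  have h3 : (Finset.univ : Finset k).val ⊆ (Polynomial.X ^ p - Polynomial.X : Polynomial k).roots := by
    intro x _
    rw [Polynomial.mem_roots hq0, Polynomial.IsRoot.def, Polynomial.eval_sub,
      Polynomial.eval_pow, Polynomial.eval_X, h, sub_self]
  have h4 := Polynomial.card_le_degree_of_subset_roots h3
  rw [hdeg, Finset.card_univ] at h4
  rwa [Nat.card_eq_fintype_card]

section

variable {F M : IntermediateField ℚ Qbar} [NumberField F] [NumberField M] {f p : ℕ}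
  {𝔓 : Ideal (𝓞 Qbar)} {art : Ideal (𝓞 F) → GQ} {g : GQ}

lemma absNorm_natCast (hF : finrank ℚ F = 2) (p : ℕ) :
    Ideal.absNorm (Ideal.span {(p : 𝓞 F)}) = p ^ 2 := by
  rw [Ideal.absNorm_span_singleton]
  have h1 : (p : 𝓞 F) = algebraMap ℤ (𝓞 F) (p : ℤ) := by simp
  rw [h1, Algebra.norm_algebraMap, RingOfIntegers.rank, hF, Int.natAbs_pow, Int.natAbs_natCast]

lemma norm_cases (hF : finrank ℚ F = 2) (hp : p.Prime) {P : Ideal (𝓞 F)} (hP : P.IsPrime)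
    (hpP : (p : 𝓞 F) ∈ P) : Ideal.absNorm P = p ∨ Ideal.absNorm P = p ^ 2 := by
  have h1 : Ideal.absNorm P ∣ p ^ 2 := by
    rw [← absNorm_natCast hF p]
    exact map_dvd Ideal.absNorm (Ideal.dvd_span_singleton.2 hpP)
  rw [Nat.dvd_prime_pow hp] at h1
  obtain ⟨i, hi, h2⟩ := h1
  interval_cases i
  · exfalso
    apply hP.ne_top
    rw [pow_zero] at h2
    exact Ideal.absNorm_eq_one_iff.1 h2
  · left; rw [h2, pow_one]
  · right; exact h2

lemma under_prime_ne_bot (hp : p.Prime) {P : Ideal (𝓞 F)} (hpP : (p : 𝓞 F) ∈ P) : P ≠ ⊥ := by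
  rintro rfl
  rw [Ideal.mem_bot, Nat.cast_eq_zero] at hpP
  exact hp.ne_zero hpP

/-- If all elements of the residue field satisfy `x ^ p = x`, the norm is `p`. -/
lemma norm_of_pow (hF : finrank ℚ F = 2) (hp : p.Prime) {P : Ideal (𝓞 F)} (hP : P.IsPrime)
    (hpP : (p : 𝓞 F) ∈ P) (h : ∀ x : 𝓞 F, x - x ^ p ∈ P) : Ideal.absNorm P = p := by
  rcases norm_cases hF hp hP hpP with h1 | h1
  · exact h1
  exfalso
  have hP0 := under_prime_ne_bot hp hpP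
  haveI := hP
  haveI : Finite (𝓞 F ⧸ P) := Ideal.finiteQuotientOfFreeOfNeBot P hP0
  have h2 : Nat.card (𝓞 F ⧸ P) = p ^ 2 := h1
  have h3 : ∀ x : 𝓞 F ⧸ P, x ^ p = x := by
    intro x
    obtain ⟨z, rfl⟩ := Ideal.Quotient.mk_surjective x
    rw [← map_pow]
    exact (Ideal.Quotient.eq.2 (h z)).symm
  have h4 := card_le_of_pow hp.one_lt h3
  rw [h2] at h4
  have h5 := hp.one_lt
  nlinarith

variable (hF : finrank ℚ F = 2) (hFM : F ≤ M) (hM : Normal ℚ M) (hU : Unram M f)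
  (hart : IsArtin F M (Ideal.span {(f : 𝓞 F)}) art) (hp : p.Prime) (hpf : ¬ p ∣ f)
  (h𝔓 : 𝔓.IsPrime) (h𝔓p : (p : 𝓞 Qbar) ∈ 𝔓) (hg : Fr M 𝔓 p g)

include hp hpf in
lemma coprime_f {P : Ideal (𝓞 F)} (hP : P.IsPrime) (hpP : (p : 𝓞 F) ∈ P) :
    IsCoprime P (Ideal.span {(f : 𝓞 F)}) := by
  have hcop : Nat.Coprime p f := (Nat.Prime.coprime_iff_not_dvd hp).2 hpf
  obtain ⟨u, v, huv⟩ := Nat.isCoprime_iff_coprime.2 hcop
  rw [Ideal.isCoprime_iff_exists]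
  refine ⟨u * (p : 𝓞 F), P.mul_mem_left _ hpP, v * (f : 𝓞 F),
      Ideal.mul_mem_left _ _ (Ideal.mem_span_singleton_self _), ?_⟩
  exact_mod_cast congrArg (Int.cast : ℤ → 𝓞 F) huv

include hart hp hpf h𝔓 h𝔓p in
/-- The Artin symbol is a Frobenius automorphism. -/
lemma fr_art : Fr M 𝔓 (Ideal.absNorm (𝔓.under (𝓞 F))) (art (𝔓.under (𝓞 F))) := by
  haveI := h𝔓
  intro x y hx hy
  refine hart.frob (𝔓.under (𝓞 F)) inferInstance
    (coprime_f hp hpf inferInstance (nat_mem_under h𝔓p)) 𝔓 h𝔓 ⟨rfl⟩ x y hx hy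

include hart hp hpf h𝔓 h𝔓p in
lemma art_fix : Fixes F (art (𝔓.under (𝓞 F))) := by
  haveI := h𝔓
  exact hart.fix _ (coprime_f hp hpf inferInstance (nat_mem_under h𝔓p))

include hF hFM hp h𝔓 h𝔓p hg in
/-- If the Frobenius automorphism fixes `F` then the norm of the prime is `p`. -/
lemma norm_of_fixes (h : Fixes F g) : Ideal.absNorm (𝔓.under (𝓞 F)) = p := by
  haveI := h𝔓
  refine norm_of_pow hF hp inferInstance (nat_mem_under h𝔓p) fun x => ?_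
  rw [mem_under, map_sub, map_pow]
  refine hg _ _ (hFM (x : F).2) ?_
  exact (h _ (x : F).2).symm

include hM hU hart hp hpf h𝔓 h𝔓p hg in
lemma art_eq_of_norm (h : Ideal.absNorm (𝔓.under (𝓞 F)) = p) :
    ∀ x ∈ M, art (𝔓.under (𝓞 F)) x = g x := by
  refine Fr.unique hM hU hp hpf h𝔓 h𝔓p (q := p) ?_ hg
  have h1 := fr_art hart hp hpf h𝔓 h𝔓p
  rwa [h] at h1

include hF hFM hM hU hart hp hpf h𝔓 h𝔓p hg in
lemma norm_iff : Ideal.absNorm (𝔓.under (𝓞 F)) = p ↔ Fixes F g := by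
  constructor
  · intro h x hx
    rw [← art_eq_of_norm hM hU hart hp hpf h𝔓 h𝔓p hg h x (hFM hx)]
    exact art_fix hart hp hpf h𝔓 h𝔓p x hx
  · exact norm_of_fixes hF hFM hp h𝔓 h𝔓p hg

include hM hg in
lemma fr_sq : Fr M 𝔓 (p ^ 2) (g * g) := by
  intro x y hx hy
  have h1 := hg x (ap g x) hx rfl
  have h2 := hg (ap g x) y (by rw [coe_ap]; exact normal_mem hM _ hx) (by rw [hy]; rfl)
  have h3 : ap g x ^ p - (x ^ p) ^ p ∈ 𝔓 := by
    have h4 := sub_dvd_pow_sub_pow (ap g x) (x ^ p) p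
    exact Ideal.mem_of_dvd 𝔓 h4 h1
  have h5 : y - x ^ p ^ 2 = (y - ap g x ^ p) + (ap g x ^ p - (x ^ p) ^ p) := by
    rw [pow_two, pow_mul]
    ring
  rw [h5]
  exact 𝔓.add_mem h2 h3

include hF hFM hM hU hart hp hpf h𝔓 h𝔓p hg in
lemma art_eq_sq (h : ¬ Fixes F g) : Ideal.absNorm (𝔓.under (𝓞 F)) = p ^ 2 ∧
    ∀ x ∈ M, art (𝔓.under (𝓞 F)) x = (g * g) x := by
  haveI := h𝔓
  have h1 : Ideal.absNorm (𝔓.under (𝓞 F)) = p ^ 2 := by
    rcases norm_cases hF hp (P := 𝔓.under (𝓞 F)) inferInstance (nat_mem_under h𝔓p) with h1 | h1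
    · exact absurd ((norm_iff hF hFM hM hU hart hp hpf h𝔓 h𝔓p hg).1 h1) h
    · exact h1
  refine ⟨h1, Fr.unique hM hU hp hpf h𝔓 h𝔓p (q := p ^ 2) ?_ (fr_sq hM hg)⟩
  have h2 := fr_art hart hp hpf h𝔓 h𝔓p
  rwa [h1] at h2

omit [NumberField M] in
lemma agree_mul_inv (hM : Normal ℚ M) {a b σ : GQ} (h : ∀ x ∈ M, a x = b x) :
    ∀ x ∈ M, (a⁻¹ * σ) x = (b⁻¹ * σ) x := by
  intro x hx
  rw [AlgEquiv.mul_apply, AlgEquiv.mul_apply, AlgEquiv.aut_inv, AlgEquiv.symm_apply_eq,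
    h _ (normal_mem hM _ (normal_mem hM _ hx)), ← AlgEquiv.mul_apply, mul_inv_cancel,
    AlgEquiv.one_apply]

variable {L : IntermediateField ℚ Qbar}

/-- No ideal prime to `p` has a norm divisible by `p`. -/
lemma cnt_zero {𝔪 : Ideal (𝓞 F)} (h𝔪 : 𝔪 ≤ Ideal.span {(p : 𝓞 F)}) (hp : p.Prime) (σ : GQ) {n : ℕ}
    (hn : p ∣ n) : cnt F L 𝔪 art σ n = 0 := by
  unfold cnt
  rw [Nat.card_eq_zero]
  left
  rw [isEmpty_subtype]
  rintro 𝔟 ⟨h1, h2, -⟩
  have h3 := norm_coprime h𝔪 h2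
  rw [h1] at h3
  exact hp.one_lt.ne' (Nat.dvd_one.1 (h3.gcd_eq_one ▸ Nat.dvd_gcd hn dvd_rfl))

include hF hFM hM hU hart hp hpf h𝔓 h𝔓p hg in
/-- The recursion at an inert prime. -/
theorem rec_inert (hLM : L ≤ M) (h : ¬ Fixes F g) (σ : GQ) {n : ℕ} (hn : p ∣ n) :
    cnt F L (Ideal.span {(f : 𝓞 F)}) art σ n =
      if p ^ 2 ∣ n then cnt F L (Ideal.span {(f : 𝓞 F)}) art ((g * g)⁻¹ * σ) (n / p ^ 2) else 0 := by
  haveI := h𝔓
  obtain ⟨h1, h2⟩ := art_eq_sq hF hFM hM hU hart hp hpf h𝔓 h𝔓p hg h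
  set P : Ideal (𝓞 F) := 𝔓.under (𝓞 F) with hP
  have hPp : P.IsPrime := inferInstance
  have hpP : (p : 𝓞 F) ∈ P := nat_mem_under h𝔓p
  have hP0 := under_prime_ne_bot hp hpP
  have hPe : P = Ideal.span {(p : 𝓞 F)} := by
    obtain ⟨J, hJ⟩ : P ∣ Ideal.span {(p : 𝓞 F)} := Ideal.dvd_span_singleton.2 hpP
    have h3 := congrArg Ideal.absNorm hJ
    rw [absNorm_natCast hF, map_mul, h1] at h3
    have h4 : Ideal.absNorm J = 1 := by
      have h5 : 0 < p ^ 2 := pow_pos hp.pos 2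
      exact (Nat.eq_of_mul_eq_mul_left h5 (by rw [mul_one]; exact h3)).symm
    rw [Ideal.absNorm_eq_one_iff] at h4
    rw [hJ, h4, Ideal.mul_top]
  rw [cnt_prime hart hLM (fun 𝔟 h => h) hPp hP0 (coprime_f hp hpf hPp hpP) σ n,
    cnt_zero (p := p) (by rw [hPe]; exact Ideal.mul_le_right) hp σ hn, zero_add, h1]
  split_ifs
  · exact cnt_congr F L _ art (fun x hx => agree_mul_inv hM h2 x (hLM hx)) _
  · rfl

include hF hFM hM hU hart hp hpf h𝔓 h𝔓p hg in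
/-- The recursion at a split prime. -/
theorem rec_split (hLM : L ≤ M) (h : Fixes F g) : ∃ s : GQ, ¬ Fixes F s ∧ ∀ (σ : GQ) {n : ℕ},
    p ∣ n → (cnt F L (Ideal.span {(f : 𝓞 F)}) art σ n : ℤ) =
      cnt F L (Ideal.span {(f : 𝓞 F)}) art (g⁻¹ * σ) (n / p) +
      cnt F L (Ideal.span {(f : 𝓞 F)}) art ((s * g * s⁻¹)⁻¹ * σ) (n / p) -
      if p ∣ n / p then
        (cnt F L (Ideal.span {(f : 𝓞 F)}) art (g⁻¹ * ((s * g * s⁻¹)⁻¹ * σ)) (n / p / p) : ℤ)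
      else 0 := by
  haveI := h𝔓
  have h1 := (norm_iff hF hFM hM hU hart hp hpf h𝔓 h𝔓p hg).2 h
  have h2 := art_eq_of_norm hM hU hart hp hpf h𝔓 h𝔓p hg h1
  set P : Ideal (𝓞 F) := 𝔓.under (𝓞 F) with hP
  have hPp : P.IsPrime := inferInstance
  have hpP : (p : 𝓞 F) ∈ P := nat_mem_under h𝔓p
  have hP0 := under_prime_ne_bot hp hpP
  obtain ⟨P', hP'⟩ : P ∣ Ideal.span {(p : 𝓞 F)} := Ideal.dvd_span_singleton.2 hpP
  have h3 : Ideal.absNorm P' = p := by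
    have h4 := congrArg Ideal.absNorm hP'
    rw [absNorm_natCast hF, map_mul, h1, pow_two] at h4
    exact (Nat.eq_of_mul_eq_mul_left hp.pos h4).symm
  have hPp' : P'.IsPrime := Ideal.isPrime_of_irreducible_absNorm (by rw [h3]; exact hp)
  have hpP' : (p : 𝓞 F) ∈ P' := by
    have h4 : Ideal.span {(p : 𝓞 F)} ≤ P' := by rw [hP']; exact Ideal.mul_le_right
    exact h4 (Ideal.mem_span_singleton_self _)
  have hP0' := under_prime_ne_bot hp hpP'
  -- the primes are different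
  have hne : P' ≠ P := by
    rintro h4
    rw [h4, ← pow_two] at hP'
    have h5 : (p : 𝓞 F) ∈ P ^ 2 := by
      rw [← hP']
      exact Ideal.mem_span_singleton_self _
    have h6 : (p : 𝓞 M) ∈ (𝔓.under (𝓞 M)) ^ 2 := by
      let i : 𝓞 F →+* 𝓞 M := RingOfIntegers.mapRingHom (IntermediateField.inclusion hFM)
      have h7 : Ideal.map i P ≤ 𝔓.under (𝓞 M) := by
        rw [Ideal.map_le_iff_le_comap]
        intro x hx
        rw [Ideal.mem_comap, mem_under]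
        exact hx
      have h8 : i (p : 𝓞 F) ∈ Ideal.map i (P ^ 2) := Ideal.mem_map_of_mem i h5
      rw [map_natCast, Ideal.map_pow] at h8
      exact Ideal.pow_right_mono h7 2 h8
    exact hU p hp hpf (𝔓.under (𝓞 M)) inferInstance (nat_mem_under h𝔓p) h6
  -- a prime above the second one
  haveI : Algebra.IsAlgebraic F Qbar := Algebra.IsAlgebraic.tower_top (K := ℚ) F
  haveI : Algebra.IsIntegral (𝓞 F) (𝓞 Qbar) := inferInstance
  obtain ⟨⟨𝔓', h𝔓', hl⟩⟩ := Ideal.nonempty_primesOver (S := 𝓞 Qbar) P'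
  have hu : 𝔓'.under (𝓞 F) = P' := (hl.over).symm
  have h𝔓p' : (p : 𝓞 Qbar) ∈ 𝔓' := by
    have h4 : (p : 𝓞 F) ∈ 𝔓'.under (𝓞 F) := by rw [hu]; exact hpP'
    rw [mem_under, map_natCast] at h4
    exact h4
  obtain ⟨s, hs⟩ := exists_maps hM hp h𝔓 h𝔓p h𝔓' h𝔓p'
  have hsF : ¬ Fixes F s := by
    intro h4
    apply hne
    have h5 : P ≤ P' := by
      intro x hx
      rw [← hu, mem_under]
      have h6 := hs (algebraMap (𝓞 F) (𝓞 Qbar) x) (hFM (x : F).2) hx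
      have h7 : ap s (algebraMap (𝓞 F) (𝓞 Qbar) x) = algebraMap (𝓞 F) (𝓞 Qbar) x := by
        apply RingOfIntegers.ext
        rw [coe_ap]
        exact h4 _ (x : F).2
      rwa [h7] at h6
    exact ((hPp.isMaximal hP0).eq_of_le hPp'.ne_top h5).symm
  have hg' : Fr M 𝔓' p (s * g * s⁻¹) := Fr.conj hM hg hs
  have h4 : ∀ x ∈ M, art P' x = (s * g * s⁻¹) x := by
    rw [← hu]
    exact art_eq_of_norm hM hU hart hp hpf h𝔓' h𝔓p' hg' (by rw [hu]; exact h3)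
  refine ⟨s, hsF, fun σ n hn => ?_⟩
  set 𝔤 : Ideal (𝓞 F) := Ideal.span {(f : 𝓞 F)} with h𝔤
  have hc1 : IsCoprime P 𝔤 := coprime_f hp hpf hPp hpP
  have hc2 : IsCoprime P' 𝔤 := coprime_f hp hpf hPp' hpP'
  have hc3 : IsCoprime P' (𝔤 * P) := by
    refine IsCoprime.mul_right hc2 ?_
    rw [isCoprime_prime_iff hPp hP0]
    intro h5
    exact hne ((hPp'.isMaximal hP0').eq_of_le hPp.ne_top h5)
  have e1 := cnt_prime hart hLM (fun 𝔟 h => h) hPp hP0 hc1 σ n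
  have e2 := cnt_prime hart hLM (𝔤 := 𝔤 * P) (fun 𝔟 h => (IsCoprime.mul_right_iff.1 h).1) hPp'
    hP0' hc3 σ n
  have e3 := cnt_prime hart hLM (fun 𝔟 h => h) hPp hP0 hc1 ((art P')⁻¹ * σ) (n / p)
  have e4 : cnt F L (𝔤 * P * P') art σ n = 0 := by
    refine cnt_zero (p := p) ?_ hp σ hn
    rw [mul_assoc, ← hP']
    exact Ideal.mul_le_right
  rw [e4, zero_add, h3, if_pos hn] at e2
  rw [h1, if_pos hn, e2] at e1
  rw [h1] at e3
  have c1 : cnt F L 𝔤 art ((art P)⁻¹ * σ) (n / p) = cnt F L 𝔤 art (g⁻¹ * σ) (n / p) :=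
    cnt_congr F L _ art (fun x hx => agree_mul_inv hM h2 x (hLM hx)) _
  have c2 : cnt F L 𝔤 art ((art P')⁻¹ * σ) (n / p) =
      cnt F L 𝔤 art ((s * g * s⁻¹)⁻¹ * σ) (n / p) :=
    cnt_congr F L _ art (fun x hx => agree_mul_inv hM h4 x (hLM hx)) _
  have c3 : cnt F L 𝔤 art ((art P)⁻¹ * ((art P')⁻¹ * σ)) (n / p / p) =
      cnt F L 𝔤 art (g⁻¹ * ((s * g * s⁻¹)⁻¹ * σ)) (n / p / p) := by
    refine cnt_congr F L _ art (fun x hx => ?_) _
    have d1 := agree_mul_inv (σ := (art P')⁻¹ * σ) hM h2 x (hLM hx)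
    rw [d1, AlgEquiv.mul_apply, AlgEquiv.mul_apply g⁻¹,
      agree_mul_inv (σ := σ) hM h4 x (hLM hx)]
  rw [c2, c3] at e3
  rw [e1, c1]
  split_ifs at e3 ⊢ with hd
  · push_cast
    have e5 : (cnt F L 𝔤 art ((s * g * s⁻¹)⁻¹ * σ) (n / p) : ℤ) =
        cnt F L (𝔤 * P) art ((art P')⁻¹ * σ) (n / p) +
          cnt F L 𝔤 art (g⁻¹ * ((s * g * s⁻¹)⁻¹ * σ)) (n / p / p) := by exact_mod_cast e3
    rw [e5]
    ring
  · push_cast
    rw [e3]
    push_cast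
    ring

end

end Pool.Agent.J4.H48.RQ
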